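import Pool.Agent.H3.LC.PairCyc

/-!
# The thick types form an admissible family (module Adm, about 80 lines)

Proof: let `2 ≤ m`, `f : ZMod m → Fin s` injective (so `m ≤ s`) and `T i ∈ thick G e` with
`f i, f (i + 1) ∈ T i`. For every thick `T` the set of `v ∉ Set.range e` with `typ G e v = T` has at
least `s ≥ m` elements, so there is an injection `g T : ZMod m → V` (`ZMod m` has `m` elements) into
this set; put `v i = g (T i) i`. It is injective: `v i = v k` gives `T i = typ G e (v i) = T k` and
then `i = k`. With `x = e ∘ f` this is a pair: `x i ≠ v k` since `v k ∉ Set.range e`, and `v i` is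
adjacent to `e a` for all `a ∈ T i = typ G e (v i)`. By `exists_cyc_of_pair` there is a cyclic
sequence of length `2 m ≥ 4`, so `2 * m ∈ L`.
-/

namespace Pool.Agent.H3.LC

open SimpleGraph

private theorem adm_adj_of_mem_typ {V : Type*} {G : SimpleGraph V} {s : ℕ} {e : Fin s → V} {v : V}
    {a : Fin s} (h : a ∈ typ G e v) : G.Adj v (e a) := by
  classical
  unfold typ at h
  exact (Finset.mem_filter.mp h).2

private theorem adm_inj_of_thick {V : Type*} [Finite V] {G : SimpleGraph V} {s : ℕ} {e : Fin s → V}
    {m : ℕ} [NeZero m] (hm : m ≤ s) {T : Finset (Fin s)} (hT : T ∈ thick G e) :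
    ∃ g : ZMod m → V, Function.Injective g ∧ ∀ i, g i ∉ Set.range e ∧ typ G e (g i) = T := by
  classical
  have h1 : s ≤ {v | v ∉ Set.range e ∧ typ G e v = T}.ncard := by
    unfold thick at hT
    exact (Finset.mem_filter.mp hT).2
  have hfin : {v | v ∉ Set.range e ∧ typ G e v = T}.Finite := Set.toFinite _
  haveI : Fintype {v | v ∉ Set.range e ∧ typ G e v = T} := hfin.fintype
  have h2 : Fintype.card (ZMod m) ≤ Fintype.card {v | v ∉ Set.range e ∧ typ G e v = T} := by
    rw [ZMod.card m, ← Nat.card_eq_fintype_card, Nat.card_coe_set_eq]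
    exact hm.trans h1
  obtain ⟨g⟩ := Function.Embedding.nonempty_of_card_le h2
  refine ⟨fun i => (g i : V), ?_, fun i => (g i).2⟩
  intro i k hik
  exact g.injective (Subtype.ext hik)

theorem admissible_thick {V : Type*} [Finite V] {G : SimpleGraph V} {L : Finset ℕ}
    (hG : ∀ (m : ℕ) (f : ZMod m → V), 3 ≤ m → IsCyc G f → m ∈ L) {s : ℕ} {e : Fin s → V}
    (he : Function.Injective e) : Admissible L (thick G e) := by
  intro m hm f hf hT
  haveI : NeZero m := ⟨by omega⟩
  have hms : m ≤ s := by
    have h1 := Fintype.card_le_of_injective f hf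
    rw [ZMod.card m, Fintype.card_fin] at h1
    exact h1
  choose T hTm hT1 hT2 using hT
  have key : ∀ i, ∃ g : ZMod m → V, Function.Injective g ∧
      ∀ j, g j ∉ Set.range e ∧ typ G e (g j) = T i :=
    fun i => adm_inj_of_thick hms (hTm i)
  have key2 : ∀ S : Finset (Fin s), ∃ g : ZMod m → V, S ∈ thick G e → (Function.Injective g ∧
      ∀ j, g j ∉ Set.range e ∧ typ G e (g j) = S) := by
    intro S
    by_cases hS : S ∈ thick G e
    · obtain ⟨g, hg⟩ := adm_inj_of_thick hms hS
      exact ⟨g, fun _ => hg⟩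
    · obtain ⟨g, -⟩ := key 0
      exact ⟨g, fun h => absurd h hS⟩
  choose g hg using key2
  have hv1 : ∀ i, g (T i) i ∉ Set.range e := fun i => ((hg (T i) (hTm i)).2 i).1
  have hv2 : ∀ i, typ G e (g (T i) i) = T i := fun i => ((hg (T i) (hTm i)).2 i).2
  have hpair : IsPair G (fun i => e (f i)) (fun i => g (T i) i) := by
    refine ⟨he.comp hf, ?_, ?_, ?_⟩
    · intro i k hik
      have hik' : g (T i) i = g (T k) k := hik
      have hTT : T i = T k := by
        rw [← hv2 i, ← hv2 k, hik']
      rw [hTT] at hik'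
      exact (hg (T k) (hTm k)).1 hik'
    · intro i k hik
      exact hv1 k ⟨f i, hik⟩
    · intro i
      constructor
      · apply adm_adj_of_mem_typ
        rw [hv2 i]
        exact hT1 i
      · apply adm_adj_of_mem_typ
        rw [hv2 i]
        exact hT2 i
  obtain ⟨F, hF, -⟩ := exists_cyc_of_pair hm hpair
  exact hG (2 * m) F (by omega) hF

end Pool.Agent.H3.LC
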