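import Pool.Agent.H3.LC.Defs

/-!
# Admissibility through sequences indexed by naturals (module AdmNat, about 90 lines)

`adm_nat`: apply the definition to `f i = g i.val`, `i : ZMod m`: `(i + 1).val = i.val + 1` if
`i.val + 1 < m` and `i + 1 = 0` if `i.val + 1 = m`.

`insert_chain`: apply `adm_nat` with `m = j + 1` and `g a = f (i + 1 + a)` for `a < j` and `g a = x`
otherwise: consecutive `a, a + 1 < j`: `T (i + 1 + a)`; `g (j - 1) = f (i + j) = f i` and `g j = x`
are in `T i`; `g j = x` and `g 0 = f (i + 1)` are in `T i`. Injective: the casts of `a, b < j` into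
`ZMod j` differ; `x` is not a value of `f`.

`sub_chain`: for `T i ∋ f (i + 1 + r)`, `1 ≤ r`, `r + 2 ≤ j` (so this point is different from `f i` and
`f (i + 1)`): four closed chains.
 (1) `f (i+1), ..., f (i+1+r)`: `r + 1 ≥ 2` points, closed by `T i ∋ f (i+1+r), f (i+1)`: `2 (r+1) ∈ L`.
 (2) `f i, f (i+1), ..., f (i+1+r)`: `r + 2` points, closed by `T i ∋ f (i+1+r), f i`: `2 (r+2) ∈ L`.
 (3) `f (i+1+r), ..., f (i+j) = f i`: `j - r` points, closed by `T i`: `2 (j - r) ∈ L`.
 (4) `f (i+1+r), ..., f (i+j), f (i+j+1) = f (i+1)`: `j - r + 1` points, the last step `f i, f (i+1)`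
   by `T i`, closed by `T i ∋ f (i+1), f (i+1+r)`: `2 (j - r + 1) ∈ L`.
 (5) `f i, f (i+1), f (i+1+r)` are three points of `T i`: `6 ∈ L`.
All by `adm_nat` with `g a = f (c + a)` for the starting point `c` (and for (5) a sequence of three
points).
-/

namespace Pool.Agent.H3.LC

theorem adm_nat {L : Finset ℕ} {s : ℕ} {𝒯 : Finset (Finset (Fin s))} (hA : Admissible L 𝒯) {m : ℕ}
    (hm : 2 ≤ m) (g : ℕ → Fin s) (hg : ∀ a b, a < m → b < m → g a = g b → a = b)
    (hc : ∀ a, a + 1 < m → ∃ T ∈ 𝒯, g a ∈ T ∧ g (a + 1) ∈ T)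
    (hl : ∃ T ∈ 𝒯, g (m - 1) ∈ T ∧ g 0 ∈ T) : 2 * m ∈ L := by
  haveI : NeZero m := ⟨by omega⟩
  have h1 : (1 : ZMod m).val = 1 := ZMod.val_one'' (by omega)
  refine hA m hm (fun i => g i.val) ?_ ?_
  · intro a b hab
    exact ZMod.val_injective m (hg _ _ (ZMod.val_lt a) (ZMod.val_lt b) hab)
  · intro i
    have hi := ZMod.val_lt i
    have hadd : (i + 1).val = (i.val + 1) % m := by rw [ZMod.val_add, h1]
    by_cases h : i.val + 1 < m
    · rw [Nat.mod_eq_of_lt h] at hadd
      simp only [hadd]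
      exact hc _ h
    · have he : i.val + 1 = m := by omega
      rw [he, Nat.mod_self] at hadd
      have hv : i.val = m - 1 := by omega
      simp only [hadd, hv]
      exact hl

private theorem cast_inj {j a b : ℕ} (ha : a < j) (hb : b < j) (c : ZMod j)
    (h : c + (a : ZMod j) = c + (b : ZMod j)) : a = b := by
  have h' := add_left_cancel h
  have h2 := (ZMod.natCast_eq_natCast_iff' a b j).mp h'
  rwa [Nat.mod_eq_of_lt ha, Nat.mod_eq_of_lt hb] at h2

private theorem arc {L : Finset ℕ} {s : ℕ} {𝒯 : Finset (Finset (Fin s))} (hA : Admissible L 𝒯)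
    {j : ℕ} {f : ZMod j → Fin s} (hf : Function.Injective f)
    {T : ZMod j → Finset (Fin s)} (hT : ∀ i, T i ∈ 𝒯 ∧ f i ∈ T i ∧ f (i + 1) ∈ T i)
    (c : ZMod j) (m : ℕ) (hm : 2 ≤ m) (hmj : m ≤ j)
    (hl : ∃ T ∈ 𝒯, f (c + ((m - 1 : ℕ) : ZMod j)) ∈ T ∧ f c ∈ T) : 2 * m ∈ L := by
  refine adm_nat hA hm (fun a => f (c + (a : ZMod j))) ?_ ?_ ?_
  · intro a b ha hb hab
    exact cast_inj (by omega) (by omega) c (hf hab)
  · intro a _
    refine ⟨T (c + (a : ZMod j)), (hT _).1, (hT _).2.1, ?_⟩
    have := (hT (c + (a : ZMod j))).2.2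
    have he : c + (a : ZMod j) + 1 = c + ((a + 1 : ℕ) : ZMod j) := by push_cast; ring
    rw [he] at this
    exact this
  · obtain ⟨S, hS, h1, h2⟩ := hl
    refine ⟨S, hS, h1, ?_⟩
    simpa using h2

theorem insert_chain {L : Finset ℕ} {s : ℕ} {𝒯 : Finset (Finset (Fin s))} (hA : Admissible L 𝒯)
    {j : ℕ} (hj : 2 ≤ j) {f : ZMod j → Fin s} (hf : Function.Injective f)
    {T : ZMod j → Finset (Fin s)} (hT : ∀ i, T i ∈ 𝒯 ∧ f i ∈ T i ∧ f (i + 1) ∈ T i)
    (i : ZMod j) {x : Fin s} (hx : x ∈ T i) (hn : ∀ k, f k ≠ x) : 2 * (j + 1) ∈ L := by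
  refine adm_nat hA (m := j + 1) (by omega)
    (fun a => if a < j then f (i + 1 + (a : ZMod j)) else x) ?_ ?_ ?_
  · intro a b ha hb hab
    by_cases h1 : a < j
    · by_cases h2 : b < j
      · simp only [h1, h2, if_true] at hab
        exact cast_inj h1 h2 _ (hf hab)
      · simp only [h1, h2, if_true, if_false] at hab
        exact absurd hab (hn _)
    · by_cases h2 : b < j
      · simp only [h1, h2, if_true, if_false] at hab
        exact absurd hab.symm (hn _)
      · omega
  · intro a ha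
    have h1 : a < j := by omega
    by_cases h2 : a + 1 < j
    · simp only [h1, h2, if_true]
      refine ⟨T (i + 1 + (a : ZMod j)), (hT _).1, (hT _).2.1, ?_⟩
      have := (hT (i + 1 + (a : ZMod j))).2.2
      have he : i + 1 + (a : ZMod j) + 1 = i + 1 + ((a + 1 : ℕ) : ZMod j) := by push_cast; ring
      rw [he] at this
      exact this
    · simp only [h1, h2, if_true, if_false]
      refine ⟨T i, (hT i).1, ?_, hx⟩
      have hz : ((a + 1 : ℕ) : ZMod j) = 0 := by
        have : a + 1 = j := by omega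
        rw [this]; exact ZMod.natCast_self j
      have he : i + 1 + (a : ZMod j) = i := by
        have : i + 1 + (a : ZMod j) = i + ((a + 1 : ℕ) : ZMod j) := by push_cast; ring
        rw [this, hz, add_zero]
      rw [he]
      exact (hT i).2.1
  · refine ⟨T i, (hT i).1, ?_, ?_⟩
    · have : ¬ (j + 1 - 1 < j) := by omega
      simp only [this, if_false]
      exact hx
    · have h0 : 0 < j := by omega
      simp only [h0, if_true]
      simpa using (hT i).2.2

theorem sub_chain {L : Finset ℕ} {s : ℕ} {𝒯 : Finset (Finset (Fin s))} (hA : Admissible L 𝒯)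
    {j : ℕ} {f : ZMod j → Fin s} (hf : Function.Injective f)
    {T : ZMod j → Finset (Fin s)} (hT : ∀ i, T i ∈ 𝒯 ∧ f i ∈ T i ∧ f (i + 1) ∈ T i)
    (i : ZMod j) (r : ℕ) (hr : 1 ≤ r) (hrj : r + 2 ≤ j) (hx : f (i + 1 + (r : ZMod j)) ∈ T i) :
    6 ∈ L ∧ 2 * (r + 1) ∈ L ∧ 2 * (r + 2) ∈ L ∧ 2 * (j - r) ∈ L ∧ 2 * (j - r + 1) ∈ L := by
  obtain ⟨hTi, hfi, hfi1⟩ := hT i
  have hself : ((j : ℕ) : ZMod j) = 0 := ZMod.natCast_self j
  refine ⟨?_, ?_, ?_, ?_, ?_⟩
  · -- three points
    have h6 : 2 * 3 ∈ L := by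
      refine adm_nat hA (m := 3) (by norm_num)
        (fun a => if a = 0 then f i else if a = 1 then f (i + 1) else f (i + 1 + (r : ZMod j)))
        ?_ ?_ ?_
      · have e0 : i = i + ((0 : ℕ) : ZMod j) := by simp
        have e1 : i + 1 = i + ((1 : ℕ) : ZMod j) := by simp
        have e2 : i + 1 + (r : ZMod j) = i + ((r + 1 : ℕ) : ZMod j) := by push_cast; ring
        have n01 : f i ≠ f (i + 1) := by
          intro h
          have h' := hf h
          have := cast_inj (a := 0) (b := 1) (by omega) (by omega) i (by rw [← e0, ← e1]; exact h')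
          omega
        have n02 : f i ≠ f (i + 1 + (r : ZMod j)) := by
          intro h
          have h' := hf h
          have := cast_inj (a := 0) (b := r + 1) (by omega) (by omega) i
            (by rw [← e0, ← e2]; exact h')
          omega
        have n12 : f (i + 1) ≠ f (i + 1 + (r : ZMod j)) := by
          intro h
          have h' := hf h
          have := cast_inj (a := 1) (b := r + 1) (by omega) (by omega) i
            (by rw [← e1, ← e2]; exact h')
          omega
        intro a b ha hb hab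
        interval_cases a <;> interval_cases b <;> simp at hab ⊢
        · exact n01 hab
        · exact n02 hab
        · exact n01 hab.symm
        · exact n12 hab
        · exact n02 hab.symm
        · exact n12 hab.symm
      · intro a ha
        have : a = 0 ∨ a = 1 := by omega
        rcases this with rfl | rfl
        · exact ⟨T i, hTi, by simpa using hfi, by simpa using hfi1⟩
        · exact ⟨T i, hTi, by simpa using hfi1, by simpa using hx⟩
      · exact ⟨T i, hTi, by simpa using hx, by simpa using hfi⟩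
    simpa using h6
  · refine arc hA hf hT (i + 1) (r + 1) (by omega) (by omega) ⟨T i, hTi, ?_, hfi1⟩
    simpa using hx
  · refine arc hA hf hT i (r + 2) (by omega) (by omega) ⟨T i, hTi, ?_, hfi⟩
    have he : i + ((r + 2 - 1 : ℕ) : ZMod j) = i + 1 + (r : ZMod j) := by
      have : r + 2 - 1 = r + 1 := by omega
      rw [this]; push_cast; ring
    rw [he]; exact hx
  · refine arc hA hf hT (i + 1 + (r : ZMod j)) (j - r) (by omega) (by omega) ⟨T i, hTi, ?_, hx⟩
    have he : i + 1 + (r : ZMod j) + ((j - r - 1 : ℕ) : ZMod j) = i := by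
      have h1 : i + 1 + (r : ZMod j) + ((j - r - 1 : ℕ) : ZMod j)
          = i + ((1 + r + (j - r - 1) : ℕ) : ZMod j) := by push_cast; ring
      have h2 : 1 + r + (j - r - 1) = j := by omega
      rw [h1, h2, hself, add_zero]
    rw [he]; exact hfi
  · refine arc hA hf hT (i + 1 + (r : ZMod j)) (j - r + 1) (by omega) (by omega)
      ⟨T i, hTi, ?_, hx⟩
    have he : i + 1 + (r : ZMod j) + ((j - r + 1 - 1 : ℕ) : ZMod j) = i + 1 := by
      have h1 : i + 1 + (r : ZMod j) + ((j - r + 1 - 1 : ℕ) : ZMod j)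
          = i + 1 + ((r + (j - r + 1 - 1) : ℕ) : ZMod j) := by push_cast; ring
      have h2 : r + (j - r + 1 - 1) = j := by omega
      rw [h1, h2, hself, add_zero]
    rw [he]; exact hfi1

end Pool.Agent.H3.LC
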