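import Mathlib

/-!
# Alternating colourings of a cycle (module AltA, about 90 lines)

Proof: `c (n : ZMod m) = c 0` iff `n` is even, for natural `n` (induction). Since `(m : ZMod m) = 0`,
`m` is even, `m = 2 q`, `2 ≤ q` because `3 ≤ m`. Let `b0 = 0` if `c 0 = true` and `b0 = 1` otherwise,
so `c b0 = true`, and `a i = b0 + 2 * (i.val : ZMod m)`. `a (i + 1) = a i + 2`: if `i.val + 1 < q`
then `(i + 1).val = i.val + 1`; if `i.val + 1 = q` then `i + 1 = 0` and `2 * q = m = 0` in `ZMod m`.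
Injective: `2 i.val = 2 k.val mod 2 q` with `i.val, k.val < q`. Surjective on `{b | c b = true}`:
`b - b0 = (n : ZMod m)` with `n < m`, and `c (b0 + n) = true` forces `n` even, `n = 2 n'`, `n' < q`,
`b = a n'`.
-/

namespace Pool.Agent.H3.LC

private theorem alt_step {m : ℕ} (c : ZMod m → Bool) (hc : ∀ i, c (i + 1) = !c i)
    (x : ZMod m) (n : ℕ) : c (x + (n : ZMod m)) = if Even n then c x else !c x := by
  induction n with
  | zero => simp
  | succ n ih =>
    have h : x + ((n + 1 : ℕ) : ZMod m) = (x + (n : ZMod m)) + 1 := by push_cast; ring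
    rw [h, hc, ih]
    by_cases hn : Even n
    · have h2 : ¬ Even (n + 1) := by rw [Nat.even_add_one]; exact fun h => h hn
      rw [if_pos hn, if_neg h2]
    · have h2 : Even (n + 1) := by rw [Nat.even_add_one]; exact hn
      rw [if_neg hn, if_pos h2, Bool.not_not]

theorem alt_core {m : ℕ} (hm : 3 ≤ m) (c : ZMod m → Bool) (hc : ∀ i, c (i + 1) = !c i) :
    ∃ (q : ℕ) (a : ZMod q → ZMod m), m = 2 * q ∧ 2 ≤ q ∧ Function.Injective a ∧
      (∀ i, c (a i) = true) ∧ (∀ i, a (i + 1) = a i + 2) ∧ ∀ b, c b = true → ∃ i, a i = b := by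
  have hev : Even m := by
    by_contra hne
    have h := alt_step c hc 0 m
    rw [if_neg hne] at h
    simp at h
  obtain ⟨q, hq⟩ := hev
  have hq2 : m = 2 * q := by omega
  have h2q : 2 ≤ q := by omega
  subst hq2
  have : NeZero q := ⟨by omega⟩
  have : NeZero (2 * q) := ⟨by omega⟩
  obtain ⟨b0, hb0⟩ : ∃ b0, c b0 = true := by
    by_cases h0 : c 0 = true
    · exact ⟨0, h0⟩
    · refine ⟨0 + 1, ?_⟩
      rw [hc]
      simpa using h0
  refine ⟨q, fun i => b0 + ((2 * i.val : ℕ) : ZMod (2 * q)), rfl, h2q, ?_, ?_, ?_, ?_⟩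
  · intro i k hik
    have h1 : ((2 * i.val : ℕ) : ZMod (2 * q)) = ((2 * k.val : ℕ) : ZMod (2 * q)) :=
      add_left_cancel hik
    rw [ZMod.natCast_eq_natCast_iff'] at h1
    have hi := ZMod.val_lt i
    have hk := ZMod.val_lt k
    rw [Nat.mod_eq_of_lt (by omega), Nat.mod_eq_of_lt (by omega)] at h1
    exact ZMod.val_injective q (by omega)
  · intro i
    show c (b0 + ((2 * i.val : ℕ) : ZMod (2 * q))) = true
    rw [alt_step c hc, if_pos (even_two_mul _), hb0]
  · intro i
    show b0 + ((2 * (i + 1).val : ℕ) : ZMod (2 * q)) = b0 + ((2 * i.val : ℕ) : ZMod (2 * q)) + 2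
    have h1 : ((2 * (i + 1).val : ℕ) : ZMod (2 * q)) = ((2 * (i.val + 1) : ℕ) : ZMod (2 * q)) := by
      rw [ZMod.natCast_eq_natCast_iff]
      apply Nat.ModEq.mul_left'
      rw [ZMod.val_add, ZMod.val_one_eq_one_mod]
      unfold Nat.ModEq
      simp
    rw [h1]
    push_cast
    ring
  · intro b hb
    obtain ⟨n, hn, hnb⟩ : ∃ n : ℕ, n < 2 * q ∧ b = b0 + (n : ZMod (2 * q)) := by
      refine ⟨(b - b0).val, ZMod.val_lt _, ?_⟩
      rw [ZMod.natCast_zmod_val]
      ring
    have hne : Even n := by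
      by_contra hne
      rw [hnb, alt_step c hc, if_neg hne, hb0] at hb
      simp at hb
    obtain ⟨n', hn'⟩ := hne
    refine ⟨(n' : ZMod q), ?_⟩
    show b0 + ((2 * (n' : ZMod q).val : ℕ) : ZMod (2 * q)) = b
    rw [ZMod.val_cast_of_lt (by omega), hnb]
    congr 2
    omega

end Pool.Agent.H3.LC
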