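import Pool.Agent.H3.LC.Base
import Pool.Agent.H3.LC.AltA

/-!
# Alternating cyclic sequences are pairs (module AltB, about 90 lines)

`exists_pair`: take `q, a` from `alt_core`, `x i = f (a i)`, `v i = f (a i + 1)`. Injectivity from
that of `a` and `f`; `x i ≠ v k` since `c (a i) = true` and `c (a k + 1) = false`; adjacency:
`v i ~ x i` is `(hf.2 (a i)).symm`, `v i ~ x (i + 1) = f (a i + 2)` is `hf.2 (a i + 1)` with
`a i + 1 + 1 = a i + 2`. Edges: for `b` with `c b = true`, `b = a i`, `s(f b, f (b+1)) = s(v i, x i)`;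
for `c b = false`, `c (b - 1) = true`, `b - 1 = a i`, `s(f b, f (b+1)) = s(v i, x (i+1))`.

`few_or_apair`: two consecutive positions are not both sources, so `i ↦ i + 1` maps the sources
injectively into the complement, whence `2 #srcs ≤ m` (`ZMod.card`). If `m ≤ 2 #srcs` this map is
onto the complement, so `i + 1` is a source iff `i` is not (if `i + 1` is no source, then
`i + 1 = i' + 1` with `i'` a source, `i' = i`); apply `exists_pair` with
`c i = decide (i ∉ srcs ρ f)`; then `v i = f (b + 1)` with `b + 1` a source and `x i = f b`,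
`x (i + 1) = f (b + 2)`, which gives the inequalities of `APair`.
-/

namespace Pool.Agent.H3.LC

open SimpleGraph Finset

theorem exists_pair {V : Type*} {G : SimpleGraph V} {m : ℕ} (hm : 3 ≤ m) {f : ZMod m → V}
    (hf : IsCyc G f) (c : ZMod m → Bool) (hc : ∀ i, c (i + 1) = !c i) :
    ∃ (q : ℕ) (x v : ZMod q → V), m = 2 * q ∧ 2 ≤ q ∧ IsPair G x v ∧ pedges x v = cedges f ∧
      ∀ i, ∃ b, c b = true ∧ x i = f b ∧ v i = f (b + 1) ∧ x (i + 1) = f (b + 2) := by
  obtain ⟨q, a, hmq, h2q, ha, hca, ha2, hsurj⟩ := alt_core hm c hc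
  have hcf : ∀ k, c (a k + 1) = false := fun k => by rw [hc, hca]; rfl
  refine ⟨q, fun i => f (a i), fun i => f (a i + 1), hmq, h2q, ⟨hf.1.comp ha, ?_, ?_, ?_⟩, ?_, ?_⟩
  · intro i k hik
    exact ha (add_right_cancel (hf.1 hik))
  · intro i k hik
    have h1 : a i = a k + 1 := hf.1 hik
    have h2 := hca i
    rw [h1, hcf k] at h2
    exact Bool.false_ne_true h2
  · intro i
    refine ⟨(hf.2 (a i)).symm, ?_⟩
    have h1 := hf.2 (a i + 1)
    have h2 : a i + 1 + 1 = a (i + 1) := by rw [ha2]; ring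
    rw [h2] at h1
    exact h1
  · ext e
    constructor
    · rintro ⟨i, rfl | rfl⟩
      · exact ⟨a i, Sym2.eq_swap⟩
      · refine ⟨a i + 1, ?_⟩
        have h2 : a i + 1 + 1 = a (i + 1) := by rw [ha2]; ring
        rw [h2]
    · rintro ⟨b, rfl⟩
      cases hb : c b with
      | true =>
        obtain ⟨i, rfl⟩ := hsurj b hb
        exact ⟨i, Or.inl Sym2.eq_swap⟩
      | false =>
        have h1 : c (b - 1) = true := by
          have h2 := hc (b - 1)
          rw [sub_add_cancel, hb] at h2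
          cases h3 : c (b - 1) with
          | true => rfl
          | false => rw [h3] at h2; exact absurd h2 (by decide)
        obtain ⟨i, hi⟩ := hsurj (b - 1) h1
        have h3 : b = a i + 1 := by rw [hi, sub_add_cancel]
        refine ⟨i, Or.inr ?_⟩
        have h2 : a i + 1 + 1 = a (i + 1) := by rw [ha2]; ring
        rw [h3, h2]
  · intro i
    refine ⟨a i, hca i, rfl, rfl, ?_⟩
    show f (a (i + 1)) = f (a i + 2)
    rw [ha2]

theorem few_or_apair {V : Type*} {G : SimpleGraph V} {m : ℕ} [NeZero m] (hm : 3 ≤ m) {ρ : V → ℕ}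
    (hρ : Function.Injective ρ) {f : ZMod m → V} (hf : IsCyc G f) :
    2 * (srcs ρ f).card ≤ m ∧ (m ≤ 2 * (srcs ρ f).card →
      ∃ (q : ℕ) (x v : ZMod q → V), m = 2 * q ∧ APair G ρ x v ∧ pedges x v = cedges f) := by
  classical
  have hcons : ∀ i, i ∈ srcs ρ f → i + 1 ∉ srcs ρ f := by
    intro i hi hi1
    have h1 := (Finset.mem_filter.1 hi).2.2
    have h2 := (Finset.mem_filter.1 hi1).2.1
    rw [add_sub_cancel_right] at h2
    exact lt_asymm h1 h2
  have hinj : Function.Injective fun i : ZMod m => i + 1 := fun i k hik => add_right_cancel hik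
  have hsub : (srcs ρ f).image (fun i => i + 1) ⊆ (srcs ρ f)ᶜ := by
    intro k hk
    obtain ⟨i, hi, rfl⟩ := Finset.mem_image.1 hk
    exact Finset.mem_compl.2 (hcons i hi)
  have hcard := Finset.card_le_card hsub
  rw [Finset.card_image_of_injective _ hinj, Finset.card_compl, ZMod.card] at hcard
  have hle : (srcs ρ f).card ≤ m := by
    have h1 := Finset.card_le_univ (srcs ρ f)
    rwa [ZMod.card] at h1
  refine ⟨by omega, fun hge => ?_⟩
  have heq : (srcs ρ f).image (fun i => i + 1) = (srcs ρ f)ᶜ := by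
    refine Finset.eq_of_subset_of_card_le hsub ?_
    rw [Finset.card_image_of_injective _ hinj, Finset.card_compl, ZMod.card]
    omega
  have hiff : ∀ i, i + 1 ∉ srcs ρ f ↔ i ∈ srcs ρ f := by
    intro i
    refine ⟨fun h => ?_, hcons i⟩
    have h1 : i + 1 ∈ (srcs ρ f).image (fun i => i + 1) := by
      rw [heq]
      exact Finset.mem_compl.2 h
    obtain ⟨k, hk, hki⟩ := Finset.mem_image.1 h1
    rwa [← hinj hki]
  obtain ⟨q, x, v, hmq, -, hp, he, hb⟩ := exists_pair hm hf (fun i => decide (i ∉ srcs ρ f)) (by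
    intro i
    show decide (i + 1 ∉ srcs ρ f) = !decide (i ∉ srcs ρ f)
    by_cases h : i ∈ srcs ρ f
    · have h2 := (hiff i).2 h
      simp [h, h2]
    · have h2 : i + 1 ∈ srcs ρ f := by
        by_contra h3
        exact h ((hiff i).1 h3)
      simp [h, h2])
  refine ⟨q, x, v, hmq, ⟨hp, fun i => ?_⟩, he⟩
  obtain ⟨b, hcb, hx, hv, hx'⟩ := hb i
  have hb1 : b ∉ srcs ρ f := of_decide_eq_true hcb
  have hb2 : b + 1 ∈ srcs ρ f := by
    by_contra h3
    exact hb1 ((hiff b).1 h3)
  have h4 := (Finset.mem_filter.1 hb2).2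
  rw [add_sub_cancel_right, add_assoc, one_add_one_eq_two] at h4
  rw [hx, hv, hx']
  exact h4

end Pool.Agent.H3.LC
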