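import Pool.Agent.H3.LC.Base

/-!
# Few pairs with some v i in a small set (module BadV, about 90 lines)

Proof: for fixed `i0` bound the number of `(x, v)` with `APair G ρ x v` and `v i0 ∈ R` by
`d ^ q * card V ^ (q - 1) * R.ncard` and sum over `i0`. Labels: `lab : V → V → ℕ` with `lab v`
injective on the out-neighbours of `v` (`G.Adj v u`, `ρ v < ρ u`) with values `< d` there. Code: the
labels `l ↦ lab (v l) (x (l + 1))`, the restriction of `v` to `{l // l ≠ i0}`, and `v i0 ∈ R`. It is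
injective because `x (l + 1)` is determined by `v l` and the label.
-/

namespace Pool.Agent.H3.LC

open SimpleGraph

private theorem exists_lab {V : Type*} [Finite V] {A : Set V} {d : ℕ} (h : A.encard ≤ d) :
    ∃ f : V → ℕ, Set.InjOn f A ∧ ∀ u ∈ A, f u < d := by
  classical
  have hfin : A.Finite := Set.toFinite A
  have hc : hfin.toFinset.card ≤ d := by
    rw [hfin.encard_eq_coe_toFinset_card] at h
    exact_mod_cast h
  let e := hfin.toFinset.equivFin
  refine ⟨fun u => if hu : u ∈ A then (e ⟨u, hfin.mem_toFinset.mpr hu⟩).val else 0, ?_, ?_⟩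
  · intro a ha b hb hab
    simp only [dif_pos ha, dif_pos hb] at hab
    have h1 := e.injective (Fin.ext hab)
    exact congrArg Subtype.val h1
  · intro u hu
    simp only [dif_pos hu]
    exact lt_of_lt_of_le (e _).isLt hc

private theorem one_index {V : Type*} [Fintype V] {G : SimpleGraph V} {ρ : V → ℕ} {d q : ℕ}
    (hq : 2 ≤ q) (h : OutLe G ρ d) (R : Set V) (i0 : ZMod q) :
    {p : (ZMod q → V) × (ZMod q → V) | APair G ρ p.1 p.2 ∧ p.2 i0 ∈ R}.ncard ≤
      d ^ q * (Fintype.card V) ^ (q - 1) * R.ncard := by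
  classical
  have : NeZero q := ⟨by omega⟩
  choose lab hinj hlt using fun v => exists_lab (h.2 v)
  let code : (ZMod q → V) × (ZMod q → V) → (ZMod q → ℕ) × (({l : ZMod q // l ≠ i0} → V) × V) :=
    fun p => (fun l => lab (p.2 l) (p.1 (l + 1)), (fun l => p.2 l.1, p.2 i0))
  let t : Finset ((ZMod q → ℕ) × (({l : ZMod q // l ≠ i0} → V) × V)) :=
    (Fintype.piFinset fun _ : ZMod q => Finset.range d) ×ˢ
      ((Finset.univ : Finset ({l : ZMod q // l ≠ i0} → V)) ×ˢ R.toFinset)
  have hcard : (t : Set ((ZMod q → ℕ) × (({l : ZMod q // l ≠ i0} → V) × V))).ncard = d ^ q * (Fintype.card V) ^ (q - 1) * R.ncard := by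
    rw [Set.ncard_coe_finset, Finset.card_product, Finset.card_product, Fintype.card_piFinset,
      Finset.card_univ, Fintype.card_fun, Finset.prod_const, Finset.card_univ, Finset.card_range,
      ZMod.card, Fintype.card_subtype_compl, ZMod.card, Fintype.card_subtype_eq,
      Set.ncard_eq_toFinset_card']
    ring
  rw [← hcard]
  refine Set.ncard_le_ncard_of_injOn code ?_ ?_ (Finset.finite_toSet t)
  · rintro ⟨x, v⟩ ⟨hp, hR⟩
    simp only [t, Finset.coe_product, Set.mem_prod, Finset.mem_coe, Fintype.mem_piFinset,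
      Finset.mem_range, Finset.mem_univ, true_and, code, Set.mem_toFinset]
    refine ⟨fun l => hlt _ _ ?_, hR⟩
    exact ⟨(hp.1.2.2.2 l).2, (hp.2 l).2⟩
  · rintro ⟨x, v⟩ ⟨hp, hR⟩ ⟨x', v'⟩ ⟨hp', hR'⟩ he
    simp only [code, Prod.mk.injEq] at he
    obtain ⟨h1, h2, h3⟩ := he
    have hv : v = v' := by
      funext l
      by_cases hl : l = i0
      · rw [hl]; exact h3
      · exact congrFun h2 ⟨l, hl⟩
    subst hv
    have hx : x = x' := by
      funext k
      have h4 := congrFun h1 (k - 1)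
      simp only [sub_add_cancel] at h4
      refine hinj (v (k - 1)) ?_ ?_ h4
      · have a1 := (hp.1.2.2.2 (k - 1)).2
        have a2 := (hp.2 (k - 1)).2
        simp only [sub_add_cancel] at a1 a2
        exact ⟨a1, a2⟩
      · have a1 := (hp'.1.2.2.2 (k - 1)).2
        have a2 := (hp'.2 (k - 1)).2
        simp only [sub_add_cancel] at a1 a2
        exact ⟨a1, a2⟩
    rw [hx]

theorem card_bad_v {V : Type*} [Fintype V] {G : SimpleGraph V} {ρ : V → ℕ} {d q : ℕ} (hq : 2 ≤ q)
    (h : OutLe G ρ d) (R : Set V) :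
    {p : (ZMod q → V) × (ZMod q → V) | APair G ρ p.1 p.2 ∧ ∃ i, p.2 i ∈ R}.ncard ≤
      q * (d ^ q * (Fintype.card V) ^ (q - 1) * R.ncard) := by
  classical
  have : NeZero q := ⟨by omega⟩
  have h1 : {p : (ZMod q → V) × (ZMod q → V) | APair G ρ p.1 p.2 ∧ ∃ i, p.2 i ∈ R} =
      ⋃ i ∈ (Finset.univ : Finset (ZMod q)),
        {p : (ZMod q → V) × (ZMod q → V) | APair G ρ p.1 p.2 ∧ p.2 i ∈ R} := by
    ext p
    simp only [Set.mem_ofPred_eq, Finset.mem_univ, Set.iUnion_true, Set.mem_iUnion]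
    constructor
    · rintro ⟨a, i, b⟩; exact ⟨i, a, b⟩
    · rintro ⟨i, a, b⟩; exact ⟨a, i, b⟩
  rw [h1]
  refine le_trans (Finset.set_ncard_biUnion_le _ _) ?_
  refine le_trans (Finset.sum_le_sum fun i _ => one_index hq h R i) ?_
  rw [Finset.sum_const, Finset.card_univ, ZMod.card, smul_eq_mul]

end Pool.Agent.H3.LC
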