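import Pool.Agent.H3.LC.Base

/-!
# Few pairs with a vertex of small degree among the x i (module BadX, about 120 lines)

Proof: it is enough to bound for fixed `i0 : ZMod q` the number of `p = (x, v)` with `APair G ρ x v`
and `x i0 ∈ U` by `d ^ q * card V ^ (q - 1) * D` and to sum over `i0` (`ZMod.card`; union bound
`Set.ncard_iUnion_le` or Finset version `Finset.card_biUnion_le`). Labels: for every `v` the set of
out-neighbours has at most `d` elements, so choose `lab : V → V → ℕ` with `lab v` injective on the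
out-neighbours and with values `< d` there; for `u ∈ U` choose `nb u : V → ℕ`, injective on the
neighbours of `u`, with values `< D`. Code of `(x, v)`: the function `l ↦ lab (v l) (x (l + 1))`
(values in `Fin d`), the restriction of `v` to `{l // l ≠ i0}`, and `nb (x i0) (v i0)` in `Fin D`.
Injective: `x i0` is the out-neighbour of `v (i0 - 1)` with the given label, and `i0 - 1 ≠ i0` because
`2 ≤ q`; then `v i0` is determined as a neighbour of `x i0`; then all `x (l + 1)` from `v l`. The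
number of codes is `d ^ q * card V ^ (q - 1) * D`.
-/

namespace Pool.Agent.H3.LC

open SimpleGraph

private lemma bx_lab {V : Type*} [Finite V] (S : Set V) (d : ℕ) (h : S.ncard ≤ d) :
    ∃ g : V → ℕ, Set.InjOn g S ∧ ∀ v ∈ S, g v < d := by
  classical
  have hf : S.Finite := Set.toFinite S
  have : Fintype S := hf.fintype
  let e : S ≃ Fin (Fintype.card S) := Fintype.equivFin S
  have hc : Fintype.card S = S.ncard := by
    rw [← Nat.card_eq_fintype_card, Nat.card_coe_set_eq]
  refine ⟨fun v => if hv : v ∈ S then (e ⟨v, hv⟩ : ℕ) else 0, ?_, ?_⟩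
  · intro a ha b hb hab
    simp only [dif_pos ha, dif_pos hb] at hab
    have := e.injective (Fin.ext hab)
    exact congrArg Subtype.val this
  · intro v hv
    simp only [dif_pos hv]
    have := (e ⟨v, hv⟩).2
    omega

private lemma bx_one {V : Type*} [Fintype V] {G : SimpleGraph V} {ρ : V → ℕ} {d q : ℕ}
    (hq : 2 ≤ q) (h : OutLe G ρ d) (U : Set V) (D : ℕ)
    (hD : ∀ u ∈ U, {w | G.Adj u w}.ncard ≤ D) (i0 : ZMod q) :
    {p : (ZMod q → V) × (ZMod q → V) | APair G ρ p.1 p.2 ∧ p.1 i0 ∈ U}.ncard ≤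
      d ^ q * (Fintype.card V) ^ (q - 1) * D := by
  classical
  have : NeZero q := ⟨by omega⟩
  have : Fact (1 < q) := ⟨by omega⟩
  have hout : ∀ v, {u | G.Adj v u ∧ ρ v < ρ u}.ncard ≤ d := by
    intro v
    have h1 := h.2 v
    rw [← (Set.toFinite {u | G.Adj v u ∧ ρ v < ρ u}).cast_ncard_eq] at h1
    exact_mod_cast h1
  choose lab hlab1 hlab2 using fun v => bx_lab {u | G.Adj v u ∧ ρ v < ρ u} d (hout v)
  have hnb : ∀ u, ∃ g : V → ℕ, u ∈ U → (Set.InjOn g {w | G.Adj u w} ∧
      ∀ w ∈ {w | G.Adj u w}, g w < D) := by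
    intro u
    by_cases hu : u ∈ U
    · obtain ⟨g, hg⟩ := bx_lab {w | G.Adj u w} D (hD u hu)
      exact ⟨g, fun _ => hg⟩
    · exact ⟨fun _ => 0, fun h => absurd h hu⟩
  choose nb hnb using hnb
  set T : Finset ((ZMod q → ℕ) × (({l : ZMod q // l ≠ i0} → V) × ℕ)) :=
    (Fintype.piFinset fun _ : ZMod q => Finset.range d) ×ˢ
      ((Finset.univ : Finset ({l : ZMod q // l ≠ i0} → V)) ×ˢ Finset.range D) with hT
  have hcard : T.card = d ^ q * (Fintype.card V) ^ (q - 1) * D := by
    rw [hT, Finset.card_product, Finset.card_product, Fintype.card_piFinset, Finset.card_univ,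
      Fintype.card_fun, Finset.card_range]
    simp only [Finset.card_range, Finset.prod_const, Finset.card_univ, ZMod.card]
    rw [Fintype.card_subtype_compl, ZMod.card, Fintype.card_subtype_eq, mul_assoc]
  rw [← hcard, ← Set.ncard_coe_finset]
  refine Set.ncard_le_ncard_of_injOn
    (fun p => ((fun l => lab (p.2 l) (p.1 (l + 1))),
      ((fun l : {l : ZMod q // l ≠ i0} => p.2 l.1), nb (p.1 i0) (p.2 i0)))) ?_ ?_
      (Finset.finite_toSet T)
  · rintro p ⟨hp, hU⟩
    simp only [hT, Finset.coe_product, Set.mem_prod, Finset.mem_coe, Fintype.mem_piFinset,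
      Finset.mem_range, Finset.mem_univ, true_and]
    refine ⟨fun l => hlab2 _ _ ⟨(hp.1.2.2.2 l).2, (hp.2 l).2⟩, (hnb _ hU).2 _ ?_⟩
    exact (hp.1.2.2.2 i0).1.symm
  · rintro p ⟨hp, hU⟩ p' ⟨hp', hU'⟩ heq
    simp only [Prod.mk.injEq] at heq
    obtain ⟨h1, h2, h3⟩ := heq
    have h2' : ∀ l, l ≠ i0 → p.2 l = p'.2 l := fun l hl => congrFun h2 ⟨l, hl⟩
    have hstep : ∀ l, p.2 l = p'.2 l → p.1 (l + 1) = p'.1 (l + 1) := by
      intro l hl
      have h4 := congrFun h1 l
      rw [← hl] at h4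
      refine hlab1 (p.2 l) ⟨(hp.1.2.2.2 l).2, (hp.2 l).2⟩ ?_ h4
      rw [hl]
      exact ⟨(hp'.1.2.2.2 l).2, (hp'.2 l).2⟩
    have hne : i0 - 1 ≠ i0 := by
      intro h5
      have h6 : (1 : ZMod q) = 0 := by
        have h7 : i0 - (i0 - 1) = i0 - i0 := by rw [h5]
        simp at h7
      exact one_ne_zero h6
    have hx0 : p.1 i0 = p'.1 i0 := by
      have := hstep (i0 - 1) (h2' _ hne)
      rwa [sub_add_cancel] at this
    have hv0 : p.2 i0 = p'.2 i0 := by
      rw [← hx0] at h3
      refine (hnb _ hU).1 ?_ ?_ h3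
      · exact (hp.1.2.2.2 i0).1.symm
      · rw [hx0]
        exact (hp'.1.2.2.2 i0).1.symm
    have hv : ∀ l, p.2 l = p'.2 l := by
      intro l
      by_cases hl : l = i0
      · rw [hl]
        exact hv0
      · exact h2' l hl
    refine Prod.ext ?_ (funext hv)
    funext l
    have := hstep (l - 1) (hv _)
    rwa [sub_add_cancel] at this

theorem card_bad_x {V : Type*} [Fintype V] {G : SimpleGraph V} {ρ : V → ℕ} {d q : ℕ} (hq : 2 ≤ q)
    (h : OutLe G ρ d) (U : Set V) (D : ℕ) (hD : ∀ u ∈ U, {w | G.Adj u w}.ncard ≤ D) :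
    {p : (ZMod q → V) × (ZMod q → V) | APair G ρ p.1 p.2 ∧ ∃ i, p.1 i ∈ U}.ncard ≤
      q * (d ^ q * (Fintype.card V) ^ (q - 1) * D) := by
  have : NeZero q := ⟨by omega⟩
  have heq : {p : (ZMod q → V) × (ZMod q → V) | APair G ρ p.1 p.2 ∧ ∃ i, p.1 i ∈ U} =
      ⋃ i : ZMod q, {p : (ZMod q → V) × (ZMod q → V) | APair G ρ p.1 p.2 ∧ p.1 i ∈ U} := by
    ext p
    simp only [Set.mem_ofPred_eq, Set.mem_iUnion, exists_and_left]
  rw [heq]
  refine (Set.ncard_iUnion_le_of_fintype _).trans ?_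
  refine (Finset.sum_le_sum fun i _ => bx_one hq h U D hD i).trans ?_
  rw [Finset.sum_const, Finset.card_univ, ZMod.card, smul_eq_mul]

end Pool.Agent.H3.LC
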