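import Pool.Agent.H3.LC.Defs

/-!
# Working definitions for MP_d7aaae_co

Cyclic sequences `f : ZMod m → V`; pairs `(x, v)` of sequences `ZMod q → V` for the cycle
`x 0, v 0, x 1, v 1, ..., x (q-1), v (q-1)` of length `2 q`; sources of a cyclic sequence with
respect to a ranking.
-/

namespace Pool.Agent.H3.LC

open Finset

variable {V : Type*}

/-- `f` is a closed sequence of distinct vertices, consecutive ones being adjacent in `G`. -/
def IsCyc (G : SimpleGraph V) {m : ℕ} (f : ZMod m → V) : Prop :=
  Function.Injective f ∧ ∀ i, G.Adj (f i) (f (i + 1))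

/-- The set of edges of a closed sequence. -/
def cedges {m : ℕ} (f : ZMod m → V) : Set (Sym2 V) := {e | ∃ i, e = s(f i, f (i + 1))}

/-- `x 0, v 0, x 1, v 1, ...` is a closed sequence of distinct vertices (length `2 q`), consecutive
ones being adjacent: `v i` is adjacent to `x i` and `x (i + 1)`. -/
def IsPair (G : SimpleGraph V) {q : ℕ} (x v : ZMod q → V) : Prop :=
  Function.Injective x ∧ Function.Injective v ∧ (∀ i k, x i ≠ v k) ∧
    ∀ i, G.Adj (v i) (x i) ∧ G.Adj (v i) (x (i + 1))

/-- The edges of the closed sequence `x 0, v 0, x 1, v 1, ...`. -/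
def pedges {q : ℕ} (x v : ZMod q → V) : Set (Sym2 V) :=
  {e | ∃ i, e = s(v i, x i) ∨ e = s(v i, x (i + 1))}

/-- The sources of `f`: the positions where the rank is smaller than at both neighbours. -/
def srcs (ρ : V → ℕ) {m : ℕ} [NeZero m] (f : ZMod m → V) : Finset (ZMod m) :=
  univ.filter fun i => ρ (f i) < ρ (f (i - 1)) ∧ ρ (f i) < ρ (f (i + 1))

/-- Every vertex has at most `d` neighbours of larger rank. -/
def OutLe (G : SimpleGraph V) (ρ : V → ℕ) (d : ℕ) : Prop :=
  Function.Injective ρ ∧ ∀ v, {u | G.Adj v u ∧ ρ v < ρ u}.encard ≤ d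

/-- A pair all of whose `v i` are sources. -/
def APair (G : SimpleGraph V) (ρ : V → ℕ) {q : ℕ} (x v : ZMod q → V) : Prop :=
  IsPair G x v ∧ ∀ i, ρ (v i) < ρ (x i) ∧ ρ (v i) < ρ (x (i + 1))

/-- The hubs adjacent to `v` (the hubs are `e 0, ..., e (s - 1)`). -/
noncomputable def typ (G : SimpleGraph V) {s : ℕ} (e : Fin s → V) (v : V) : Finset (Fin s) := by
  classical exact univ.filter fun a => G.Adj v (e a)

/-- The types which occur at least `s` times outside the hubs. -/
noncomputable def thick (G : SimpleGraph V) {s : ℕ} (e : Fin s → V) : Finset (Finset (Fin s)) := by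
  classical exact univ.filter fun T => s ≤ {v | v ∉ Set.range e ∧ typ G e v = T}.ncard

/-- The pairs `(x, v)` with all `x i` hubs and all `v i` of thick type and no hubs. -/
def goodPairs (G : SimpleGraph V) {s : ℕ} (e : Fin s → V) (q : ℕ) :
    Set ((ZMod q → V) × (ZMod q → V)) :=
  {p | IsPair G p.1 p.2 ∧ (∀ i, p.1 i ∈ Set.range e) ∧
    ∀ i, p.2 i ∉ Set.range e ∧ typ G e (p.2 i) ∈ thick G e}

/-- The bipartite graph between the hubs `Fin s` and classes of sizes `a T`, `T ∈ 𝒯`: the
vertices of the class of `T` are adjacent to the hubs in `T`. -/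
def lowG {s : ℕ} (𝒯 : Finset (Finset (Fin s))) (a : Finset (Fin s) → ℕ) :
    SimpleGraph (Fin s ⊕ (Σ T : {T // T ∈ 𝒯}, Fin (a T.1))) where
  Adj p q := match p, q with
    | Sum.inl x, Sum.inr t => x ∈ t.1.1
    | Sum.inr t, Sum.inl x => x ∈ t.1.1
    | _, _ => False
  symm := by
    constructor
    rintro (x | t) (y | u) h
    · exact h
    · exact h
    · exact h
    · exact h
  loopless := by
    constructor
    rintro (x | t) h
    · exact h
    · exact h

end Pool.Agent.H3.LC
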