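import Pool.Agent.H3.LC.AdmNat

/-!
# The members of a longest closed chain (module Chain, about 60 lines)

`chain_subset` is `insert_chain`. `chain_eq_pair`: a member `x` of `T i` is `f k` by `chain_subset`;
write `k = i + 1 + r` with `r = (k - i - 1).val < j`; `r = 0` gives `x = f (i + 1)`, `r = j - 1` gives
`k = i`; otherwise `1 ≤ r`, `r + 2 ≤ j`, `sub_chain` and the hypothesis `hdag` with `a = r`,
`b = j - 1 - r` give a contradiction (`2 * (b + 1) = 2 * (j - r)`, `2 * (b + 2) = 2 * (j - r + 1)`).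
-/

namespace Pool.Agent.H3.LC

theorem chain_subset {L : Finset ℕ} {s : ℕ} {𝒯 : Finset (Finset (Fin s))} (hA : Admissible L 𝒯)
    {j : ℕ} (hj : 2 ≤ j) (hL : 2 * (j + 1) ∉ L) {f : ZMod j → Fin s} (hf : Function.Injective f)
    {T : ZMod j → Finset (Fin s)} (hT : ∀ i, T i ∈ 𝒯 ∧ f i ∈ T i ∧ f (i + 1) ∈ T i)
    (i : ZMod j) {x : Fin s} (hx : x ∈ T i) : ∃ k, f k = x := by
  by_contra hn
  push Not at hn
  exact hL (insert_chain hA hj hf hT i hx hn)

theorem chain_eq_pair {L : Finset ℕ} {s : ℕ} {𝒯 : Finset (Finset (Fin s))} (hA : Admissible L 𝒯)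
    {j : ℕ} (hj : 4 ≤ j) (hL : 2 * (j + 1) ∉ L)
    (hdag : ∀ a b : ℕ, 1 ≤ a → 1 ≤ b → a + b + 1 = j →
      ¬ (6 ∈ L ∧ 2 * (a + 1) ∈ L ∧ 2 * (a + 2) ∈ L ∧ 2 * (b + 1) ∈ L ∧ 2 * (b + 2) ∈ L))
    {f : ZMod j → Fin s} (hf : Function.Injective f)
    {T : ZMod j → Finset (Fin s)} (hT : ∀ i, T i ∈ 𝒯 ∧ f i ∈ T i ∧ f (i + 1) ∈ T i)
    (i : ZMod j) : T i = {f i, f (i + 1)} := by
  haveI : NeZero j := ⟨by omega⟩
  ext x
  simp only [Finset.mem_insert, Finset.mem_singleton]
  constructor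
  · intro hx
    obtain ⟨k, hk⟩ := chain_subset hA (by omega) hL hf hT i hx
    set r := (k - i - 1).val with hr
    have hrj : r < j := ZMod.val_lt _
    have hrc : ((r : ℕ) : ZMod j) = k - i - 1 := by rw [hr]; exact ZMod.natCast_zmod_val _
    have hke : k = i + 1 + (r : ZMod j) := by rw [hrc]; ring
    by_cases h0 : r = 0
    · right
      rw [h0] at hke
      rw [← hk, hke]
      simp
    · by_cases h1 : r + 1 = j
      · left
        have hz : ((r + 1 : ℕ) : ZMod j) = 0 := by rw [h1]; exact ZMod.natCast_self j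
        have : k = i := by
          rw [hke]
          have h2 : i + 1 + (r : ZMod j) = i + ((r + 1 : ℕ) : ZMod j) := by push_cast; ring
          rw [h2, hz, add_zero]
        rw [← hk, this]
      · exfalso
        have hr1 : 1 ≤ r := by omega
        have hr2 : r + 2 ≤ j := by omega
        have hxr : f (i + 1 + (r : ZMod j)) ∈ T i := by rw [← hke, hk]; exact hx
        obtain ⟨a1, a2, a3, a4, a5⟩ := sub_chain hA hf hT i r hr1 hr2 hxr
        refine hdag r (j - 1 - r) hr1 (by omega) (by omega) ⟨a1, a2, a3, ?_, ?_⟩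
        · have : j - 1 - r + 1 = j - r := by omega
          rw [this]; exact a4
        · have : j - 1 - r + 2 = j - r + 1 := by omega
          rw [this]; exact a5
  · rintro (h | h)
    · rw [h]; exact (hT i).2.1
    · rw [h]; exact (hT i).2.2

end Pool.Agent.H3.LC
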