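import Pool.Agent.H3.LC.Base

/-!
# From a cyclic walk to a cyclic sequence (module CycA, about 90 lines)

Proof: put `f i = p.getVert i.val`. Since `3 ≤ p.length` (`IsCycle.three_le_length`), `ZMod p.length`
is `Fin` of a positive number (`NeZero` instance), `ZMod.val_lt`. Injective: `IsCycle.getVert_injOn'`
(injectivity of `getVert` on `{i | i ≤ p.length - 1}`) and `ZMod.val_injective`. Adjacency: if
`i.val + 1 < p.length` then `(i + 1).val = i.val + 1` (`ZMod.val_add_one_of_lt`) and
`Walk.adj_getVert_succ`; if `i.val + 1 = p.length` then `i + 1 = 0` and `getVert p.length = getVert 0 = u`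
(`Walk.getVert_length`, `Walk.getVert_zero`). Edges: `e ∈ p.edges ↔ ∃ i < p.length,
e = s(p.getVert i, p.getVert (i + 1))` (there is a lemma of the kind `Walk.edges_eq...` or
`Walk.mem_edges_iff...`; otherwise induction on `p` through `darts`), and the same case distinction.
-/

namespace Pool.Agent.H3.LC

open SimpleGraph

private theorem mem_edges_getVert {V : Type*} {G : SimpleGraph V} {u v : V} (p : G.Walk u v)
    (e : Sym2 V) : e ∈ p.edges ↔ ∃ i < p.length, e = s(p.getVert i, p.getVert (i + 1)) := by
  induction p with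
  | nil => simp
  | cons h q ih =>
    rw [Walk.edges_cons, List.mem_cons, ih]
    constructor
    · rintro (rfl | ⟨i, hi, rfl⟩)
      · exact ⟨0, by simp, by simp⟩
      · exact ⟨i + 1, by simpa using hi, by simp⟩
    · rintro ⟨i, hi, rfl⟩
      rcases i with _ | i
      · left; simp
      · right; exact ⟨i, by simpa using hi, by simp⟩

theorem exists_cyc {V : Type*} {G : SimpleGraph V} {u : V} (p : G.Walk u u) (hp : p.IsCycle) :
    ∃ f : ZMod p.length → V, IsCyc G f ∧ cedges f = {e | e ∈ p.edges} := by
  have h3 := hp.three_le_length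
  have : NeZero p.length := ⟨by omega⟩
  have hsucc : ∀ i : ZMod p.length, p.getVert (i + 1).val = p.getVert (i.val + 1) := by
    intro i
    rcases Nat.lt_or_ge (i.val + 1) p.length with h | h
    · have h5 : (i + 1).val = i.val + 1 := by
        have h6 : i + 1 = ((i.val + 1 : ℕ) : ZMod p.length) := by
          rw [Nat.cast_add, ZMod.natCast_zmod_val, Nat.cast_one]
        rw [h6, ZMod.val_cast_of_lt h]
      rw [h5]
    · have h1 : i.val < p.length := ZMod.val_lt i
      have h2 : i.val + 1 = p.length := by omega
      have h4 : i + 1 = 0 := by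
        have : ((i.val + 1 : ℕ) : ZMod p.length) = 0 := by
          rw [h2]; exact ZMod.natCast_self _
        rwa [Nat.cast_add, ZMod.natCast_zmod_val, Nat.cast_one] at this
      rw [h4, h2, ZMod.val_zero, Walk.getVert_zero, Walk.getVert_length]
  refine ⟨fun i => p.getVert i.val, ⟨?_, ?_⟩, ?_⟩
  · intro i j hij
    apply ZMod.val_injective
    refine hp.getVert_injOn' ?_ ?_ hij
    · have := ZMod.val_lt i
      simp only [Set.mem_ofPred_eq]; omega
    · have := ZMod.val_lt j
      simp only [Set.mem_ofPred_eq]; omega
  · intro i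
    simp only
    rw [hsucc]
    exact p.adj_getVert_succ (ZMod.val_lt i)
  · ext e
    simp only [cedges, Set.mem_ofPred_eq]
    rw [mem_edges_getVert]
    constructor
    · rintro ⟨i, rfl⟩
      exact ⟨i.val, ZMod.val_lt i, by rw [hsucc]⟩
    · rintro ⟨i, hi, rfl⟩
      refine ⟨(i : ZMod p.length), ?_⟩
      rw [hsucc, ZMod.val_cast_of_lt hi]

end Pool.Agent.H3.LC
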