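import Pool.Agent.H3.LC.Base

/-!
# From a cyclic sequence to a cyclic walk (module CycB, about 110 lines)

Proof: by induction on `t` there is for every `t < m` a walk `w t : G.Walk (f 0) (f t)` which is a
path, has length `t`, support the list of `f 0, ..., f t` and edges the `s(f i, f (i + 1))`, `i < t`
(extend by `Walk.concat`; `IsPath` because `f` is injective; it is enough to carry the statements
`length = t`, `∀ z, z ∈ support ↔ ∃ i ≤ t, z = f i`, `∀ e, e ∈ edges ↔ ∃ i < t, e = s(f i, f (i+1))`,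
casts of naturals `i ≤ t < m` into `ZMod m` being injective: `ZMod.val_natCast_of_lt` or
`Nat.cast` with `ZMod.natCast_eq_natCast_iff'`). Then `p = cons (f (m-1) ~ f 0) (w (m-1))` is a cycle
by `cons_isCycle_iff`: the edge `s(f (m-1), f 0)` is not in `w (m-1)` since `s(f (m-1), f 0) =
s(f i, f (i+1))` with `i + 1 ≤ m - 1` gives `i = m - 1` or (`f i = f 0` and `f (i+1) = f (m-1)`, so
`i = 0` and `m = 2`). Alternatively map `cycleGraph.cycle` (Mathlib, `cycleGraph.isCycle_cycle`)
along `f`.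
-/

namespace Pool.Agent.H3.LC

open SimpleGraph

private theorem cast_inj_lt {m i j : ℕ} (hi : i < m) (hj : j < m)
    (h : ((i : ℕ) : ZMod m) = ((j : ℕ) : ZMod m)) : i = j := by
  rw [ZMod.natCast_eq_natCast_iff', Nat.mod_eq_of_lt hi, Nat.mod_eq_of_lt hj] at h
  exact h

private theorem exists_walk_aux {V : Type*} {G : SimpleGraph V} {m : ℕ} (hm : 3 ≤ m)
    (f : ZMod m → V) (hf : IsCyc G f) (t : ℕ) (ht : t < m) :
    ∃ w : G.Walk (f ((0 : ℕ) : ZMod m)) (f ((t : ℕ) : ZMod m)), w.IsPath ∧ w.length = t ∧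
      (∀ z, z ∈ w.support ↔ ∃ i ≤ t, z = f ((i : ℕ) : ZMod m)) ∧
      ∀ e, e ∈ w.edges ↔ ∃ i < t, e = s(f ((i : ℕ) : ZMod m), f ((i : ℕ) + 1)) := by
  induction t with
  | zero =>
    refine ⟨Walk.nil, Walk.IsPath.nil, rfl, fun z => ?_, fun e => ?_⟩
    · simp only [Walk.support_nil, List.mem_singleton]
      constructor
      · intro h
        exact ⟨0, le_rfl, h⟩
      · rintro ⟨i, hi, h⟩
        rw [Nat.le_zero] at hi
        rw [h, hi]
    · simp
  | succ t ih =>
    obtain ⟨w, h1, h2, h3, h4⟩ := ih (by omega)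
    have e1 : ((t + 1 : ℕ) : ZMod m) = ((t : ℕ) : ZMod m) + 1 := by push_cast; rfl
    have hn : f (((t : ℕ) : ZMod m) + 1) ∉ w.support := by
      rw [h3]
      rintro ⟨i, hi, h⟩
      rw [← e1] at h
      have := cast_inj_lt (by omega) (by omega) (hf.1 h)
      omega
    have main : ∃ w : G.Walk (f ((0 : ℕ) : ZMod m)) (f (((t : ℕ) : ZMod m) + 1)), w.IsPath ∧
        w.length = t + 1 ∧ (∀ z, z ∈ w.support ↔ ∃ i ≤ t + 1, z = f ((i : ℕ) : ZMod m)) ∧
        ∀ e, e ∈ w.edges ↔ ∃ i < t + 1, e = s(f ((i : ℕ) : ZMod m), f ((i : ℕ) + 1)) := by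
      refine ⟨w.concat (hf.2 _), h1.concat hn _, by rw [Walk.length_concat, h2], fun z => ?_,
        fun e => ?_⟩
      · rw [Walk.support_concat, List.mem_append, List.mem_singleton, h3]
        constructor
        · rintro (⟨i, hi, h⟩ | h)
          · exact ⟨i, by omega, h⟩
          · exact ⟨t + 1, le_rfl, by rw [h, e1]⟩
        · rintro ⟨i, hi, h⟩
          rcases Nat.lt_or_ge i (t + 1) with h5 | h5
          · exact Or.inl ⟨i, by omega, h⟩
          · have h6 : i = t + 1 := by omega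
            right
            rw [h, h6, e1]
      · rw [Walk.edges_concat, List.concat_eq_append, List.mem_append, List.mem_singleton, h4]
        constructor
        · rintro (⟨i, hi, h⟩ | h)
          · exact ⟨i, by omega, h⟩
          · exact ⟨t, by omega, h⟩
        · rintro ⟨i, hi, h⟩
          rcases Nat.lt_or_ge i t with h5 | h5
          · exact Or.inl ⟨i, h5, h⟩
          · have h6 : i = t := by omega
            right
            rw [h, h6]
    rw [e1]
    exact main

theorem exists_walk {V : Type*} {G : SimpleGraph V} {m : ℕ} (hm : 3 ≤ m) (f : ZMod m → V)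
    (hf : IsCyc G f) :
    ∃ (u : V) (p : G.Walk u u), p.IsCycle ∧ p.length = m ∧ {e | e ∈ p.edges} = cedges f := by
  haveI : NeZero m := ⟨by omega⟩
  have key := exists_walk_aux hm f hf
  obtain ⟨w, hw1, hw2, _, hw4⟩ := key (m - 1) (by omega)
  have hc0 : (((m - 1 : ℕ) : ZMod m)) + 1 = ((0 : ℕ) : ZMod m) := by
    have h1 : ((m - 1 : ℕ) : ZMod m) + 1 = ((m - 1 + 1 : ℕ) : ZMod m) := by push_cast; rfl
    rw [h1, Nat.sub_add_cancel (by omega), ZMod.natCast_self, Nat.cast_zero]
  have hadj : G.Adj (f ((m - 1 : ℕ) : ZMod m)) (f ((0 : ℕ) : ZMod m)) := by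
    have h := hf.2 ((m - 1 : ℕ) : ZMod m)
    rwa [hc0] at h
  refine ⟨_, Walk.cons hadj w, ?_, ?_, ?_⟩
  · rw [Walk.cons_isCycle_iff]
    refine ⟨hw1, fun he => ?_⟩
    rw [hw4] at he
    obtain ⟨i, hi, he⟩ := he
    have hi1 : ((i : ℕ) : ZMod m) + 1 = ((i + 1 : ℕ) : ZMod m) := by push_cast; rfl
    rw [hi1, Sym2.eq_iff] at he
    rcases he with ⟨h1, _⟩ | ⟨h1, h2⟩
    · have h3 := cast_inj_lt (by omega) (by omega) (hf.1 h1)
      omega
    · have h3 := cast_inj_lt (by omega) (by omega) (hf.1 h1)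
      have h4 := cast_inj_lt (by omega) (by omega) (hf.1 h2)
      omega
  · rw [Walk.length_cons, hw2]
    omega
  · ext e
    simp only [Set.mem_setOf_eq, Walk.edges_cons, List.mem_cons, hw4, cedges]
    constructor
    · rintro (h | ⟨i, _, h⟩)
      · exact ⟨((m - 1 : ℕ) : ZMod m), by rw [h, hc0]⟩
      · exact ⟨(i : ZMod m), h⟩
    · rintro ⟨i, h⟩
      have hv : ((i.val : ℕ) : ZMod m) = i := ZMod.natCast_zmod_val i
      have hlt : i.val < m := ZMod.val_lt i
      by_cases h1 : i.val < m - 1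
      · exact Or.inr ⟨i.val, h1, by rw [hv]; exact h⟩
      · left
        have h2 : i.val = m - 1 := by omega
        rw [h2] at hv
        rw [hv, h, ← hc0, hv]

end Pool.Agent.H3.LC
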