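import Mathlib

/-!
# Definitions for MP_d7aaae_co (cycles with lengths in L)

`IsLCycleGraph L G`: every cycle of `G` has its length in `L`; `cycles G`: the cycles of `G`
(as sets of edges); `cMax L n`: the maximum number of cycles of an `L`-cycle graph on `n` vertices.
`gam L j`: the supremum of the weighted numbers of closed `j`-chains in admissible hypergraphs.
-/

namespace Pool.Agent.H3.LC

open Finset

/-- Every cycle of `G` has its length in `L`. -/
def IsLCycleGraph {V : Type*} (L : Finset ℕ) (G : SimpleGraph V) : Prop :=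
  ∀ (u : V) (p : G.Walk u u), p.IsCycle → p.length ∈ L

/-- The cycles of `G`, each one given by its set of edges. -/
def cycles {V : Type*} (G : SimpleGraph V) : Set (Set (Sym2 V)) :=
  {E | ∃ (u : V) (p : G.Walk u u), p.IsCycle ∧ E = {e | e ∈ p.edges}}

/-- `c(L, n)`: the maximum number of cycles of an `L`-cycle graph with `n` vertices. -/
noncomputable def cMax (L : Finset ℕ) (n : ℕ) : ℕ :=
  sSup {N | ∃ G : SimpleGraph (Fin n), IsLCycleGraph L G ∧ (cycles G).ncard = N}

/-- `𝒯` is a family of subsets of `Fin s` such that `2 m ∈ L` whenever there are `m ≥ 2` distinct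
points `f 0, ..., f (m - 1)`, any two cyclically consecutive ones in a common member of `𝒯`. -/
def Admissible (L : Finset ℕ) {s : ℕ} (𝒯 : Finset (Finset (Fin s))) : Prop :=
  ∀ m : ℕ, 2 ≤ m → ∀ f : ZMod m → Fin s, Function.Injective f →
    (∀ i, ∃ T ∈ 𝒯, f i ∈ T ∧ f (i + 1) ∈ T) → 2 * m ∈ L

/-- The total weight of the members of `𝒯` which contain `x` and `y`. -/
noncomputable def pw {s : ℕ} (𝒯 : Finset (Finset (Fin s))) (w : Finset (Fin s) → ℝ)
    (x y : Fin s) : ℝ :=
  ∑ T ∈ 𝒯 with x ∈ T ∧ y ∈ T, w T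

/-- The sum, over all closed sequences `f` of `j` distinct points, of the products of the weights
`pw (f i) (f (i + 1))`, divided by `2 j` (the number of sequences giving the same closed chain);
`finRotate j` is the cyclic successor. -/
noncomputable def val (j : ℕ) {s : ℕ} (𝒯 : Finset (Finset (Fin s))) (w : Finset (Fin s) → ℝ) : ℝ :=
  (∑ f : Fin j ↪ Fin s, ∏ i : Fin j, pw 𝒯 w (f i) (f (finRotate j i))) / (2 * j)

/-- The supremum of the weighted numbers of closed `j`-chains of the admissible families with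
total weight at most `1`. -/
noncomputable def gam (L : Finset ℕ) (j : ℕ) : ℝ :=
  sSup {r | ∃ (s : ℕ) (𝒯 : Finset (Finset (Fin s))) (w : Finset (Fin s) → ℝ),
    Admissible L 𝒯 ∧ (∀ T, 0 ≤ w T) ∧ ∑ T ∈ 𝒯, w T ≤ 1 ∧ r = val j 𝒯 w}

end Pool.Agent.H3.LC
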