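import Pool.Agent.H3.LC.Base

/-!
# Few vertices of large degree (module DegSum, about 80 lines)

Proof: the number of ordered pairs `(u, w)` with `G.Adj u w` is at most `2 d card V`: those with
`ρ u < ρ w` are at most `d card V` (sum over `u`), those with `ρ w < ρ u` as well (swap), and
`ρ u ≠ ρ w` for `u ≠ w`. On the other hand it is `∑ u, deg u ≥ t * #{u | t ≤ deg u}`.
-/

namespace Pool.Agent.H3.LC

open SimpleGraph

theorem card_big_deg {V : Type*} [Fintype V] {G : SimpleGraph V} {ρ : V → ℕ} {d : ℕ}
    (h : OutLe G ρ d) (t : ℕ) :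
    {v | t ≤ {u | G.Adj v u}.ncard}.ncard * t ≤ 2 * (d * Fintype.card V) := by
  classical
  have hout : ∀ v, (Finset.univ.filter fun u => G.Adj v u ∧ ρ v < ρ u).card ≤ d := by
    intro v
    have h1 := h.2 v
    have h2 : {u | G.Adj v u ∧ ρ v < ρ u}
        = ((Finset.univ.filter fun u => G.Adj v u ∧ ρ v < ρ u : Finset V) : Set V) := by
      ext u; simp
    rw [h2, Set.encard_coe_eq_coe_finsetCard] at h1
    exact_mod_cast h1
  have hdeg : ∀ v, {u | G.Adj v u}.ncard
      = (Finset.univ.filter fun u => G.Adj v u ∧ ρ v < ρ u).card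
        + (Finset.univ.filter fun u => G.Adj v u ∧ ρ u < ρ v).card := by
    intro v
    have h2 : {u | G.Adj v u} = ((Finset.univ.filter fun u => G.Adj v u : Finset V) : Set V) := by
      ext u; simp
    rw [h2, Set.ncard_coe_finset, ← Finset.card_union_of_disjoint]
    · congr 1
      ext u
      simp only [Finset.mem_filter, Finset.mem_univ, true_and, Finset.mem_union]
      constructor
      · intro hu
        have hne : ρ v ≠ ρ u := fun e => hu.ne (h.1 e)
        rcases lt_or_gt_of_ne hne with h3 | h3
        · exact Or.inl ⟨hu, h3⟩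
        · exact Or.inr ⟨hu, h3⟩
      · rintro (hu | hu)
        · exact hu.1
        · exact hu.1
    · rw [Finset.disjoint_left]
      intro u hu hu2
      simp only [Finset.mem_filter, Finset.mem_univ, true_and] at hu hu2
      omega
  have hswap : ∑ v, (Finset.univ.filter fun u => G.Adj v u ∧ ρ u < ρ v).card
      = ∑ v, (Finset.univ.filter fun u => G.Adj v u ∧ ρ v < ρ u).card := by
    simp only [Finset.card_filter]
    rw [Finset.sum_comm]
    refine Finset.sum_congr rfl fun u _ => Finset.sum_congr rfl fun v _ => ?_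
    rw [G.adj_comm]
  have hsum : ∑ v, {u | G.Adj v u}.ncard ≤ 2 * (d * Fintype.card V) := by
    have h4 : ∑ v, (Finset.univ.filter fun u => G.Adj v u ∧ ρ v < ρ u).card
        ≤ d * Fintype.card V := by
      calc ∑ v, (Finset.univ.filter fun u => G.Adj v u ∧ ρ v < ρ u).card
          ≤ ∑ _v : V, d := Finset.sum_le_sum fun v _ => hout v
        _ = d * Fintype.card V := by simp [mul_comm]
    rw [Finset.sum_congr rfl fun v _ => hdeg v, Finset.sum_add_distrib, hswap]
    omega
  have hset : {v | t ≤ {u | G.Adj v u}.ncard}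
      = ((Finset.univ.filter fun v => t ≤ {u | G.Adj v u}.ncard : Finset V) : Set V) := by
    ext v; simp
  rw [hset, Set.ncard_coe_finset]
  calc (Finset.univ.filter fun v => t ≤ {u | G.Adj v u}.ncard).card * t
      = ∑ _v ∈ Finset.univ.filter fun v => t ≤ {u | G.Adj v u}.ncard, t := by
        rw [Finset.sum_const, smul_eq_mul]
    _ ≤ ∑ v ∈ Finset.univ.filter fun v => t ≤ {u | G.Adj v u}.ncard, {u | G.Adj v u}.ncard := by
        refine Finset.sum_le_sum fun v hv => ?_
        simpa using hv
    _ ≤ ∑ v, {u | G.Adj v u}.ncard :=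
        Finset.sum_le_sum_of_subset (Finset.subset_univ _)
    _ ≤ _ := hsum

end Pool.Agent.H3.LC
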