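import Pool.Agent.H3.LC.Defs

/-!
# The complete type (module EvA, about 50 lines)

`admissible_full`: a closed chain of `m` distinct points of `Fin j` has `m ≤ j`
(`Fintype.card_le_of_injective`, `ZMod.card`, `m ≥ 2`), use `h`.
`val_full`: `pw {univ} (fun _ => 1) x y = 1`, the number of embeddings `Fin j ↪ Fin j` is `j!`
(`Fintype.card_embedding_eq`, `Nat.descFactorial_self`) and `j! / (2 j) = (j - 1)! / 2`.
-/

namespace Pool.Agent.H3.LC

open Finset

theorem admissible_full {L : Finset ℕ} {j : ℕ} (h : ∀ i, 2 ≤ i → i ≤ j → 2 * i ∈ L) :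
    Admissible L ({univ} : Finset (Finset (Fin j))) := by
  intro m hm f hf _
  have : NeZero m := ⟨by omega⟩
  have := Fintype.card_le_of_injective f hf
  rw [ZMod.card, Fintype.card_fin] at this
  exact h m hm this

theorem val_full {j : ℕ} (hj : 1 ≤ j) :
    val j ({univ} : Finset (Finset (Fin j))) (fun _ => 1) = ((j - 1).factorial : ℝ) / 2 := by
  have hp : ∀ x y : Fin j, pw ({univ} : Finset (Finset (Fin j))) (fun _ => 1) x y = 1 := by
    intro x y
    unfold pw
    rw [Finset.filter_true_of_mem]
    · simp
    · intro T hT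
      rw [Finset.mem_singleton] at hT
      subst hT
      simp
  unfold val
  simp only [hp, Finset.prod_const_one, Finset.sum_const, Finset.card_univ,
    Fintype.card_embedding_eq, Fintype.card_fin, Nat.descFactorial_self, nsmul_eq_mul, mul_one]
  obtain ⟨k, rfl⟩ : ∃ k, j = k + 1 := ⟨j - 1, by omega⟩
  rw [Nat.factorial_succ]
  push_cast
  have : ((k : ℝ) + 1) ≠ 0 := by positivity
  field_simp
  try simp

end Pool.Agent.H3.LC
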