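import Pool.Agent.H3.LC.ValZ

/-!
# The thick cycle (module EvB, about 150 lines)

`cycFam j` is the set of the `j` pairs of consecutive points of the cyclically ordered set `Fin j`.

`admissible_cyc`: let `f : ZMod m → Fin j` be injective, `m ≥ 2`, with consecutive points in common
members. If `m = 2` then `2 * m = 4 ∈ L`. Let `m ≥ 3`. Work in `ZMod j` (`j = k + 1`, `Fin j = ZMod j`
by definition, `finRotate` is `· + 1`). Since `f i ≠ f (i + 1)` lie in a common pair,
`f (i + 1) = f i + 1` or `f (i + 1) = f i - 1`. If `f (i+1) = f i + 1` and `f (i+2) = f (i+1) - 1`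
then `f (i + 2) = f i`, impossible since `m ≥ 3` (`(2 : ZMod m) ≠ 0`); so the direction is constant
(induction along `ZMod m`), `f (t) = f 0 + ε t` for all natural `t`, with `ε = ±1`; `t = m` gives
`(m : ZMod j) = 0`, so `j ∣ m`, and `m ≤ j` by injectivity. Hence `m = j` and `2 * m = 2 * j ∈ L`.

`val_cyc`: by `val_eq` it suffices to give `2 j` different injective `f : ZMod j → Fin j` with all
`pw ... (f i) (f (i + 1)) ≥ 1 / j`: `f i = r + i` and `f i = r - i` for `r : ZMod j`; they are
different because `j ≥ 3` (`f 0 = r`, `f 1 - f 0 = ± 1`). All other terms of the sum are `≥ 0`.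
-/

namespace Pool.Agent.H3.LC

open Finset

/-- The pairs of cyclically consecutive points of `Fin j`. -/
def cycFam (j : ℕ) : Finset (Finset (Fin j)) := univ.image fun i => {i, finRotate j i}

private theorem mem_cycFam {k : ℕ} {T : Finset (Fin (k + 1))} (hT : T ∈ cycFam (k + 1)) :
    ∃ c : Fin (k + 1), T = {c, c + 1} := by
  unfold cycFam at hT
  rw [mem_image] at hT
  obtain ⟨c, -, rfl⟩ := hT
  exact ⟨c, by rw [finRotate_apply]⟩

private theorem pair_mem_cycFam {k : ℕ} (c : Fin (k + 1)) :
    ({c, c + 1} : Finset (Fin (k + 1))) ∈ cycFam (k + 1) := by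
  unfold cycFam
  rw [mem_image]
  exact ⟨c, mem_univ _, by rw [finRotate_apply]⟩

private theorem dir {m k : ℕ} (hm : 3 ≤ m) {f : ZMod m → ZMod (k + 1)}
    (hf : Function.Injective f)
    (h : ∀ i, f (i + 1) = f i + 1 ∨ f i = f (i + 1) + 1) :
    ((m : ℕ) : ZMod (k + 1)) = 0 := by
  have h2 : ∀ i : ZMod m, f (i + 1 + 1) ≠ f i := by
    intro i hi
    have h3 := hf hi
    have h4 : ((2 : ℕ) : ZMod m) = 0 := by
      have : i + (1 + 1) = i + 0 := by rw [← add_assoc, add_zero]; exact h3
      have h5 := add_left_cancel this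
      push_cast
      rw [← h5]
      norm_num
    rw [ZMod.natCast_eq_zero_iff] at h4
    have := Nat.le_of_dvd (by norm_num) h4
    omega
  rcases h 0 with h0 | h0
  · have hall : ∀ t : ℕ, f ((t : ZMod m) + 1) = f (t : ZMod m) + 1 := by
      intro t
      induction t with
      | zero => simpa using h0
      | succ t ih =>
          push_cast
          rcases h ((t : ZMod m) + 1) with h6 | h6
          · exact h6
          · exfalso
            rw [ih] at h6
            exact h2 t (add_right_cancel h6).symm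
    have hsum : ∀ t : ℕ, f (t : ZMod m) = f 0 + (t : ZMod (k + 1)) := by
      intro t
      induction t with
      | zero => simp
      | succ t ih =>
          push_cast
          rw [hall, ih, add_assoc]
    have h7 := hsum m
    rw [ZMod.natCast_self] at h7
    exact (left_eq_add.mp h7)
  · have hall : ∀ t : ℕ, f (t : ZMod m) = f ((t : ZMod m) + 1) + 1 := by
      intro t
      induction t with
      | zero => simpa using h0
      | succ t ih =>
          push_cast
          rcases h ((t : ZMod m) + 1) with h6 | h6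
          · exfalso
            rw [← ih] at h6
            exact h2 t h6
          · exact h6
    have hsum : ∀ t : ℕ, f 0 = f (t : ZMod m) + (t : ZMod (k + 1)) := by
      intro t
      induction t with
      | zero => simp
      | succ t ih =>
          push_cast
          rw [ih, hall t, add_assoc, add_comm (1 : ZMod (k + 1))]
    have h7 := hsum m
    rw [ZMod.natCast_self] at h7
    exact (left_eq_add.mp h7)

theorem admissible_cyc {L : Finset ℕ} {j : ℕ} (hj : 3 ≤ j) (h4 : 4 ∈ L) (h2 : 2 * j ∈ L) :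
    Admissible L (cycFam j) := by
  obtain ⟨k, rfl⟩ : ∃ k, j = k + 1 := ⟨j - 1, by omega⟩
  intro m hm f hf h
  rcases Nat.lt_or_ge m 3 with h3 | h3
  · have : m = 2 := by omega
    subst this
    exact h4
  · have : NeZero m := ⟨by omega⟩
    have hne : ∀ i : ZMod m, f i ≠ f (i + 1) := by
      intro i hi
      have h5 := hf hi
      have h6 : ((1 : ℕ) : ZMod m) = 0 := by
        push_cast
        exact (left_eq_add.mp h5)
      rw [ZMod.natCast_eq_zero_iff] at h6
      have := Nat.le_of_dvd (by norm_num) h6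
      omega
    have hstep : ∀ i : ZMod m, f (i + 1) = f i + 1 ∨ f i = f (i + 1) + 1 := by
      intro i
      obtain ⟨T, hT, h5, h6⟩ := h i
      obtain ⟨c, rfl⟩ := mem_cycFam hT
      simp only [mem_insert, mem_singleton] at h5 h6
      rcases h5 with h5 | h5 <;> rcases h6 with h6 | h6
      · exact absurd (h5.trans h6.symm) (hne i)
      · left; rw [h5, h6]
      · right; rw [h5, h6]
      · exact absurd (h5.trans h6.symm) (hne i)
    have hz : ((m : ℕ) : ZMod (k + 1)) = 0 := dir (f := f) h3 hf hstep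
    rw [ZMod.natCast_eq_zero_iff] at hz
    have hle : m ≤ k + 1 := by
      have := Fintype.card_le_of_injective f hf
      rwa [ZMod.card, Fintype.card_fin] at this
    have : m = k + 1 := le_antisymm hle (Nat.le_of_dvd (by omega) hz)
    rw [this]
    exact h2

private theorem pw_ge {k : ℕ} (x y : Fin (k + 1)) (h : y = x + 1 ∨ x = y + 1) :
    1 / (((k + 1 : ℕ) : ℝ)) ≤ pw (cycFam (k + 1)) (fun _ => 1 / ((k + 1 : ℕ) : ℝ)) x y := by
  unfold pw
  obtain ⟨c, hx, hy⟩ : ∃ c : Fin (k + 1), (x = c ∨ x = c + 1) ∧ (y = c ∨ y = c + 1) := by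
    rcases h with h | h
    · exact ⟨x, Or.inl rfl, Or.inr h⟩
    · exact ⟨y, Or.inr h, Or.inl rfl⟩
  have hmem : ({c, c + 1} : Finset (Fin (k + 1))) ∈
      (cycFam (k + 1)).filter fun T => x ∈ T ∧ y ∈ T := by
    rw [mem_filter]
    refine ⟨pair_mem_cycFam c, ?_, ?_⟩ <;> simpa only [mem_insert, mem_singleton]
  exact single_le_sum (f := fun _ : Finset (Fin (k + 1)) => 1 / ((k + 1 : ℕ) : ℝ))
    (fun _ _ => by positivity) hmem

private theorem pw_nonneg {k : ℕ} (x y : Fin (k + 1)) :
    0 ≤ pw (cycFam (k + 1)) (fun _ => 1 / ((k + 1 : ℕ) : ℝ)) x y :=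
  sum_nonneg fun _ _ => by positivity

private def rot (k : ℕ) (p : ZMod (k + 1) × Bool) :
    {f : ZMod (k + 1) → Fin (k + 1) // Function.Injective f} :=
  ⟨fun i => bif p.2 then (p.1 + i : ZMod (k + 1)) else (p.1 - i : ZMod (k + 1)), by
    intro a b hab
    cases h : p.2
    · simp only [h, cond_false] at hab
      exact sub_right_injective (b := p.1) hab
    · simp only [h, cond_true] at hab
      exact add_right_injective p.1 hab⟩

private theorem rot_inj {k : ℕ} (hk : 3 ≤ k + 1) : Function.Injective (rot k) := by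
  have h2 : ∀ r : ZMod (k + 1), r + 1 ≠ r - 1 := by
    intro r hr
    have h4 : ((2 : ℕ) : ZMod (k + 1)) = 0 := by
      have : r + 1 + 1 = r := by rw [hr]; ring
      have h5 : r + (1 + 1) = r + 0 := by rw [← add_assoc, add_zero]; exact this
      have h6 := add_left_cancel h5
      push_cast
      rw [← h6]
      norm_num
    rw [ZMod.natCast_eq_zero_iff] at h4
    have := Nat.le_of_dvd (by norm_num) h4
    omega
  rintro ⟨r, b⟩ ⟨r', b'⟩ h
  have h0 : (rot k (r, b)).1 0 = (rot k (r', b')).1 0 := by rw [h]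
  have h1 : (rot k (r, b)).1 1 = (rot k (r', b')).1 1 := by rw [h]
  have hr : r = r' := by
    cases b <;> cases b' <;> (simp only [rot, cond_true, cond_false, add_zero, sub_zero] at h0; exact h0)
  subst hr
  cases b <;> cases b'
  · rfl
  · simp only [rot, cond_true, cond_false] at h1
    exact absurd h1.symm (h2 r)
  · simp only [rot, cond_true, cond_false] at h1
    exact absurd h1 (h2 r)
  · rfl

private theorem rot_prod {k : ℕ} (p : ZMod (k + 1) × Bool) :
    (1 / ((k + 1 : ℕ) : ℝ)) ^ (k + 1) ≤ ∏ i, pw (cycFam (k + 1))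
      (fun _ => 1 / ((k + 1 : ℕ) : ℝ)) ((rot k p).1 i) ((rot k p).1 (i + 1)) := by
  have hc : (univ : Finset (ZMod (k + 1))).card = k + 1 := by rw [card_univ, ZMod.card]
  calc (1 / ((k + 1 : ℕ) : ℝ)) ^ (k + 1)
      = ∏ _i : ZMod (k + 1), (1 / ((k + 1 : ℕ) : ℝ)) := by rw [prod_const, hc]
    _ ≤ _ := by
        refine prod_le_prod (fun _ _ => by positivity) fun i _ => ?_
        apply pw_ge
        obtain ⟨r, b⟩ := p
        cases b
        · right
          show (r - i : ZMod (k + 1)) = r - (i + 1) + 1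
          ring
        · left
          show (r + (i + 1) : ZMod (k + 1)) = r + i + 1
          ring

theorem val_cyc {j : ℕ} (hj : 3 ≤ j) :
    1 / (j : ℝ) ^ j ≤ val j (cycFam j) (fun _ => 1 / (j : ℝ)) := by
  obtain ⟨k, rfl⟩ : ∃ k, j = k + 1 := ⟨j - 1, by omega⟩
  rw [val_eq, le_div_iff₀ (by positivity)]
  have h1 : ∑ p : ZMod (k + 1) × Bool, (1 / ((k + 1 : ℕ) : ℝ)) ^ (k + 1) ≤
      ∑ f : {f : ZMod (k + 1) → Fin (k + 1) // Function.Injective f},
        ∏ i, pw (cycFam (k + 1)) (fun _ => 1 / ((k + 1 : ℕ) : ℝ)) (f.1 i) (f.1 (i + 1)) := by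
    refine le_trans (sum_le_sum fun p _ => rot_prod p) ?_
    rw [← sum_image (s := univ) (g := rot k)
      (f := fun f : {f : ZMod (k + 1) → Fin (k + 1) // Function.Injective f} =>
        ∏ i, pw (cycFam (k + 1)) (fun _ => 1 / ((k + 1 : ℕ) : ℝ)) (f.1 i) (f.1 (i + 1)))
      (fun a _ b _ hab => rot_inj hj hab)]
    exact sum_le_sum_of_subset_of_nonneg (subset_univ _)
      fun f _ _ => prod_nonneg fun i _ => pw_nonneg _ _
  refine le_trans (le_of_eq ?_) h1
  rw [sum_const, card_univ, Fintype.card_prod, ZMod.card, Fintype.card_bool, nsmul_eq_mul,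
    one_div_pow]
  push_cast
  ring

end Pool.Agent.H3.LC
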