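import Pool.Agent.H3.LC.Defs

/-!
# The value through ZMod (module ValZ, about 40 lines)

Proof: write `j = k + 1` (`NeZero j`); `ZMod (k + 1)` is `Fin (k + 1)` by definition and
`finRotate (k + 1) i = i + 1` (`finRotate_succ_apply`). The embeddings `Fin j ↪ Fin s` correspond to
the subtype of injective functions (`Equiv.subtypeInjectiveEquivEmbedding`), `Fintype.sum_equiv`.
-/

namespace Pool.Agent.H3.LC

/-- Embeddings of `Fin (k + 1)` as injective functions on `ZMod (k + 1)`. -/
private def embZ (k s : ℕ) :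
    (Fin (k + 1) ↪ Fin s) ≃ {f : ZMod (k + 1) → Fin s // Function.Injective f} where
  toFun f := ⟨fun i => f (show Fin (k + 1) from i), fun _ _ h => f.injective h⟩
  invFun f := ⟨fun i => f.1 (show ZMod (k + 1) from i), fun _ _ h => f.2 h⟩
  left_inv _ := rfl
  right_inv _ := rfl

theorem val_eq {j : ℕ} [NeZero j] {s : ℕ} (𝒯 : Finset (Finset (Fin s)))
    (w : Finset (Fin s) → ℝ) :
    val j 𝒯 w = (∑ f : {f : ZMod j → Fin s // Function.Injective f},
      ∏ i, pw 𝒯 w (f.1 i) (f.1 (i + 1))) / (2 * j) := by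
  obtain ⟨k, rfl⟩ : ∃ k, j = k + 1 := ⟨j - 1, (Nat.succ_pred (NeZero.ne j)).symm⟩
  unfold val
  congr 1
  refine Fintype.sum_equiv (embZ k s) _ _ fun f => ?_
  refine Fintype.prod_equiv (Equiv.refl (Fin (k + 1))) _ _ fun i => ?_
  rw [finRotate_succ_apply]
  rfl

end Pool.Agent.H3.LC
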