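import Pool.Agent.H3.LC.MeasC
import Pool.Agent.H3.LC.Chain
import Pool.Agent.H3.LC.ValZ

/-!
# The upper bound for the value when no chords are possible (module EvC, about 80 lines)

Proof: let `μ x y = w {x, y}` if `{x, y} ∈ 𝒯` and `0` otherwise. `μ` is symmetric and nonnegative and
`∑ x, ∑ y, if x = y then 0 else μ x y ≤ 2 ∑ T ∈ 𝒯, w T ≤ 2`: a member `T ∈ 𝒯` is `{x, y}` with
`x ≠ y` for at most two ordered pairs `(x, y)`. Let `f : ZMod j → Fin s` be injective. If for some `i`
no member of `𝒯` contains `f i` and `f (i + 1)` then `pw 𝒯 w (f i) (f (i + 1)) = 0` (empty sum) and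
`∏ i, pw ... = 0 ≤ ∏ i, μ (f i) (f (i+1))`. Otherwise by `chain_eq_pair` (applied to any choice of
members) for every `i` the only member containing `f i, f (i + 1)` is `{f i, f (i + 1)}`, so
`pw 𝒯 w (f i) (f (i + 1)) = μ (f i) (f (i + 1))`. Sum over `f`, use `meas_le` and `val_eq`:
`2 j / j ^ j / (2 j) = 1 / j ^ j`.
-/

namespace Pool.Agent.H3.LC

open Finset

private theorem pair_card {s : ℕ} (T : Finset (Fin s)) :
    (univ.filter fun p : Fin s × Fin s => p.1 ≠ p.2 ∧ ({p.1, p.2} : Finset (Fin s)) = T).card ≤ 2 := by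
  classical
  by_cases h : (univ.filter fun p : Fin s × Fin s =>
      p.1 ≠ p.2 ∧ ({p.1, p.2} : Finset (Fin s)) = T).Nonempty
  · obtain ⟨⟨a, b⟩, hab⟩ := h
    simp only [mem_filter, mem_univ, true_and] at hab
    have hsub : (univ.filter fun p : Fin s × Fin s =>
        p.1 ≠ p.2 ∧ ({p.1, p.2} : Finset (Fin s)) = T) ⊆ {(a, b), (b, a)} := by
      rintro ⟨x, y⟩ hxy
      simp only [mem_filter, mem_univ, true_and] at hxy
      obtain ⟨hne, hT⟩ := hxy
      obtain ⟨hne', hT'⟩ := hab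
      have hx : x ∈ ({a, b} : Finset (Fin s)) := by rw [hT', ← hT]; simp
      have hy : y ∈ ({a, b} : Finset (Fin s)) := by rw [hT', ← hT]; simp
      simp only [mem_insert, mem_singleton] at hx hy
      simp only [mem_insert, mem_singleton, Prod.mk.injEq]
      rcases hx with rfl | rfl <;> rcases hy with rfl | rfl
      · exact absurd rfl hne
      · exact Or.inl ⟨rfl, rfl⟩
      · exact Or.inr ⟨rfl, rfl⟩
      · exact absurd rfl hne
    exact le_trans (card_le_card hsub) (card_le_two)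
  · rw [not_nonempty_iff_eq_empty] at h
    rw [h]
    simp

private theorem sum_pairs {s : ℕ} {𝒯 : Finset (Finset (Fin s))} {w : Finset (Fin s) → ℝ}
    (h0 : ∀ T, 0 ≤ w T) (h1 : ∑ T ∈ 𝒯, w T ≤ 1) :
    ∑ x, ∑ y, (if x = y then 0 else
      (if ({x, y} : Finset (Fin s)) ∈ 𝒯 then w {x, y} else 0)) ≤ 2 := by
  classical
  have e1 : ∑ x, ∑ y, (if x = y then 0 else
      (if ({x, y} : Finset (Fin s)) ∈ 𝒯 then w {x, y} else 0)) =
      ∑ T ∈ 𝒯, ∑ p : Fin s × Fin s,
        (if (p.1 ≠ p.2 ∧ ({p.1, p.2} : Finset (Fin s)) = T) then w T else 0) := by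
    rw [← Fintype.sum_prod_type' (f := fun x y => (if x = y then (0 : ℝ) else
      (if ({x, y} : Finset (Fin s)) ∈ 𝒯 then w {x, y} else 0))), Finset.sum_comm]
    refine Finset.sum_congr rfl fun p _ => ?_
    by_cases hp : p.1 = p.2
    · simp [hp]
    · simp only [hp, if_false, ne_eq, not_false_eq_true, true_and]
      rw [Finset.sum_ite_eq]
  rw [e1]
  have e2 : ∀ T ∈ 𝒯, ∑ p : Fin s × Fin s,
        (if (p.1 ≠ p.2 ∧ ({p.1, p.2} : Finset (Fin s)) = T) then w T else 0) ≤ 2 * w T := by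
    intro T _
    rw [← Finset.sum_filter, Finset.sum_const, nsmul_eq_mul]
    refine mul_le_mul_of_nonneg_right ?_ (h0 T)
    exact_mod_cast pair_card T
  refine le_trans (Finset.sum_le_sum e2) ?_
  rw [← Finset.mul_sum]
  linarith

theorem val_le_dag {L : Finset ℕ} {j : ℕ} (hj : 4 ≤ j) (hL : 2 * (j + 1) ∉ L)
    (hdag : ∀ a b : ℕ, 1 ≤ a → 1 ≤ b → a + b + 1 = j →
      ¬ (6 ∈ L ∧ 2 * (a + 1) ∈ L ∧ 2 * (a + 2) ∈ L ∧ 2 * (b + 1) ∈ L ∧ 2 * (b + 2) ∈ L))
    {s : ℕ} {𝒯 : Finset (Finset (Fin s))} {w : Finset (Fin s) → ℝ} (hA : Admissible L 𝒯)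
    (h0 : ∀ T, 0 ≤ w T) (h1 : ∑ T ∈ 𝒯, w T ≤ 1) :
    val j 𝒯 w ≤ 1 / (j : ℝ) ^ j := by
  classical
  have : NeZero j := ⟨by omega⟩
  have hj0 : (0 : ℝ) < j := by exact_mod_cast (by omega : 0 < j)
  rw [val_eq]
  set μ : Fin s → Fin s → ℝ := fun x y =>
    if ({x, y} : Finset (Fin s)) ∈ 𝒯 then w {x, y} else 0 with hμ
  have hμ0 : ∀ x y, 0 ≤ μ x y := by
    intro x y
    simp only [hμ]
    split_ifs
    · exact h0 _
    · exact le_rfl
  have hμs : ∀ x y, μ x y = μ y x := by
    intro x y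
    simp only [hμ, Finset.pair_comm x y]
  have hM := meas_le (k := j) (by omega) μ hμ0 hμs (sum_pairs h0 h1)
  have hle : ∑ f : {f : ZMod j → Fin s // Function.Injective f},
      ∏ i, pw 𝒯 w (f.1 i) (f.1 (i + 1)) ≤
      ∑ f : {f : ZMod j → Fin s // Function.Injective f}, ∏ i, μ (f.1 i) (f.1 (i + 1)) := by
    refine Finset.sum_le_sum fun f _ => ?_
    by_cases hall : ∀ i, ∃ T ∈ 𝒯, f.1 i ∈ T ∧ f.1 (i + 1) ∈ T
    · choose T₀ hT₀ using hall
      refine le_of_eq (Finset.prod_congr rfl fun i _ => ?_)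
      have hmem : ({f.1 i, f.1 (i + 1)} : Finset (Fin s)) ∈ 𝒯 := by
        rw [← chain_eq_pair hA hj hL hdag f.2 hT₀ i]
        exact (hT₀ i).1
      have hfil : (𝒯.filter fun T => f.1 i ∈ T ∧ f.1 (i + 1) ∈ T) =
          {({f.1 i, f.1 (i + 1)} : Finset (Fin s))} := by
        ext T
        simp only [mem_filter, mem_singleton]
        constructor
        · rintro ⟨hT, hi, hi'⟩
          have hup : ∀ k, Function.update T₀ i T k ∈ 𝒯 ∧ f.1 k ∈ Function.update T₀ i T k ∧
              f.1 (k + 1) ∈ Function.update T₀ i T k := by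
            intro k
            by_cases hk : k = i
            · subst hk
              simp only [Function.update_self]
              exact ⟨hT, hi, hi'⟩
            · simp only [Function.update_of_ne hk]
              exact hT₀ k
          have := chain_eq_pair hA hj hL hdag f.2 hup i
          rwa [Function.update_self] at this
        · rintro rfl
          exact ⟨hmem, by simp, by simp⟩
      unfold pw
      rw [hfil, Finset.sum_singleton]
      simp only [hμ, hmem, if_true]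
    · push Not at hall
      obtain ⟨i, hi⟩ := hall
      have hz : pw 𝒯 w (f.1 i) (f.1 (i + 1)) = 0 := by
        unfold pw
        refine Finset.sum_eq_zero fun T hT => ?_
        rw [mem_filter] at hT
        exact absurd hT.2.2 (hi T hT.1 hT.2.1)
      rw [Finset.prod_eq_zero (Finset.mem_univ i) hz]
      exact Finset.prod_nonneg fun k _ => hμ0 _ _
  rw [div_le_iff₀ (by positivity)]
  refine le_trans hle (le_trans hM (le_of_eq ?_))
  field_simp

end Pool.Agent.H3.LC
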