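import Pool.Agent.H3.LC.Base

/-!
# Every cycle comes from at least 2q pairs (module FibGe, about 110 lines)

Proof: `P` is finite (`Set.toFinite`). For `p = (x, v)` and `r : ZMod q`, `b : Bool` let `act r false p
= (fun i => x (i + r), fun i => v (i + r))` and `act r true p = (fun i => x (r - i), fun i =>
v (r - i - 1))`. By `hrot` (induction on `r.val`) and `href` all `act r b p` are in `P`
(`act r true p` is the rotation by `-r` of `(fun i => x (-i), fun i => v (-i - 1))`: indeed
`-(i - r) = r - i` and `-(i - r) - 1 = r - i - 1`). They have the same `pedges` as `p`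
(`i ↦ i + r`; for the reflection: `s(v (r-i-1), x (r-i))` is the second kind at `r - i - 1` and
`s(v (r-i-1), x (r-(i+1)))` is the first kind). The map `(r, b) ↦ act r b p` is injective: compare the
values at `0`: `x r = x r'` gives `r = r'`; `b = false, b' = true`: `x r = x r'`, `v r = v (r' - 1)`,
so `r = r - 1`, `1 = 0` in `ZMod q`, impossible for `2 ≤ q`. So every fibre of `pedges` on `P` has at
least `2 q` elements; sum over the image (`Finset.card_eq_sum_card_image` or
`Finset.mul_card_image_le_card`-like lemmas after `Set.ncard_eq_toFinset_card'`).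
-/

namespace Pool.Agent.H3.LC

open SimpleGraph

private def acF {V : Type*} {q : ℕ} (r : ZMod q) (p : (ZMod q → V) × (ZMod q → V)) :
    (ZMod q → V) × (ZMod q → V) := (fun i => p.1 (i + r), fun i => p.2 (i + r))

private def acT {V : Type*} {q : ℕ} (r : ZMod q) (p : (ZMod q → V) × (ZMod q → V)) :
    (ZMod q → V) × (ZMod q → V) := (fun i => p.1 (r - i), fun i => p.2 (r - i - 1))

private lemma acF_mem_nat {V : Type*} {q : ℕ} {P : Set ((ZMod q → V) × (ZMod q → V))}
    (hrot : ∀ p ∈ P, ((fun i => p.1 (i + 1), fun i => p.2 (i + 1)) :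
      (ZMod q → V) × (ZMod q → V)) ∈ P) (n : ℕ) :
    ∀ p ∈ P, acF (n : ZMod q) p ∈ P := by
  induction n with
  | zero =>
    intro p hp
    have : acF ((0 : ℕ) : ZMod q) p = p := by
      unfold acF
      ext i <;> simp
    rw [this]
    exact hp
  | succ n ih =>
    intro p hp
    have h := hrot _ (ih p hp)
    have h2 : acF ((n + 1 : ℕ) : ZMod q) p =
        ((fun i => (acF (n : ZMod q) p).1 (i + 1), fun i => (acF (n : ZMod q) p).2 (i + 1)) :
          (ZMod q → V) × (ZMod q → V)) := by
      unfold acF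
      have : ∀ i : ZMod q, i + ((n + 1 : ℕ) : ZMod q) = i + 1 + (n : ZMod q) := by
        intro i
        push_cast
        ring
      simp only [this]
    rw [h2]
    exact h

private lemma acF_mem {V : Type*} {q : ℕ} [NeZero q] {P : Set ((ZMod q → V) × (ZMod q → V))}
    (hrot : ∀ p ∈ P, ((fun i => p.1 (i + 1), fun i => p.2 (i + 1)) :
      (ZMod q → V) × (ZMod q → V)) ∈ P) (r : ZMod q) (p) (hp : p ∈ P) : acF r p ∈ P := by
  have := acF_mem_nat hrot r.val p hp
  rwa [ZMod.natCast_zmod_val] at this

private lemma acT_mem {V : Type*} {q : ℕ} [NeZero q] {P : Set ((ZMod q → V) × (ZMod q → V))}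
    (hrot : ∀ p ∈ P, ((fun i => p.1 (i + 1), fun i => p.2 (i + 1)) :
      (ZMod q → V) × (ZMod q → V)) ∈ P)
    (href : ∀ p ∈ P, ((fun i => p.1 (-i), fun i => p.2 (-i - 1)) :
      (ZMod q → V) × (ZMod q → V)) ∈ P) (r : ZMod q) (p) (hp : p ∈ P) : acT r p ∈ P := by
  have h := acF_mem hrot (-r) _ (href p hp)
  have h2 : acT r p = acF (-r) ((fun i => p.1 (-i), fun i => p.2 (-i - 1)) :
      (ZMod q → V) × (ZMod q → V)) := by
    unfold acT acF
    have h3 : ∀ i : ZMod q, -(i + -r) = r - i := by
      intro i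
      ring
    simp only [h3]
  rw [h2]
  exact h

private lemma acF_pedges {V : Type*} {q : ℕ} (r : ZMod q) (p : (ZMod q → V) × (ZMod q → V)) :
    pedges (acF r p).1 (acF r p).2 = pedges p.1 p.2 := by
  ext e
  constructor
  · rintro ⟨i, hi⟩
    refine ⟨i + r, ?_⟩
    have h : i + r + 1 = i + 1 + r := by ring
    rw [h]
    exact hi
  · rintro ⟨i, hi⟩
    refine ⟨i - r, ?_⟩
    have h : i - r + r = i := by ring
    have h1 : i - r + 1 + r = i + 1 := by ring
    simp only [acF, h, h1]
    exact hi

private lemma acT_pedges {V : Type*} {q : ℕ} (r : ZMod q) (p : (ZMod q → V) × (ZMod q → V)) :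
    pedges (acT r p).1 (acT r p).2 = pedges p.1 p.2 := by
  ext e
  constructor
  · rintro ⟨i, hi⟩
    refine ⟨r - i - 1, ?_⟩
    have h : r - i - 1 + 1 = r - i := by ring
    have h1 : r - (i + 1) = r - i - 1 := by ring
    simp only [acT, h1] at hi
    rw [h]
    exact hi.symm
  · rintro ⟨i, hi⟩
    refine ⟨r - i - 1, ?_⟩
    have h : r - (r - i - 1) = i + 1 := by ring
    have h1 : i + 1 - 1 = i := by ring
    have h2 : r - (r - i - 1 + 1) = i := by ring
    simp only [acT, h2, h, h1]
    exact hi.symm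

private lemma ac_inj {V : Type*} {q : ℕ} (hq : 2 ≤ q) (p : (ZMod q → V) × (ZMod q → V))
    (h1 : Function.Injective p.1) (h2 : Function.Injective p.2) :
    Function.Injective (fun t : ZMod q × Bool => if t.2 then acT t.1 p else acF t.1 p) := by
  have : Fact (1 < q) := ⟨by omega⟩
  rintro ⟨r, b⟩ ⟨r', b'⟩ h
  have key : ∀ r r' : ZMod q, acT r p ≠ acF r' p := by
    intro r r' h
    have ha := congrFun (congrArg Prod.fst h) 0
    have hb := congrFun (congrArg Prod.snd h) 0
    simp only [acT, acF, sub_zero, zero_add] at ha hb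
    have ha' := h1 ha
    have hb' := h2 hb
    rw [ha'] at hb'
    have : (1 : ZMod q) = 0 := by
      have h3 : r' - (r' - 1) = r' - r' := by rw [hb']
      simp at h3
    exact one_ne_zero this
  cases b <;> cases b' <;> simp only [if_true, Bool.false_eq_true, if_false] at h
  · have ha := congrFun (congrArg Prod.fst h) 0
    simp only [acF, zero_add] at ha
    rw [h1 ha]
  · exact absurd h.symm (key _ _)
  · exact absurd h (key _ _)
  · have ha := congrFun (congrArg Prod.fst h) 0
    simp only [acT, sub_zero] at ha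
    rw [h1 ha]

theorem two_mul_image_le {V : Type*} [Finite V] {q : ℕ} (hq : 2 ≤ q)
    (P : Set ((ZMod q → V) × (ZMod q → V)))
    (hinj : ∀ p ∈ P, Function.Injective p.1 ∧ Function.Injective p.2)
    (hrot : ∀ p ∈ P, ((fun i => p.1 (i + 1), fun i => p.2 (i + 1)) :
      (ZMod q → V) × (ZMod q → V)) ∈ P)
    (href : ∀ p ∈ P, ((fun i => p.1 (-i), fun i => p.2 (-i - 1)) :
      (ZMod q → V) × (ZMod q → V)) ∈ P) :
    2 * q * ((fun p : (ZMod q → V) × (ZMod q → V) => pedges p.1 p.2) '' P).ncard ≤ P.ncard := by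
  classical
  have : NeZero q := ⟨by omega⟩
  have hfin : P.Finite := Set.toFinite P
  set PF : Finset ((ZMod q → V) × (ZMod q → V)) := hfin.toFinset with hPF
  have hcoe : (PF : Set ((ZMod q → V) × (ZMod q → V))) = P := by simp [hPF]
  have hmem : ∀ p, p ∈ PF ↔ p ∈ P := by
    intro p
    rw [hPF, Set.Finite.mem_toFinset]
  rw [← hcoe, ← Finset.coe_image, Set.ncard_coe_finset, Set.ncard_coe_finset]
  refine Finset.mul_card_image_le_card PF (2 * q) ?_
  intro b hb
  obtain ⟨p, hp, rfl⟩ := Finset.mem_image.1 hb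
  have hpP := (hmem p).1 hp
  have hi := ac_inj hq p (hinj p hpP).1 (hinj p hpP).2
  have hcard : (Finset.univ.image
      (fun t : ZMod q × Bool => if t.2 then acT t.1 p else acF t.1 p)).card = 2 * q := by
    rw [Finset.card_image_of_injective _ hi, Finset.card_univ, Fintype.card_prod, ZMod.card,
      Fintype.card_bool, mul_comm]
  rw [← hcard]
  refine Finset.card_le_card ?_
  intro x hx
  obtain ⟨⟨r, b⟩, -, rfl⟩ := Finset.mem_image.1 hx
  rw [Finset.mem_filter]
  cases b
  · simp only [Bool.false_eq_true, if_false]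
    exact ⟨(hmem _).2 (acF_mem hrot r p hpP), acF_pedges r p⟩
  · simp only [if_true]
    exact ⟨(hmem _).2 (acT_mem hrot href r p hpP), acT_pedges r p⟩

end Pool.Agent.H3.LC
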