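import Pool.Agent.H3.LC.Base

/-!
# Every cycle comes from at most 2q pairs (module FibLe, about 140 lines)

Proof: it is enough that every fibre of `p ↦ pedges p.1 p.2` on `P` has at most `2 q` elements
(`Finset.card_le_mul_card_image` after converting to Finsets, `P` is finite). Fix `(x, v) ∈ P` and let
`(x', v') ∈ P` have the same edge set. The edge `s(v' 0, x' 0)` is in `pedges x v`; as `x' 0, x i ∈ S`
and `v' 0, v i ∉ S` there is `i` with `v' 0 = v i` and `x' 0 = x i` or `x' 0 = x (i + 1)`.
First case: then `x' t = x (i + t)` and `v' t = v (i + t)` for all natural `t` (induction): the edge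
`s(v' t, x' (t+1))` is `s(v k, x k)` or `s(v k, x (k+1))` with `v k = v' t = v (i + t)`, so
`k = i + t`, and `x' (t+1) ≠ x' t` (injectivity, `1 ≠ 0` in `ZMod q`), hence
`x' (t+1) = x (i + t + 1)`; the edge `s(v' (t+1), x' (t+1))` is `s(v k, x k)` or `s(v k, x (k+1))`,
so `k = i + t + 1` or `k = i + t`, the latter is excluded by `v' (t+1) ≠ v' t`. Second case: in the
same way `x' t = x (i + 1 - t)` and `v' t = v (i - t)`. Hence `(x', v')` is determined by `i` and the
case: `(x', v') = act i b (x, v)` for one of `2 q` values. So the fibre is contained in the image of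
`ZMod q × Bool`, which has at most `2 q` elements.
-/

namespace Pool.Agent.H3.LC

open SimpleGraph

private theorem mem_pedges {V : Type*} {q : ℕ} {x v : ZMod q → V} {S : Set V}
    (hv : ∀ i, v i ∉ S) {a b : V} (h : s(a, b) ∈ pedges x v) (hb : b ∈ S) :
    ∃ k, a = v k ∧ (b = x k ∨ b = x (k + 1)) := by
  obtain ⟨k, hk | hk⟩ := h
  · rcases Sym2.eq_iff.1 hk with ⟨h1, h2⟩ | ⟨h1, h2⟩
    · exact ⟨k, h1, Or.inl h2⟩
    · exact absurd (h2 ▸ hb) (hv k)
  · rcases Sym2.eq_iff.1 hk with ⟨h1, h2⟩ | ⟨h1, h2⟩
    · exact ⟨k, h1, Or.inr h2⟩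
    · exact absurd (h2 ▸ hb) (hv k)

private theorem key {V : Type*} {q : ℕ} (hq : 2 ≤ q) {S : Set V} {x v x' v' : ZMod q → V}
    (hxi : Function.Injective x) (hvi : Function.Injective v)
    (hv : ∀ i, v i ∉ S)
    (hxi' : Function.Injective x') (hvi' : Function.Injective v')
    (hx' : ∀ i, x' i ∈ S) (h : pedges x' v' = pedges x v) :
    ∃ i : ZMod q, ∃ b : Bool,
      (x', v') = (if b then ((fun t => x (i + t)), (fun t => v (i + t)))
        else ((fun t => x (i + 1 - t)), (fun t => v (i - t)))) := by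
  have : NeZero q := ⟨by omega⟩
  have : Fact (1 < q) := ⟨by omega⟩
  have h01 : ∀ t : ZMod q, t + 1 ≠ t := by
    intro t ht
    exact one_ne_zero (add_eq_left.1 ht)
  have e1 : ∀ t, ∃ k, v' t = v k ∧ (x' t = x k ∨ x' t = x (k + 1)) := fun t =>
    mem_pedges hv (h ▸ ⟨t, Or.inl rfl⟩ : s(v' t, x' t) ∈ pedges x v) (hx' t)
  have e2 : ∀ t, ∃ k, v' t = v k ∧ (x' (t + 1) = x k ∨ x' (t + 1) = x (k + 1)) := fun t =>
    mem_pedges hv (h ▸ ⟨t, Or.inr rfl⟩ : s(v' t, x' (t + 1)) ∈ pedges x v) (hx' (t + 1))
  obtain ⟨i, hi, hi2⟩ := e1 0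
  refine ⟨i, ?_⟩
  rcases hi2 with hi2 | hi2
  · refine ⟨true, ?_⟩
    have ind : ∀ n : ℕ, x' (n : ZMod q) = x (i + n) ∧ v' (n : ZMod q) = v (i + n) := by
      intro n
      induction n with
      | zero => simpa using ⟨hi2, hi⟩
      | succ n ih =>
        obtain ⟨ihx, ihv⟩ := ih
        obtain ⟨k, hk, hk2⟩ := e2 n
        have hki : k = i + n := hvi (hk.symm.trans ihv)
        subst hki
        have hxn : x' ((n : ZMod q) + 1) = x (i + n + 1) := by
          rcases hk2 with h1 | h1
          · exact absurd (hxi' (h1.trans ihx.symm)) (h01 _)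
          · exact h1
        obtain ⟨m, hm, hm2⟩ := e1 ((n : ZMod q) + 1)
        have hvn : v' ((n : ZMod q) + 1) = v (i + n + 1) := by
          rcases hm2 with h1 | h1
          · have : m = i + n + 1 := hxi (h1.symm.trans hxn)
            rw [hm, this]
          · have h2 : m + 1 = i + n + 1 := hxi (h1.symm.trans hxn)
            have h3 : m = i + n := add_right_cancel h2
            rw [h3] at hm
            exact absurd (hvi' (hm.trans ihv.symm)) (h01 _)
        push_cast
        rw [← add_assoc]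
        exact ⟨hxn, hvn⟩
    simp only [if_true]
    refine Prod.ext ?_ ?_
    · funext t
      have := (ind t.val).1
      rwa [ZMod.natCast_zmod_val] at this
    · funext t
      have := (ind t.val).2
      rwa [ZMod.natCast_zmod_val] at this
  · refine ⟨false, ?_⟩
    have ind : ∀ n : ℕ, x' (n : ZMod q) = x (i + 1 - n) ∧ v' (n : ZMod q) = v (i - n) := by
      intro n
      induction n with
      | zero => simpa using ⟨hi2, hi⟩
      | succ n ih =>
        obtain ⟨ihx, ihv⟩ := ih
        obtain ⟨k, hk, hk2⟩ := e2 n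
        have hki : k = i - n := hvi (hk.symm.trans ihv)
        subst hki
        have hxn : x' ((n : ZMod q) + 1) = x (i - n) := by
          rcases hk2 with h1 | h1
          · exact h1
          · have h2 : i - (n : ZMod q) + 1 = i + 1 - n := by ring
            rw [h2] at h1
            exact absurd (hxi' (h1.trans ihx.symm)) (h01 _)
        obtain ⟨m, hm, hm2⟩ := e1 ((n : ZMod q) + 1)
        have hvn : v' ((n : ZMod q) + 1) = v (i - (n + 1)) := by
          rcases hm2 with h1 | h1
          · have h3 : m = i - n := hxi (h1.symm.trans hxn)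
            rw [h3] at hm
            exact absurd (hvi' (hm.trans ihv.symm)) (h01 _)
          · have h2 : m + 1 = i - n := hxi (h1.symm.trans hxn)
            have h3 : m = i - (n + 1) := by
              have : m = (m + 1) - 1 := by ring
              rw [this, h2]; ring
            rw [hm, h3]
        push_cast
        have h4 : i + 1 - ((n : ZMod q) + 1) = i - n := by ring
        rw [h4]
        exact ⟨hxn, hvn⟩
    simp only [Bool.false_eq_true, if_false]
    refine Prod.ext ?_ ?_
    · funext t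
      have := (ind t.val).1
      rwa [ZMod.natCast_zmod_val] at this
    · funext t
      have := (ind t.val).2
      rwa [ZMod.natCast_zmod_val] at this

theorem ncard_le_two_mul {V : Type*} [Finite V] {q : ℕ} (hq : 2 ≤ q)
    (P : Set ((ZMod q → V) × (ZMod q → V))) (S : Set V)
    (hP : ∀ p ∈ P, Function.Injective p.1 ∧ Function.Injective p.2 ∧ (∀ i, p.1 i ∈ S) ∧
      ∀ i, p.2 i ∉ S) :
    P.ncard ≤ 2 * q * ((fun p : (ZMod q → V) × (ZMod q → V) => pedges p.1 p.2) '' P).ncard := by
  classical
  have : NeZero q := ⟨by omega⟩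
  have hfin : P.Finite := Set.toFinite P
  obtain ⟨s, rfl⟩ : ∃ s : Finset ((ZMod q → V) × (ZMod q → V)), (s : Set _) = P :=
    ⟨hfin.toFinset, hfin.coe_toFinset⟩
  rw [← Finset.coe_image, Set.ncard_coe_finset, Set.ncard_coe_finset]
  refine Finset.card_le_mul_card_image s (2 * q) ?_
  intro e he
  obtain ⟨p, hp, rfl⟩ := Finset.mem_image.1 he
  obtain ⟨h1, h2, h3, h4⟩ := hP p (Finset.mem_coe.2 hp)
  let act : ZMod q × Bool → (ZMod q → V) × (ZMod q → V) := fun ib =>
    if ib.2 then ((fun t => p.1 (ib.1 + t)), (fun t => p.2 (ib.1 + t)))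
      else ((fun t => p.1 (ib.1 + 1 - t)), (fun t => p.2 (ib.1 - t)))
  have hsub : (s.filter fun p' => pedges p'.1 p'.2 = pedges p.1 p.2) ⊆
      (Finset.univ : Finset (ZMod q × Bool)).image act := by
    intro p' hp'
    rw [Finset.mem_filter] at hp'
    obtain ⟨g1, g2, g3, g4⟩ := hP p' (Finset.mem_coe.2 hp'.1)
    obtain ⟨i, b, hib⟩ := key hq h1 h2 h4 g1 g2 g3 hp'.2
    exact Finset.mem_image.2 ⟨(i, b), Finset.mem_univ _, hib.symm⟩
  calc (s.filter fun p' => pedges p'.1 p'.2 = pedges p.1 p.2).card
      ≤ ((Finset.univ : Finset (ZMod q × Bool)).image act).card := Finset.card_le_card hsub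
    _ ≤ (Finset.univ : Finset (ZMod q × Bool)).card := Finset.card_image_le
    _ = 2 * q := by
        rw [Finset.card_univ, Fintype.card_prod, ZMod.card, Fintype.card_bool, mul_comm]

end Pool.Agent.H3.LC
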