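import Pool.Agent.H3.LC.AltB

/-!
# The graph of an admissible family (module LowA, about 60 lines)

Proof: let `IsCyc (lowG 𝒯 a) f`, `3 ≤ m`. Adjacent vertices of `lowG` are on different sides, so
`c i = (f i).isLeft` satisfies `c (i + 1) = !c i`; `exists_pair` gives `m = 2 q`, `2 ≤ q` and a pair
`(x, v)` with `x i = f b`, `c b = true`, so `x i = Sum.inl (g i)` with `g : ZMod q → Fin s` injective,
and `v i = f (b + 1)` is `Sum.inr ⟨T, _⟩`, adjacent to `x i` and `x (i + 1)`: `g i, g (i + 1) ∈ T ∈ 𝒯`.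
`Admissible` gives `2 * q ∈ L`.
-/

namespace Pool.Agent.H3.LC

open SimpleGraph

theorem lowG_cyc {L : Finset ℕ} {s : ℕ} {𝒯 : Finset (Finset (Fin s))} (hA : Admissible L 𝒯)
    (a : Finset (Fin s) → ℕ) (m : ℕ) (f : ZMod m → Fin s ⊕ (Σ T : {T // T ∈ 𝒯}, Fin (a T.1)))
    (hm : 3 ≤ m) (hf : IsCyc (lowG 𝒯 a) f) : m ∈ L := by
  classical
  have hc : ∀ i, (f (i + 1)).isLeft = !(f i).isLeft := by
    intro i
    have h := hf.2 i
    rcases hx : f i with x | x <;> rcases hy : f (i + 1) with y | y <;> rw [hx, hy] at h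
    · exact absurd h (by simp [lowG])
    · rfl
    · rfl
    · exact absurd h (by simp [lowG])
  obtain ⟨q, x, v, hmq, h2q, hP, -, hb⟩ := exists_pair hm hf (fun i => (f i).isLeft) hc
  have hx : ∀ i, ∃ g, x i = Sum.inl g := by
    intro i
    obtain ⟨b, h1, h2, -, -⟩ := hb i
    rw [h2]
    exact Sum.isLeft_iff.1 h1
  choose g hg using hx
  have hgi : Function.Injective g := by
    intro i k hik
    apply hP.1
    rw [hg, hg, hik]
  rw [hmq]
  refine hA q h2q g hgi fun i => ?_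
  have h1 := (hP.2.2.2 i).1
  have h2 := (hP.2.2.2 i).2
  rw [hg] at h1 h2
  rcases hv : v i with t | t
  · rw [hv] at h1
    exact absurd h1 (by simp [lowG])
  · rw [hv] at h1 h2
    exact ⟨t.1.1, t.1.2, h1, h2⟩

end Pool.Agent.H3.LC
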