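import Pool.Agent.H3.LC.Base

/-!
# A pair is a cyclic sequence (module PairCyc, about 110 lines)

Proof: `f i = x (i.val / 2)` if `i.val` is even and `f i = v (i.val / 2)` if it is odd (casts of
naturals to `ZMod q`). For `n < 2 q` write `n = 2 k` or `n = 2 k + 1` with `k < q`. Injective: `k` is
determined because `(k : ZMod q)` determines `k < q`; `x i ≠ v k`. Adjacency at `n = 2 k`:
`(i + 1).val = 2 k + 1`, `x k ~ v k`. At `n = 2 k + 1 < 2 q - 1`: `(i + 1).val = 2 (k + 1)`,
`v k ~ x (k + 1)`; at `n = 2 q - 1`: `i + 1 = 0`, `k = q - 1`, `(k : ZMod q) + 1 = 0`,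
`v k ~ x (k + 1) = x 0`. The same computation gives the edges; every `i : ZMod q` is the cast of
`k = i.val`.
-/

namespace Pool.Agent.H3.LC

open SimpleGraph

private lemma pc_cast_inj {q : ℕ} {a b : ℕ} (ha : a < q) (hb : b < q)
    (h : (a : ZMod q) = (b : ZMod q)) : a = b := by
  have h1 := (ZMod.natCast_eq_natCast_iff' a b q).1 h
  rwa [Nat.mod_eq_of_lt ha, Nat.mod_eq_of_lt hb] at h1

private def pcF {V : Type*} {q : ℕ} (x v : ZMod q → V) (n : ℕ) : V :=
  if n % 2 = 0 then x ((n / 2 : ℕ) : ZMod q) else v ((n / 2 : ℕ) : ZMod q)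

private lemma pcF_even {V : Type*} {q : ℕ} (x v : ZMod q → V) (k : ℕ) :
    pcF x v (2 * k) = x (k : ZMod q) := by
  unfold pcF
  rw [if_pos (by omega), show 2 * k / 2 = k by omega]

private lemma pcF_odd {V : Type*} {q : ℕ} (x v : ZMod q → V) (k : ℕ) :
    pcF x v (2 * k + 1) = v (k : ZMod q) := by
  unfold pcF
  rw [if_neg (by omega), show (2 * k + 1) / 2 = k by omega]

/-- the value at the successor -/
private lemma pcF_succ {V : Type*} {q : ℕ} (hq : 2 ≤ q) (x v : ZMod q → V) (i : ZMod (2 * q)) :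
    pcF x v (i + 1).val = pcF x v (i.val + 1) := by
  have : NeZero (2 * q) := ⟨by omega⟩
  have hi := ZMod.val_lt i
  have h3 : ((i.val + 1 : ℕ) : ZMod (2 * q)) = i + 1 := by
    push_cast
    rw [ZMod.natCast_zmod_val]
  by_cases h : i.val + 1 < 2 * q
  · rw [← h3, ZMod.val_natCast_of_lt h]
  · have h1 : i.val + 1 = 2 * q := by omega
    have h2 : i + 1 = 0 := by
      rw [← h3, h1]
      simp
    rw [h2, h1, ZMod.val_zero, pcF_even]
    have := pcF_even x v 0
    rw [mul_zero] at this
    rw [this]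
    simp

theorem exists_cyc_of_pair {V : Type*} {G : SimpleGraph V} {q : ℕ} (hq : 2 ≤ q) {x v : ZMod q → V}
    (h : IsPair G x v) : ∃ f : ZMod (2 * q) → V, IsCyc G f ∧ cedges f = pedges x v := by
  have : NeZero (2 * q) := ⟨by omega⟩
  have : NeZero q := ⟨by omega⟩
  obtain ⟨hx, hv, hxv, hadj⟩ := h
  refine ⟨fun i => pcF x v i.val, ⟨?_, ?_⟩, ?_⟩
  · intro a b hab
    have ha := ZMod.val_lt a
    have hb := ZMod.val_lt b
    apply ZMod.val_injective
    simp only at hab
    obtain ⟨k, hk | hk⟩ := Nat.even_or_odd' a.val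
    · obtain ⟨l, hl | hl⟩ := Nat.even_or_odd' b.val
      · rw [hk, hl, pcF_even, pcF_even] at hab
        have := pc_cast_inj (by omega) (by omega) (hx hab)
        omega
      · rw [hk, hl, pcF_even, pcF_odd] at hab
        exact absurd hab (hxv _ _)
    · obtain ⟨l, hl | hl⟩ := Nat.even_or_odd' b.val
      · rw [hk, hl, pcF_even, pcF_odd] at hab
        exact absurd hab.symm (hxv _ _)
      · rw [hk, hl, pcF_odd, pcF_odd] at hab
        have := pc_cast_inj (by omega) (by omega) (hv hab)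
        omega
  · intro i
    simp only
    rw [pcF_succ hq]
    obtain ⟨k, hk | hk⟩ := Nat.even_or_odd' i.val
    · rw [hk, pcF_even, pcF_odd]
      exact (hadj _).1.symm
    · rw [hk, pcF_odd, show 2 * k + 1 + 1 = 2 * (k + 1) by ring, pcF_even]
      have := (hadj (k : ZMod q)).2
      push_cast
      exact this
  · ext e
    simp only [cedges, pedges, Set.mem_ofPred_eq]
    constructor
    · rintro ⟨i, rfl⟩
      rw [pcF_succ hq]
      obtain ⟨k, hk | hk⟩ := Nat.even_or_odd' i.val
      · rw [hk, pcF_even, pcF_odd]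
        exact ⟨(k : ZMod q), Or.inl Sym2.eq_swap⟩
      · rw [hk, pcF_odd, show 2 * k + 1 + 1 = 2 * (k + 1) by ring, pcF_even]
        refine ⟨(k : ZMod q), Or.inr ?_⟩
        push_cast
        rfl
    · rintro ⟨i, hi | hi⟩
      · have hil := ZMod.val_lt i
        refine ⟨((2 * i.val : ℕ) : ZMod (2 * q)), ?_⟩
        rw [pcF_succ hq, ZMod.val_natCast_of_lt (by omega), pcF_even, pcF_odd,
          ZMod.natCast_zmod_val, hi]
        exact Sym2.eq_swap
      · have hil := ZMod.val_lt i
        refine ⟨((2 * i.val + 1 : ℕ) : ZMod (2 * q)), ?_⟩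
        rw [pcF_succ hq, ZMod.val_natCast_of_lt (by omega), pcF_odd,
          show 2 * i.val + 1 + 1 = 2 * (i.val + 1) by ring, pcF_even]
        push_cast
        rw [ZMod.natCast_zmod_val, hi]

end Pool.Agent.H3.LC
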