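import Pool.Agent.H3.LC.Glue
import Pool.Agent.H3.LC.PairCyc
import Pool.Agent.H3.LC.FibLe

/-!
# Many cycles in the graph of an admissible family (module LowB, about 150 lines)

Let `A x y = ∑ T ∈ 𝒯 with x ∈ T ∧ y ∈ T, a T`, `N = ∑ T ∈ 𝒯, a T`, `W = Σ T : {T // T ∈ 𝒯}, Fin (a T)`
(it has `N` elements).

`inj_count` (private if you like): for sets `B i ⊆ W`, `i : ZMod q`, the number of injective
`v : ZMod q → W` with `v i ∈ B i` is at least `∏ i, #(B i) - q ^ 2 * N ^ (q - 1)`: the number of all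
functions with `v i ∈ B i` is the product, and for fixed `k ≠ l` the number of `v : ZMod q → W` with
`v k = v l` is `N ^ (q - 1)`.

For injective `f : ZMod q → Fin s` take `B i = {t | f i ∈ t.1 ∧ f (i + 1) ∈ t.1}`, which has
`A (f i) (f (i + 1))` elements. Let `P` be the set of pairs `(Sum.inl ∘ f, Sum.inr ∘ v)` with `f`
injective, `v` injective, `v i ∈ B i`. All are pairs of `lowG 𝒯 a` (`IsPair`), so their `pedges` are in
`cycles (lowG 𝒯 a)` (`exists_cyc_of_pair`, `mem_cycles_iff`, `3 ≤ 2 * q`), and `ncard_le_two_mul` with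
`S = Set.range Sum.inl` gives `P.ncard ≤ 2 * q * (cycles (lowG 𝒯 a)).ncard`. Finally
`P.ncard = ∑ f, #{v} ≥ ∑ f, (∏ i, A (f i) (f (i + 1)) - q ^ 2 * N ^ (q - 1))` and there are at most
`s ^ q` maps `f`.
-/

namespace Pool.Agent.H3.LC

open SimpleGraph

private lemma lb_eq_card {ι W : Type*} [Fintype ι] [DecidableEq ι] [Fintype W] [DecidableEq W]
    (k l : ι) (hkl : k ≠ l) :
    (Finset.univ.filter fun v : ι → W => v k = v l).card ≤
      (Fintype.card W) ^ (Fintype.card ι - 1) := by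
  have h1 : Fintype.card ({i : ι // i ≠ l} → W) = (Fintype.card W) ^ (Fintype.card ι - 1) := by
    rw [Fintype.card_fun, Fintype.card_subtype_compl, Fintype.card_subtype_eq]
  rw [← h1, ← Finset.card_univ]
  refine Finset.card_le_card_of_injOn (fun v i => v i.1) (fun _ _ => Finset.mem_coe.2
    (Finset.mem_univ _)) ?_
  intro v hv v' hv' h
  have hv1 : v k = v l := (Finset.mem_filter.1 (Finset.mem_coe.1 hv)).2
  have hv2 : v' k = v' l := (Finset.mem_filter.1 (Finset.mem_coe.1 hv')).2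
  have h2 : ∀ i, i ≠ l → v i = v' i := fun i hi => congrFun h ⟨i, hi⟩
  funext i
  by_cases hi : i = l
  · rw [hi, ← hv1, ← hv2]
    exact h2 k hkl
  · exact h2 i hi

private lemma lb_inj_count {q : ℕ} [NeZero q] {W : Type*} [Fintype W] [DecidableEq W]
    (B : ZMod q → Finset W) :
    ∏ i, (B i).card ≤ ((Fintype.piFinset B).filter fun v => Function.Injective v).card +
      q ^ 2 * (Fintype.card W) ^ (q - 1) := by
  classical
  rw [← Fintype.card_piFinset, ← Finset.card_filter_add_card_filter_not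
    (s := Fintype.piFinset B) (p := fun v => Function.Injective v)]
  refine Nat.add_le_add_left ?_ _
  set K : Finset (ZMod q × ZMod q) := Finset.univ.filter fun t => t.1 ≠ t.2 with hK
  have hsub : ((Fintype.piFinset B).filter fun v => ¬ Function.Injective v) ⊆
      K.biUnion fun t => Finset.univ.filter fun v : ZMod q → W => v t.1 = v t.2 := by
    intro v hv
    have h1 := (Finset.mem_filter.1 hv).2
    rw [Function.Injective] at h1
    push Not at h1
    obtain ⟨x, y, hxy, hne⟩ := h1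
    rw [Finset.mem_biUnion]
    refine ⟨(x, y), ?_, ?_⟩
    · rw [hK, Finset.mem_filter]
      exact ⟨Finset.mem_univ _, hne⟩
    · rw [Finset.mem_filter]
      exact ⟨Finset.mem_univ _, hxy⟩
  refine (Finset.card_le_card hsub).trans ?_
  refine (Finset.card_biUnion_le_card_mul K _ ((Fintype.card W) ^ (q - 1)) ?_).trans ?_
  · intro t ht
    have h2 := lb_eq_card (W := W) t.1 t.2 (Finset.mem_filter.1 ht).2
    rwa [ZMod.card] at h2
  · refine Nat.mul_le_mul_right _ ?_
    refine (Finset.card_le_univ K).trans ?_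
    rw [Fintype.card_prod, ZMod.card, sq]

private lemma lb_card {s : ℕ} (𝒯 : Finset (Finset (Fin s))) (a : Finset (Fin s) → ℕ)
    (x y : Fin s) :
    (Finset.univ.filter fun t : (Σ T : {T // T ∈ 𝒯}, Fin (a T.1)) =>
      x ∈ t.1.1 ∧ y ∈ t.1.1).card = ∑ T ∈ 𝒯 with x ∈ T ∧ y ∈ T, a T := by
  classical
  have h1 : (Finset.univ.filter fun t : (Σ T : {T // T ∈ 𝒯}, Fin (a T.1)) =>
      x ∈ t.1.1 ∧ y ∈ t.1.1) =
      (Finset.univ.filter fun T : {T // T ∈ 𝒯} => x ∈ T.1 ∧ y ∈ T.1).sigma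
        fun T => (Finset.univ : Finset (Fin (a T.1))) := by
    ext ⟨T, t⟩
    simp
  rw [h1, Finset.card_sigma]
  simp only [Finset.card_univ, Fintype.card_fin]
  rw [Finset.sum_filter, Finset.sum_filter]
  exact Finset.sum_coe_sort 𝒯 (fun T => if x ∈ T ∧ y ∈ T then a T else 0)

private lemma lb_cardW {s : ℕ} (𝒯 : Finset (Finset (Fin s))) (a : Finset (Fin s) → ℕ) :
    Fintype.card (Σ T : {T // T ∈ 𝒯}, Fin (a T.1)) = ∑ T ∈ 𝒯, a T := by
  rw [Fintype.card_sigma]
  simp only [Fintype.card_fin]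
  exact Finset.sum_coe_sort 𝒯 a

private lemma lb_nat {q : ℕ} [NeZero q] (hq : 2 ≤ q) {s : ℕ} (𝒯 : Finset (Finset (Fin s)))
    (a : Finset (Fin s) → ℕ) :
    ∑ f : {f : ZMod q → Fin s // Function.Injective f},
        ∏ i, (∑ T ∈ 𝒯 with f.1 i ∈ T ∧ f.1 (i + 1) ∈ T, a T) ≤
      2 * q * (cycles (lowG 𝒯 a)).ncard + s ^ q * (q ^ 2 * (∑ T ∈ 𝒯, a T) ^ (q - 1)) := by
  classical
  set B : {f : ZMod q → Fin s // Function.Injective f} → ZMod q →
      Finset (Σ T : {T // T ∈ 𝒯}, Fin (a T.1)) := fun f i =>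
    Finset.univ.filter fun t => f.1 i ∈ t.1.1 ∧ f.1 (i + 1) ∈ t.1.1 with hB
  have hBm : ∀ f i t, t ∈ B f i → f.1 i ∈ t.1.1 ∧ f.1 (i + 1) ∈ t.1.1 := by
    intro f i t ht
    rw [hB] at ht
    exact (Finset.mem_filter.1 ht).2
  set S : Finset (Σ _ : {f : ZMod q → Fin s // Function.Injective f},
      (ZMod q → (Σ T : {T // T ∈ 𝒯}, Fin (a T.1)))) :=
    Finset.univ.sigma fun f => (Fintype.piFinset (B f)).filter fun v => Function.Injective v
    with hS
  set g : (Σ _ : {f : ZMod q → Fin s // Function.Injective f},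
      (ZMod q → (Σ T : {T // T ∈ 𝒯}, Fin (a T.1)))) →
      (ZMod q → Fin s ⊕ (Σ T : {T // T ∈ 𝒯}, Fin (a T.1))) ×
      (ZMod q → Fin s ⊕ (Σ T : {T // T ∈ 𝒯}, Fin (a T.1))) :=
    fun p => (fun i => Sum.inl (p.1.1 i), fun i => Sum.inr (p.2 i)) with hg
  have hginj : Function.Injective g := by
    rintro ⟨f, v⟩ ⟨f', v'⟩ h
    have h1 : f = f' := by
      apply Subtype.ext
      funext i
      exact Sum.inl_injective (congrFun (congrArg Prod.fst h) i)
    have h2 : v = v' := by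
      funext i
      exact Sum.inr_injective (congrFun (congrArg Prod.snd h) i)
    rw [h1, h2]
  have hPS : ((g '' (S : Set _))).ncard = S.card := by
    rw [Set.ncard_image_of_injective _ hginj, Set.ncard_coe_finset]
  have hSmem : ∀ p ∈ S, (∀ i, p.2 i ∈ B p.1 i) ∧ Function.Injective p.2 := by
    intro p hp
    rw [hS, Finset.mem_sigma, Finset.mem_filter, Fintype.mem_piFinset] at hp
    exact hp.2
  have hle := ncard_le_two_mul hq (g '' (S : Set _)) (Set.range Sum.inl) (by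
    rintro p ⟨t, ht, rfl⟩
    have h1 := hSmem t (Finset.mem_coe.1 ht)
    refine ⟨fun i j hij => t.1.2 (Sum.inl_injective hij),
      fun i j hij => h1.2 (Sum.inr_injective hij), fun i => ⟨_, rfl⟩, ?_⟩
    rintro i ⟨y, hy⟩
    exact absurd hy (by simp [hg]))
  have himg : ((fun p : (ZMod q → Fin s ⊕ (Σ T : {T // T ∈ 𝒯}, Fin (a T.1))) ×
      (ZMod q → Fin s ⊕ (Σ T : {T // T ∈ 𝒯}, Fin (a T.1))) => pedges p.1 p.2) ''
      (g '' (S : Set _))).ncard ≤ (cycles (lowG 𝒯 a)).ncard := by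
    refine Set.ncard_le_ncard ?_ (Set.toFinite _)
    rintro _ ⟨_, ⟨t, ht, rfl⟩, rfl⟩
    have h1 := hSmem t (Finset.mem_coe.1 ht)
    have hpair : IsPair (lowG 𝒯 a) (g t).1 (g t).2 := by
      refine ⟨fun i j hij => t.1.2 (Sum.inl_injective hij),
        fun i j hij => h1.2 (Sum.inr_injective hij), fun i k h => ?_, fun i => ?_⟩
      · exact absurd h (by simp [hg])
      · have h2 := hBm _ _ _ (h1.1 i)
        exact ⟨h2.1, h2.2⟩
    obtain ⟨f, hf, hfe⟩ := exists_cyc_of_pair hq hpair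
    exact mem_cycles_iff.2 ⟨2 * q, f, by omega, hf, hfe⟩
  have hSc : S.card = ∑ f, ((Fintype.piFinset (B f)).filter fun v =>
      Function.Injective v).card := by
    rw [hS, Finset.card_sigma]
  have hcardf : Fintype.card {f : ZMod q → Fin s // Function.Injective f} ≤ s ^ q := by
    refine (Fintype.card_subtype_le _).trans ?_
    rw [Fintype.card_fun, ZMod.card, Fintype.card_fin]
  calc ∑ f : {f : ZMod q → Fin s // Function.Injective f},
        ∏ i, (∑ T ∈ 𝒯 with f.1 i ∈ T ∧ f.1 (i + 1) ∈ T, a T)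
      = ∑ f : {f : ZMod q → Fin s // Function.Injective f}, ∏ i, (B f i).card := by
        refine Finset.sum_congr rfl fun f _ => Finset.prod_congr rfl fun i _ => ?_
        exact (lb_card 𝒯 a _ _).symm
    _ ≤ ∑ f : {f : ZMod q → Fin s // Function.Injective f},
        (((Fintype.piFinset (B f)).filter fun v => Function.Injective v).card +
          q ^ 2 * (∑ T ∈ 𝒯, a T) ^ (q - 1)) := by
        refine Finset.sum_le_sum fun f _ => ?_
        have := lb_inj_count (B f)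
        rwa [lb_cardW] at this
    _ = S.card + Fintype.card {f : ZMod q → Fin s // Function.Injective f} *
          (q ^ 2 * (∑ T ∈ 𝒯, a T) ^ (q - 1)) := by
        rw [Finset.sum_add_distrib, ← hSc, Finset.sum_const, Finset.card_univ, smul_eq_mul]
    _ ≤ 2 * q * (cycles (lowG 𝒯 a)).ncard + s ^ q * (q ^ 2 * (∑ T ∈ 𝒯, a T) ^ (q - 1)) := by
        refine Nat.add_le_add ?_ (Nat.mul_le_mul_right _ hcardf)
        rw [← hPS]
        exact hle.trans (Nat.mul_le_mul_left _ himg)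

theorem lowG_count {q : ℕ} [NeZero q] (hq : 2 ≤ q) {s : ℕ} (𝒯 : Finset (Finset (Fin s)))
    (a : Finset (Fin s) → ℕ) :
    (∑ f : {f : ZMod q → Fin s // Function.Injective f},
        ∏ i, ((∑ T ∈ 𝒯 with f.1 i ∈ T ∧ f.1 (i + 1) ∈ T, a T : ℕ) : ℝ)) -
      (s : ℝ) ^ q * ((q : ℝ) ^ 2 * ((∑ T ∈ 𝒯, a T : ℕ) : ℝ) ^ (q - 1)) ≤
      2 * q * ((cycles (lowG 𝒯 a)).ncard : ℝ) := by
  have h := lb_nat hq 𝒯 a
  have h2 : (∑ f : {f : ZMod q → Fin s // Function.Injective f},
        ∏ i, ((∑ T ∈ 𝒯 with f.1 i ∈ T ∧ f.1 (i + 1) ∈ T, a T : ℕ) : ℝ)) ≤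
      2 * q * ((cycles (lowG 𝒯 a)).ncard : ℝ) +
        (s : ℝ) ^ q * ((q : ℝ) ^ 2 * ((∑ T ∈ 𝒯, a T : ℕ) : ℝ) ^ (q - 1)) := by
    exact_mod_cast h
  linarith

end Pool.Agent.H3.LC
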