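import Pool.Agent.H3.LC.Transfer
import Pool.Agent.H3.LC.LowA
import Pool.Agent.H3.LC.LowB
import Pool.Agent.H3.LC.ValZ

/-!
# The lower bound (module Lower, about 130 lines)

Proof: for `n ≥ s` let `a T = ⌊w T * (n - s)⌋₊`. The graph `lowG 𝒯 a` has `s + ∑ T ∈ 𝒯, a T ≤ n`
vertices (`Fintype.card_sum`, `Fintype.card_sigma`), is an `L`-cycle graph (`isLCycle_iff`,
`lowG_cyc`), so `cMax L n ≥ (cycles (lowG 𝒯 a)).ncard` (`ncard_le_cMax`), and `lowG_count` bounds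
`2 * j * ncard` from below by `F n = ∑ f, ∏ i, A_n (f i) (f (i+1)) - s ^ j * (j ^ 2 * N_n ^ (j - 1))`
with `A_n x y = ∑ T ∋ x, y, a T` and `N_n ≤ n`. As `n → ∞`, `a T / n → w T`
(`tendsto_nat_floor_mul_div_atTop` or the squeeze `w (n - s) - 1 ≤ a T ≤ w n`), so
`A_n x y / n → pw 𝒯 w x y`, and `F n / n ^ j → ∑ f, ∏ i, pw 𝒯 w (f i) (f (i + 1)) = 2 j val j 𝒯 w`
(`tendsto_finsetSum`, `tendsto_finsetProd`; the last term is at most `s ^ j * j ^ 2 / n → 0`).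
-/

namespace Pool.Agent.H3.LC

open SimpleGraph Filter Topology

private lemma lower_floor {x : ℝ} (hx : 0 ≤ x) (s : ℕ) :
    Tendsto (fun m : ℕ => ((⌊x * (m : ℝ)⌋₊ : ℕ) : ℝ) / ((m : ℝ) + s)) atTop (𝓝 x) := by
  have h1 : Tendsto (fun m : ℕ => ((⌊x * (m : ℝ)⌋₊ : ℕ) : ℝ) / (m : ℝ)) atTop (𝓝 x) :=
    (tendsto_nat_floor_mul_div_atTop hx).comp tendsto_natCast_atTop_atTop
  have h2 : Tendsto (fun m : ℕ => (m : ℝ) / ((m : ℝ) + s)) atTop (𝓝 1) :=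
    tendsto_natCast_div_add_atTop (s : ℝ)
  have h3 := h1.mul h2
  rw [mul_one] at h3
  refine h3.congr' ?_
  filter_upwards [eventually_gt_atTop 0] with m hm
  have hm0 : (m : ℝ) ≠ 0 := by
    have : (0 : ℝ) < m := by exact_mod_cast hm
    exact this.ne'
  have hm1 : (m : ℝ) + s ≠ 0 := by
    have : (0 : ℝ) < m := by exact_mod_cast hm
    positivity
  field_simp

private lemma lower_sum {ι : Type*} (S : Finset ι) {w : ι → ℝ} (h0 : ∀ T, 0 ≤ w T) (s : ℕ) :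
    Tendsto (fun m : ℕ => ((∑ T ∈ S, ⌊w T * (m : ℝ)⌋₊ : ℕ) : ℝ) / ((m : ℝ) + s)) atTop
      (𝓝 (∑ T ∈ S, w T)) := by
  have h := tendsto_finsetSum S (fun T _ => lower_floor (h0 T) s)
  refine h.congr fun m => ?_
  rw [← Finset.sum_div]
  push_cast
  rfl

private lemma lower_lim {j : ℕ} [NeZero j] {s : ℕ} (𝒯 : Finset (Finset (Fin s)))
    {w : Finset (Fin s) → ℝ} (h0 : ∀ T, 0 ≤ w T) :
    Tendsto (fun m : ℕ =>
      ((∑ f : {f : ZMod j → Fin s // Function.Injective f},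
        ∏ i, ((∑ T ∈ 𝒯 with f.1 i ∈ T ∧ f.1 (i + 1) ∈ T, ⌊w T * (m : ℝ)⌋₊ : ℕ) : ℝ)) -
      (s : ℝ) ^ j * ((j : ℝ) ^ 2 * ((∑ T ∈ 𝒯, ⌊w T * (m : ℝ)⌋₊ : ℕ) : ℝ) ^ (j - 1))) /
        ((m : ℝ) + s) ^ j) atTop (𝓝 (2 * j * val j 𝒯 w)) := by
  have hj0 : (j : ℝ) ≠ 0 := Nat.cast_ne_zero.2 (NeZero.ne j)
  have hv : 2 * (j : ℝ) * val j 𝒯 w = (∑ f : {f : ZMod j → Fin s // Function.Injective f},
      ∏ i, pw 𝒯 w (f.1 i) (f.1 (i + 1))) -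
        (s : ℝ) ^ j * ((j : ℝ) ^ 2 * ((∑ T ∈ 𝒯, w T) ^ (j - 1) * 0)) := by
    rw [val_eq]
    field_simp
    ring
  rw [hv]
  have hinv : Tendsto (fun m : ℕ => 1 / ((m : ℝ) + s)) atTop (𝓝 0) := by
    have h : Tendsto (fun m : ℕ => (m : ℝ) + s) atTop atTop :=
      tendsto_atTop_add_const_right _ _ tendsto_natCast_atTop_atTop
    refine h.inv_tendsto_atTop.congr fun m => ?_
    rw [Pi.inv_apply, one_div]
  have h1 : Tendsto (fun m : ℕ => ∑ f : {f : ZMod j → Fin s // Function.Injective f},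
        ∏ i, (((∑ T ∈ 𝒯 with f.1 i ∈ T ∧ f.1 (i + 1) ∈ T, ⌊w T * (m : ℝ)⌋₊ : ℕ) : ℝ) /
          ((m : ℝ) + s))) atTop (𝓝 (∑ f : {f : ZMod j → Fin s // Function.Injective f},
      ∏ i, pw 𝒯 w (f.1 i) (f.1 (i + 1)))) :=
    tendsto_finsetSum _ fun f _ => tendsto_finsetProd _ fun i _ => lower_sum _ h0 s
  have h2 := ((((lower_sum 𝒯 h0 s).pow (j - 1)).mul hinv).const_mul ((j : ℝ) ^ 2)).const_mul
    ((s : ℝ) ^ j)
  refine (h1.sub h2).congr' ?_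
  filter_upwards [eventually_gt_atTop 0] with m hm
  have hm1 : (m : ℝ) + s ≠ 0 := by
    have : (0 : ℝ) < m := by exact_mod_cast hm
    positivity
  have hpow : ((m : ℝ) + s) ^ j = ((m : ℝ) + s) ^ (j - 1) * ((m : ℝ) + s) := by
    rw [← pow_succ, Nat.sub_add_cancel (NeZero.one_le)]
  rw [sub_div, Finset.sum_div]
  congr 1
  · refine Finset.sum_congr rfl fun f _ => ?_
    rw [Finset.prod_div_distrib, Finset.prod_const, Finset.card_univ, ZMod.card]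
  · rw [hpow, div_pow]
    generalize ((∑ T ∈ 𝒯, ⌊w T * (m : ℝ)⌋₊ : ℕ) : ℝ) = A
    field_simp

theorem lower {L : Finset ℕ} {j : ℕ} (hj : 2 ≤ j) {s : ℕ} {𝒯 : Finset (Finset (Fin s))}
    {w : Finset (Fin s) → ℝ} (hA : Admissible L 𝒯) (h0 : ∀ T, 0 ≤ w T)
    (h1 : ∑ T ∈ 𝒯, w T ≤ 1) {ε : ℝ} (hε : 0 < ε) :
    ∀ᶠ n : ℕ in atTop, (val j 𝒯 w - ε) * (n : ℝ) ^ j ≤ (cMax L n : ℝ) := by
  have : NeZero j := ⟨by omega⟩
  have hjpos : (0 : ℝ) < j := by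
    have : 0 < j := by omega
    exact_mod_cast this
  have key : ∀ m : ℕ, (∑ f : {f : ZMod j → Fin s // Function.Injective f},
        ∏ i, ((∑ T ∈ 𝒯 with f.1 i ∈ T ∧ f.1 (i + 1) ∈ T, ⌊w T * (m : ℝ)⌋₊ : ℕ) : ℝ)) -
      (s : ℝ) ^ j * ((j : ℝ) ^ 2 * ((∑ T ∈ 𝒯, ⌊w T * (m : ℝ)⌋₊ : ℕ) : ℝ) ^ (j - 1)) ≤
      2 * j * (cMax L (m + s) : ℝ) := by
    intro m
    refine (lowG_count hj 𝒯 (fun T => ⌊w T * (m : ℝ)⌋₊)).trans ?_
    have hL : IsLCycleGraph L (lowG 𝒯 (fun T => ⌊w T * (m : ℝ)⌋₊)) :=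
      isLCycle_iff.2 (lowG_cyc hA (fun T => ⌊w T * (m : ℝ)⌋₊))
    have hs : ∑ T ∈ 𝒯, ⌊w T * (m : ℝ)⌋₊ ≤ m := by
      have h : ((∑ T ∈ 𝒯, ⌊w T * (m : ℝ)⌋₊ : ℕ) : ℝ) ≤ (m : ℝ) := by
        push_cast
        calc ∑ T ∈ 𝒯, ((⌊w T * (m : ℝ)⌋₊ : ℕ) : ℝ) ≤ ∑ T ∈ 𝒯, w T * m :=
              Finset.sum_le_sum fun T _ =>
                Nat.floor_le (mul_nonneg (h0 T) (Nat.cast_nonneg m))
          _ = (∑ T ∈ 𝒯, w T) * m := (Finset.sum_mul ..).symm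
          _ ≤ 1 * m := mul_le_mul_of_nonneg_right h1 (Nat.cast_nonneg m)
          _ = m := one_mul _
      exact_mod_cast h
    have hc : Fintype.card (Fin s ⊕ (Σ T : {T // T ∈ 𝒯},
        Fin ((fun T => ⌊w T * (m : ℝ)⌋₊) T.1))) ≤ m + s := by
      rw [Fintype.card_sum, Fintype.card_sigma, Fintype.card_fin]
      simp only [Fintype.card_fin]
      rw [Finset.sum_coe_sort 𝒯 (fun T => ⌊w T * (m : ℝ)⌋₊)]
      omega
    have h := ncard_le_cMax hc hL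
    have h' : ((cycles (lowG 𝒯 (fun T => ⌊w T * (m : ℝ)⌋₊))).ncard : ℝ) ≤
      (cMax L (m + s) : ℝ) := by exact_mod_cast h
    exact mul_le_mul_of_nonneg_left h' (by positivity)
  have hlt : 2 * (j : ℝ) * (val j 𝒯 w - ε) < 2 * j * val j 𝒯 w := by
    nlinarith
  have hev := (lower_lim (j := j) 𝒯 h0).eventually (lt_mem_nhds hlt)
  obtain ⟨M, hM⟩ := eventually_atTop.1 hev
  refine eventually_atTop.2 ⟨M + 1 + s, fun n hn => ?_⟩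
  obtain ⟨m, rfl⟩ : ∃ m, n = m + s := ⟨n - s, by omega⟩
  have hm : M + 1 ≤ m := by omega
  have h2 := hM m (by omega)
  have hmpos : (0 : ℝ) < (m : ℝ) + s := by
    have : 0 < m := by omega
    have : (0 : ℝ) < m := by exact_mod_cast this
    positivity
  rw [lt_div_iff₀ (pow_pos hmpos j)] at h2
  have h3 := h2.le.trans (key m)
  have h4 : 2 * (j : ℝ) * ((val j 𝒯 w - ε) * ((m : ℝ) + s) ^ j) ≤ 2 * j * (cMax L (m + s) : ℝ) := by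
    calc _ = 2 * (j : ℝ) * (val j 𝒯 w - ε) * ((m : ℝ) + s) ^ j := by ring
      _ ≤ _ := h3
  have h5 := le_of_mul_le_mul_left h4 (by positivity)
  push_cast
  exact h5

end Pool.Agent.H3.LC
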