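import Pool.Agent.H3.LC.Glue

/-!
# Many cycles of length r with one common vertex (module OddL, about 170 lines)

`wind N r`: a centre `none` and `N` blades; blade `i` has the vertices `(i, 0), ..., (i, r - 2)`,
consecutive ones adjacent, and `(i, 0)`, `(i, r - 2)` are adjacent to the centre.

`wind_cyc`: let `IsCyc (wind N r) f`, `3 ≤ m`. (1) Some `f i = none`: otherwise all `f i` are
`some (b i, a i)`; adjacency preserves the blade; let `i` have maximal `a i`; `f (i - 1)` and
`f (i + 1)` are both `some (b i, a i - 1)`, but they are different (`2 ≠ 0` in `ZMod m`, `m ≥ 3`).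
(2) Rotate such that `f 0 = none` (replace `f` by `f (· + i)`); `f 1 = some (b, 0)` or
`some (b, r - 2)`; in the second case replace the second coordinate by `r - 2 - a` (an automorphism of
`wind N r`), so assume `f 1 = some (b, 0)`. (3) By induction `f t = some (b, t - 1)` for
`1 ≤ t ≤ r - 1`: `f (t + 1)` is adjacent to `some (b, t - 1)`, different from `f (t - 1)`; for
`2 ≤ t < r - 1` the only other neighbour is `some (b, t)`, and for `t = 1` the neighbours are `none`
(which is `f 0`) and `some (b, 1)`. (4) `f r` is a neighbour of `some (b, r - 2)` different from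
`f (r - 2)`, hence `none = f 0`; since `f` is injective `r = 0` in `ZMod m`, `m ∣ r`; the values
`f 0, ..., f (r - 1)` being different, `r ≤ m`. So `m = r`.

`wind_many`: for `i : Fin N` the map `g i : ZMod r → Option (Fin N × Fin (r - 1))`, `0 ↦ none`,
`t ↦ some (i, t - 1)` is `IsCyc`; its edge set contains `s(none, some (i, 0))` and no edge at another
blade, so the `N` edge sets are different members of `cycles (wind N r)` (`mem_cycles_iff`).
-/

namespace Pool.Agent.H3.LC

open SimpleGraph

/-- `N` cycles of length `r` with exactly one common vertex `none`. -/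
def wind (N r : ℕ) : SimpleGraph (Option (Fin N × Fin (r - 1))) :=
  SimpleGraph.fromRel fun p q => match p, q with
    | none, some y => y.2.val = 0 ∨ y.2.val + 2 = r
    | some x, some y => x.1 = y.1 ∧ x.2.val + 1 = y.2.val
    | _, _ => False

private theorem wind_none {N r : ℕ} (y : Fin N × Fin (r - 1)) :
    (wind N r).Adj none (some y) ↔ y.2.val = 0 ∨ y.2.val + 2 = r := by
  simp [wind]

private theorem wind_none' {N r : ℕ} (y : Fin N × Fin (r - 1)) :
    (wind N r).Adj (some y) none ↔ y.2.val = 0 ∨ y.2.val + 2 = r := by
  rw [SimpleGraph.adj_comm, wind_none]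

private theorem wind_some {N r : ℕ} (x y : Fin N × Fin (r - 1)) :
    (wind N r).Adj (some x) (some y) ↔
      x.1 = y.1 ∧ (x.2.val + 1 = y.2.val ∨ y.2.val + 1 = x.2.val) := by
  obtain ⟨b, a⟩ := x
  obtain ⟨b', a'⟩ := y
  simp only [wind, SimpleGraph.fromRel_adj]
  constructor
  · rintro ⟨-, h | h⟩
    · exact ⟨h.1, Or.inl h.2⟩
    · exact ⟨h.1.symm, Or.inr h.2⟩
  · rintro ⟨h1, h2⟩
    refine ⟨?_, ?_⟩
    · intro h3
      simp only [Option.some.injEq, Prod.mk.injEq] at h3
      have h4 := congrArg Fin.val h3.2
      omega
    · rcases h2 with h2 | h2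
      · exact Or.inl ⟨h1, h2⟩
      · exact Or.inr ⟨h1.symm, h2⟩

private theorem two_ne {m : ℕ} (hm : 3 ≤ m) : ((2 : ℕ) : ZMod m) ≠ 0 := by
  intro h
  rw [ZMod.natCast_eq_zero_iff] at h
  have := Nat.le_of_dvd (by norm_num) h
  omega

private theorem wind_core {N r : ℕ} (hr : 3 ≤ r) (m : ℕ)
    (f : ZMod m → Option (Fin N × Fin (r - 1))) (hm : 3 ≤ m) (hf : IsCyc (wind N r) f)
    (h0 : f 0 = none) (b : Fin N) (h1 : f 1 = some (b, ⟨0, by omega⟩)) : m = r := by
  have h2m := two_ne hm
  -- a step back is impossible
  have hback : ∀ t : ℕ, f ((t + 2 : ℕ) : ZMod m) ≠ f ((t : ℕ) : ZMod m) := by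
    intro t h
    have h3 := hf.1 h
    apply h2m
    push_cast at h3 ⊢
    linear_combination h3
  have hadj : ∀ t : ℕ, (wind N r).Adj (f ((t : ℕ) : ZMod m)) (f ((t + 1 : ℕ) : ZMod m)) := by
    intro t
    have := hf.2 (t : ZMod m)
    push_cast
    exact this
  have hP : ∀ t : ℕ, ∀ ht : t < r - 1, f ((t + 1 : ℕ) : ZMod m) = some (b, ⟨t, ht⟩) := by
    intro t
    induction t using Nat.strong_induction_on with
    | _ t ih =>
      intro ht
      rcases Nat.eq_zero_or_pos t with ht0 | ht0
      · subst ht0
        simpa using h1
      · obtain ⟨s, rfl⟩ : ∃ s, t = s + 1 := ⟨t - 1, by omega⟩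
        have h3 := ih s (by omega) (by omega)
        have h4 := hadj (s + 1)
        rw [h3] at h4
        have h5 := hback s
        rcases hx : f ((s + 1 + 1 : ℕ) : ZMod m) with _ | ⟨b', a'⟩
        · rw [hx, wind_none'] at h4
          rcases h4 with h4 | h4
          · simp only at h4
            subst h4
            exfalso
            apply h5
            rw [show (0 + 2 : ℕ) = 0 + 1 + 1 from rfl, hx]
            simpa using h0.symm
          · simp only at h4
            omega
        · rw [hx, wind_some] at h4
          simp only at h4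
          obtain ⟨h6, h7⟩ := h4
          subst h6
          rcases h7 with h7 | h7
          · congr 2
            exact Fin.ext h7.symm
          · exfalso
            obtain ⟨u, rfl⟩ : ∃ u, s = u + 1 := ⟨s - 1, by omega⟩
            have h8 := ih u (by omega) (by omega)
            apply h5
            rw [h8, show (u + 1 + 2 : ℕ) = u + 1 + 1 + 1 from rfl, hx]
            congr 2
            apply Fin.ext
            simp only
            omega
  have hlast : f ((r : ℕ) : ZMod m) = none := by
    obtain ⟨s, rfl⟩ : ∃ s, r = s + 3 := ⟨r - 3, by omega⟩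
    have h3 := hP (s + 1) (by omega)
    have h4 := hP s (by omega)
    have h5 := hadj (s + 1 + 1)
    rw [h3] at h5
    have h6 := hback (s + 1)
    rcases hx : f ((s + 1 + 1 + 1 : ℕ) : ZMod m) with _ | ⟨b', a'⟩
    · rfl
    · exfalso
      rw [hx, wind_some] at h5
      simp only at h5
      obtain ⟨h7, h8⟩ := h5
      subst h7
      have h9 := a'.2
      rcases h8 with h8 | h8
      · omega
      · apply h6
        refine Eq.trans hx (Eq.trans ?_ h4.symm)
        congr 2
        apply Fin.ext
        simp only
        omega
  have hdvd : m ∣ r := by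
    rw [← ZMod.natCast_eq_zero_iff]
    apply hf.1
    rw [hlast, h0]
  have hle := Nat.le_of_dvd (by omega) hdvd
  by_contra hne
  have h3 := hP (m - 1) (by omega)
  rw [show m - 1 + 1 = m by omega, ZMod.natCast_self, h0] at h3
  exact absurd h3 (by simp)

theorem wind_cyc {N r : ℕ} (hr : 3 ≤ r) (m : ℕ) (f : ZMod m → Option (Fin N × Fin (r - 1)))
    (hm : 3 ≤ m) (hf : IsCyc (wind N r) f) : m = r := by
  have h2m := two_ne hm
  have : NeZero m := ⟨by omega⟩
  -- the centre is used
  have hex : ∃ i, f i = none := by
    by_contra hcon
    push Not at hcon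
    have hsome : ∀ i, ∃ y, f i = some y := fun i => Option.ne_none_iff_exists'.1 (hcon i)
    choose y hy using hsome
    obtain ⟨i, -, hi⟩ := Finset.exists_max_image Finset.univ (fun i => (y i).2.val)
      ⟨0, Finset.mem_univ _⟩
    have h1 := hf.2 i
    have h2 := hf.2 (i - 1)
    rw [sub_add_cancel] at h2
    rw [hy, hy, wind_some] at h1 h2
    have h3 := hi (i + 1) (Finset.mem_univ _)
    have h4 := hi (i - 1) (Finset.mem_univ _)
    have h5 : y (i + 1) = y (i - 1) := by
      apply Prod.ext
      · rw [← h1.1, h2.1]
      · apply Fin.ext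
        have := h1.2
        have := h2.2
        omega
    have h6 : i + 1 = i - 1 := by
      apply hf.1
      rw [hy, hy, h5]
    apply h2m
    push_cast
    linear_combination h6
  obtain ⟨i, hi⟩ := hex
  -- start at the centre
  have hg : IsCyc (wind N r) (fun t => f (i + t)) := by
    refine ⟨fun s t hst => ?_, fun t => ?_⟩
    · have := hf.1 hst
      exact add_left_cancel this
    · have := hf.2 (i + t)
      rw [add_assoc] at this
      exact this
  have hg0 : (fun t => f (i + t)) 0 = none := by
    simpa using hi
  generalize (fun t => f (i + t)) = g at hg hg0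
  have hg1 := hg.2 0
  rw [hg0, zero_add] at hg1
  rcases hx : g 1 with _ | ⟨b, a⟩
  · rw [hx] at hg1
    exact absurd hg1 (SimpleGraph.irrefl _)
  · rw [hx, wind_none] at hg1
    simp only at hg1
    rcases hg1 with h1 | h1
    · apply wind_core hr m g hm hg hg0 b
      rw [hx]
      congr 2
      exact Fin.ext h1
    · -- reverse the blades
      apply wind_core hr m (fun t => (g t).map fun y => (y.1, Fin.rev y.2)) hm ?_ ?_ b ?_
      · refine ⟨?_, ?_⟩
        · have hinj : Function.Injective
              (fun y : Fin N × Fin (r - 1) => (y.1, Fin.rev y.2)) := by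
            rintro ⟨b1, a1⟩ ⟨b2, a2⟩ h
            simp only [Prod.mk.injEq, Fin.rev_inj] at h
            rw [h.1, h.2]
          exact (Option.map_injective hinj).comp hg.1
        · intro t
          have h2 := hg.2 t
          rcases h3 : g t with _ | ⟨b1, a1⟩ <;> rcases h4 : g (t + 1) with _ | ⟨b2, a2⟩
          · rw [h3, h4] at h2
            exact absurd h2 (SimpleGraph.irrefl _)
          · rw [h3, h4, wind_none] at h2
            simp only [h3, h4, Option.map_none, Option.map_some, wind_none, Fin.val_rev]
            simp only at h2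
            have := a2.2
            omega
          · rw [h3, h4, wind_none'] at h2
            simp only [h3, h4, Option.map_none, Option.map_some, wind_none', Fin.val_rev]
            simp only at h2
            have := a1.2
            omega
          · rw [h3, h4, wind_some] at h2
            simp only [h3, h4, Option.map_some, wind_some, Fin.val_rev]
            simp only at h2
            refine ⟨h2.1, ?_⟩
            have := a1.2
            have := a2.2
            omega
      · simp [hg0]
      · simp only [hx, Option.map_some]
        congr 2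
        apply Fin.ext
        simp only [Fin.val_rev]
        omega

theorem wind_many {N r : ℕ} (hr : 3 ≤ r) : N ≤ (cycles (wind N r)).ncard := by
  have : NeZero r := ⟨by omega⟩
  have : Fact (1 < r) := ⟨by omega⟩
  let g : Fin N → ZMod r → Option (Fin N × Fin (r - 1)) := fun i t =>
    if h : t.val = 0 then none else some (i, ⟨t.val - 1, by have := ZMod.val_lt t; omega⟩)
  have hgs : ∀ i t, t.val = 0 → g i t = none := by
    intro i t h
    simp only [g, dif_pos h]
  have hgn : ∀ i t, ∀ h : t.val ≠ 0,
      g i t = some (i, ⟨t.val - 1, by have := ZMod.val_lt t; omega⟩) := by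
    intro i t h
    simp only [g, dif_neg h]
  have hval : ∀ t : ZMod r, (t + 1).val = (t.val + 1) % r := by
    intro t
    rw [ZMod.val_add, ZMod.val_one]
  have hg : ∀ i, IsCyc (wind N r) (g i) := by
    intro i
    refine ⟨?_, ?_⟩
    · intro s t hst
      apply ZMod.val_injective r
      by_cases hs : s.val = 0 <;> by_cases ht : t.val = 0
      · rw [hs, ht]
      · rw [hgs i s hs, hgn i t ht] at hst
        exact absurd hst (by simp)
      · rw [hgs i t ht, hgn i s hs] at hst
        exact absurd hst (by simp)
      · rw [hgn i s hs, hgn i t ht] at hst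
        simp only [Option.some.injEq, Prod.mk.injEq, Fin.mk.injEq, true_and] at hst
        omega
    · intro t
      have ht := ZMod.val_lt t
      have h1 := hval t
      by_cases h2 : t.val + 1 = r
      · rw [h2, Nat.mod_self] at h1
        rw [hgs i _ h1, hgn i t (by omega), wind_none']
        simp only
        omega
      · rw [Nat.mod_eq_of_lt (by omega)] at h1
        by_cases h3 : t.val = 0
        · rw [hgs i _ h3, hgn i _ (by omega), wind_none]
          simp only
          omega
        · rw [hgn i _ h3, hgn i _ (by omega), wind_some]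
          simp only [true_and]
          omega
  have hmem : ∀ i, cedges (g i) ∈ cycles (wind N r) := fun i =>
    mem_cycles_iff.2 ⟨r, g i, hr, hg i, rfl⟩
  have hinj : Function.Injective fun i => cedges (g i) := by
    intro i j hij
    have h1 : s(none, some (i, ⟨0, by omega⟩)) ∈ cedges (g i) := by
      refine ⟨0, ?_⟩
      have h2 := hval 0
      rw [ZMod.val_zero, Nat.mod_eq_of_lt (by omega)] at h2
      rw [hgs i 0 ZMod.val_zero, hgn i _ (by omega)]
      congr 4
      omega
    have h2 : s(none, some (i, ⟨0, by omega⟩)) ∈ cedges (g j) := by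
      have hij' : cedges (g i) = cedges (g j) := hij
      rw [← hij']
      exact h1
    obtain ⟨k, hk⟩ := h2
    have h3 : some (i, (⟨0, by omega⟩ : Fin (r - 1))) ∈ s(g j k, g j (k + 1)) := by
      rw [← hk]
      exact Sym2.mem_mk_right _ _
    rw [Sym2.mem_iff] at h3
    have h4 : ∀ t, some (i, (⟨0, by omega⟩ : Fin (r - 1))) = g j t → i = j := by
      intro t ht
      by_cases h5 : t.val = 0
      · rw [hgs j t h5] at ht
        exact absurd ht (by simp)
      · rw [hgn j t h5] at ht
        simp only [Option.some.injEq, Prod.mk.injEq] at ht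
        exact ht.1
    rcases h3 with h3 | h3
    · exact h4 _ h3
    · exact h4 _ h3
  have h1 : (Set.range fun i => cedges (g i)).ncard = N := by
    rw [← Set.image_univ, Set.ncard_image_of_injective _ hinj, Set.ncard_univ, Nat.card_fin]
  refine le_of_eq_of_le h1.symm ?_
  apply Set.ncard_le_ncard
  · rintro _ ⟨i, rfl⟩
    exact hmem i
  · exact Set.toFinite _

end Pool.Agent.H3.LC
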