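import Pool.Agent.H3.LC.OddT
import Pool.Agent.H3.LC.Defs

/-!
# Upper bound for graphs with odd cycles only (module OddU, about 110 lines)

Proof: by `even_cycle_of_two` different members of `cycles G` are disjoint as edge sets. Choose
`ch E ∈ E` for every `E ∈ cycles G` (cycles have edges). Let `G' = G.deleteEdges (ch '' cycles G)`. It
is acyclic: a cycle of `G'` is a cycle of `G` (`Walk.mapLe`), its edge set `E` is in `cycles G` and
contains `ch E`, which is no edge of `G'`. So `G'` has at most `card V - 1` edges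
(`Connected.exists_isTree_le_of_le_of_isAcyclic` in `⊤` and `IsTree.card_edgeFinset`). On the other
hand `G` has at least `r * N` edges, `N = (cycles G).ncard` (disjoint sets of at least `r` edges: the
number of edges of a cycle is its length, `IsCycle` is a trail, `edges_nodup`), and `ch` is injective,
so `G'` has `#edges G - N` edges. Hence `r N - N ≤ card V - 1`.
-/

namespace Pool.Agent.H3.LC

open SimpleGraph

theorem odd_upper {V : Type*} [Fintype V] [Nonempty V] {G : SimpleGraph V} {r : ℕ}
    (h : ∀ (u : V) (p : G.Walk u u), p.IsCycle → Odd p.length ∧ r ≤ p.length) :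
    (cycles G).ncard * (r - 1) + 1 ≤ Fintype.card V := by
  classical
  have hfin : (cycles G).Finite := Set.toFinite _
  -- different cycles have no common edge
  have hdis : ∀ E ∈ cycles G, ∀ E' ∈ cycles G, ∀ e, e ∈ E → e ∈ E' → E = E' := by
    rintro E ⟨u, p, hp, rfl⟩ E' ⟨v, q, hq, rfl⟩ e he he'
    by_contra hne
    obtain ⟨w, c, hc, hev⟩ := even_cycle_of_two hp hq he he' hne (h u p hp).1
    exact (Nat.not_even_iff_odd.2 (h w c hc).1) hev
  have hne : ∀ E ∈ cycles G, E.Nonempty := by
    rintro E ⟨u, p, hp, rfl⟩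
    cases p with
    | nil => exact absurd rfl hp.ne_nil
    | @cons _ v _ hh q => exact ⟨s(u, v), by simp⟩
  have : Nonempty (Sym2 V) := by
    obtain ⟨v⟩ := (inferInstance : Nonempty V)
    exact ⟨s(v, v)⟩
  choose! ch hch using hne
  have hcard : ∀ E ∈ cycles G, r - 1 ≤ (Finset.univ.filter fun e => e ∈ E ∧ e ≠ ch E).card := by
    rintro E hE
    obtain ⟨u, p, hp, hEp⟩ := id hE
    have h1 : p.edges.toFinset ⊆ insert (ch E) (Finset.univ.filter fun e => e ∈ E ∧ e ≠ ch E) := by
      intro e he
      rw [List.mem_toFinset] at he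
      rw [Finset.mem_insert, Finset.mem_filter]
      by_cases h2 : e = ch E
      · exact Or.inl h2
      · refine Or.inr ⟨Finset.mem_univ _, ?_, h2⟩
        rw [hEp]
        exact he
    have h2 := Finset.card_le_card h1
    rw [List.toFinset_card_of_nodup hp.isTrail.edges_nodup, Walk.length_edges] at h2
    have h3 := Finset.card_insert_le (ch E) (Finset.univ.filter fun e => e ∈ E ∧ e ≠ ch E)
    have h4 := (h u p hp).2
    omega
  set G' := G.deleteEdges (ch '' cycles G) with hG'
  have hac : G'.IsAcyclic := by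
    intro u p hp
    have hle : G' ≤ G := G.deleteEdges_le _
    have hp' : (p.mapLe hle).IsCycle := hp.mapLe hle
    have hE : {e | e ∈ p.edges} ∈ cycles G := by
      refine ⟨u, _, hp', ?_⟩
      rw [Walk.edges_mapLe_eq_edges]
    have h2 : ch {e | e ∈ p.edges} ∈ p.edges := hch _ hE
    have h3 : ch {e | e ∈ p.edges} ∈ G.edgeSet \ (ch '' cycles G) := by
      rw [← edgeSet_deleteEdges]
      exact p.edges_subset_edgeSet h2
    exact h3.2 ⟨_, hE, rfl⟩
  obtain ⟨T, hT1, -, hT2⟩ :=
    (connected_top (V := V)).exists_isTree_le_of_le_of_isAcyclic le_top hac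
  have hT3 := hT2.card_edgeFinset
  have hbi : (hfin.toFinset.biUnion fun E => Finset.univ.filter fun e => e ∈ E ∧ e ≠ ch E) ⊆
      T.edgeFinset := by
    intro e he
    rw [Finset.mem_biUnion] at he
    obtain ⟨E, hE, he⟩ := he
    rw [Set.Finite.mem_toFinset] at hE
    rw [Finset.mem_filter] at he
    rw [mem_edgeFinset]
    apply edgeSet_mono hT1
    rw [hG', edgeSet_deleteEdges]
    refine ⟨?_, ?_⟩
    · obtain ⟨u, p, hp, hEp⟩ := id hE
      have h1 := he.2.1
      rw [hEp] at h1
      exact p.edges_subset_edgeSet h1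
    · rintro ⟨E', hE', he'⟩
      have h1 : E' = E := hdis E' hE' E hE e (he' ▸ hch E' hE') he.2.1
      subst h1
      exact he.2.2 he'.symm
  have hsum := Finset.card_biUnion (s := hfin.toFinset)
    (t := fun E => Finset.univ.filter fun e => e ∈ E ∧ e ≠ ch E) (by
      intro E hE E' hE' hEE
      rw [Finset.mem_coe, Set.Finite.mem_toFinset] at hE hE'
      rw [Function.onFun, Finset.disjoint_left]
      intro e he he'
      rw [Finset.mem_filter] at he he'
      exact hEE (hdis E hE E' hE' e he.2.1 he'.2.1))
  have hle := Finset.card_le_card hbi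
  rw [hsum] at hle
  have hlow : hfin.toFinset.card * (r - 1) ≤
      ∑ E ∈ hfin.toFinset, (Finset.univ.filter fun e => e ∈ E ∧ e ≠ ch E).card := by
    rw [← smul_eq_mul]
    apply Finset.card_nsmul_le_sum
    intro E hE
    rw [Set.Finite.mem_toFinset] at hE
    exact hcard E hE
  rw [Set.ncard_eq_toFinset_card _ hfin]
  omega

end Pool.Agent.H3.LC
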