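import Pool.Agent.H3.LC.Upper
import Pool.Agent.H3.LC.Lower
import Pool.Agent.H3.LC.EvA
import Pool.Agent.H3.LC.EvB
import Pool.Agent.H3.LC.EvC
import Pool.Agent.H3.LC.OddU
import Pool.Agent.H3.LC.OddL

/-!
# The asymptotics of c(L, n)
-/

namespace Pool.Agent.H3.LC

open SimpleGraph Filter Topology

theorem le_gam {L : Finset ℕ} {j : ℕ} (hj : 2 ≤ j) (hmax : ∀ x ∈ L, x ≤ 2 * j) {s : ℕ}
    {𝒯 : Finset (Finset (Fin s))} {w : Finset (Fin s) → ℝ} (hA : Admissible L 𝒯)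
    (h0 : ∀ T, 0 ≤ w T) (h1 : ∑ T ∈ 𝒯, w T ≤ 1) : val j 𝒯 w ≤ gam L j :=
  val_le_gam hj (fun h => by have := hmax _ h; omega) hA h0 h1

theorem gam_nonempty (L : Finset ℕ) (j : ℕ) :
    {r | ∃ (s : ℕ) (𝒯 : Finset (Finset (Fin s))) (w : Finset (Fin s) → ℝ),
      Admissible L 𝒯 ∧ (∀ T, 0 ≤ w T) ∧ ∑ T ∈ 𝒯, w T ≤ 1 ∧ r = val j 𝒯 w}.Nonempty := by
  refine ⟨_, 0, ∅, fun _ => 0, ?_, fun _ => le_rfl, by simp, rfl⟩
  intro m hm f
  exact (f 0).elim0

theorem gam_le {L : Finset ℕ} {j : ℕ} {B : ℝ}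
    (h : ∀ (s : ℕ) (𝒯 : Finset (Finset (Fin s))) (w : Finset (Fin s) → ℝ),
      Admissible L 𝒯 → (∀ T, 0 ≤ w T) → ∑ T ∈ 𝒯, w T ≤ 1 → val j 𝒯 w ≤ B) : gam L j ≤ B := by
  refine csSup_le (gam_nonempty L j) ?_
  rintro r ⟨s, 𝒯, w, hA, h0, h1, rfl⟩
  exact h s 𝒯 w hA h0 h1

theorem tendsto_gam {L : Finset ℕ} {j : ℕ} (hj : 2 ≤ j) (hmax : ∀ x ∈ L, x ≤ 2 * j) :
    Tendsto (fun n : ℕ => (cMax L n : ℝ) / (n : ℝ) ^ j) atTop (𝓝 (gam L j)) := by
  rw [Metric.tendsto_atTop]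
  intro ε hε
  obtain ⟨C, hC⟩ := upper hj hmax (half_pos (half_pos hε))
  obtain ⟨r, ⟨s, 𝒯, w, hA, h0, h1, rfl⟩, hr⟩ := exists_lt_of_lt_csSup (gam_nonempty L j)
    (show gam L j - ε / 2 < gam L j by linarith)
  have hlow := lower hj hA h0 h1 (half_pos (half_pos hε))
  have hC2 : ∀ᶠ n : ℕ in atTop, C / (n : ℝ) < ε / 2 / 2 := by
    have h := tendsto_const_div_atTop_nhds_zero_nat C
    exact h.eventually (gt_mem_nhds (by positivity))
  obtain ⟨N, hN⟩ := eventually_atTop.1 ((hlow.and hC2).and (eventually_ge_atTop 1))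
  refine ⟨N, fun n hn => ?_⟩
  obtain ⟨⟨hl, hc⟩, hn1⟩ := hN n hn
  have hn0 : (0 : ℝ) < n := by exact_mod_cast hn1
  obtain ⟨G, hG, hGc⟩ := exists_cMax L n
  have hu := hC n hn1 G hG
  rw [hGc] at hu
  have hp : (0 : ℝ) < (n : ℝ) ^ j := by positivity
  have hpow : (n : ℝ) ^ j = (n : ℝ) ^ (j - 1) * n := by
    rw [← pow_succ, show j - 1 + 1 = j by omega]
  have hu2 : (cMax L n : ℝ) / (n : ℝ) ^ j ≤ gam L j + ε / 2 / 2 + C / n := by
    rw [div_le_iff₀ hp]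
    refine hu.trans (le_of_eq ?_)
    rw [hpow]
    field_simp
  have hl2 : val j 𝒯 w - ε / 2 / 2 ≤ (cMax L n : ℝ) / (n : ℝ) ^ j := by
    rw [le_div_iff₀ hp]
    exact hl
  rw [Real.dist_eq, abs_lt]
  constructor <;> linarith

theorem gam_full {L : Finset ℕ} {j : ℕ} (hj : 2 ≤ j) (hmax : ∀ x ∈ L, x ≤ 2 * j)
    (h : ∀ i, 2 ≤ i → i ≤ j → 2 * i ∈ L) : gam L j = ((j - 1).factorial : ℝ) / 2 := by
  apply le_antisymm
  · refine gam_le fun s 𝒯 w hA h0 h1 => val_le hj (fun h => ?_) hA h0 h1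
    have := hmax _ h
    omega
  · rw [← val_full (by omega : 1 ≤ j)]
    exact le_gam hj hmax (admissible_full h) (fun _ => zero_le_one) (by simp)

theorem gam_dag {L : Finset ℕ} {j : ℕ} (hj : 4 ≤ j) (hmax : ∀ x ∈ L, x ≤ 2 * j) (h4 : 4 ∈ L)
    (h2 : 2 * j ∈ L)
    (hdag : ∀ a b : ℕ, 1 ≤ a → 1 ≤ b → a + b + 1 = j →
      ¬ (6 ∈ L ∧ 2 * (a + 1) ∈ L ∧ 2 * (a + 2) ∈ L ∧ 2 * (b + 1) ∈ L ∧ 2 * (b + 2) ∈ L)) :
    gam L j = 1 / (j : ℝ) ^ j := by
  apply le_antisymm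
  · refine gam_le fun s 𝒯 w hA h0 h1 => val_le_dag hj (fun h => ?_) hdag hA h0 h1
    have := hmax _ h
    omega
  · refine (val_cyc (by omega : 3 ≤ j)).trans ?_
    refine le_gam (by omega) hmax (admissible_cyc (by omega) h4 h2) (fun _ => by positivity) ?_
    rw [Finset.sum_const, nsmul_eq_mul]
    have h1 : (cycFam j).card ≤ j := by
      refine Finset.card_image_le.trans ?_
      simp
    have hj0 : (0 : ℝ) < j := by exact_mod_cast (by omega : 0 < j)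
    rw [mul_one_div, div_le_one hj0]
    exact_mod_cast h1

theorem odd_case {L : Finset ℕ} (hL : L.Nonempty) (hodd : ∀ x ∈ L, 3 ≤ x ∧ Odd x) (n : ℕ) :
    cMax L n = (n - 1) / (L.min' hL - 1) := by
  set r := L.min' hL with hr
  have hrL : r ∈ L := L.min'_mem hL
  have hr3 : 3 ≤ r := (hodd r hrL).1
  apply le_antisymm
  · apply cMax_le
    intro G hG
    rcases Nat.eq_zero_or_pos n with rfl | hn
    · have h1 : cycles G = ∅ := by
        ext E
        constructor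
        · rintro ⟨u, -⟩
          exact u.elim0
        · intro h
          exact h.elim
      rw [h1]
      simp
    · have : Nonempty (Fin n) := ⟨⟨0, hn⟩⟩
      have h1 := odd_upper (G := G) (r := r) (fun u p hp =>
        ⟨(hodd _ (hG u p hp)).2, L.min'_le _ (hG u p hp)⟩)
      rw [Fintype.card_fin] at h1
      rw [Nat.le_div_iff_mul_le (by omega)]
      omega
  · rcases Nat.eq_zero_or_pos n with rfl | hn
    · simp
    · set N := (n - 1) / (r - 1) with hN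
      refine (wind_many (N := N) hr3).trans ?_
      refine ncard_le_cMax ?_ ?_
      · rw [Fintype.card_option, Fintype.card_prod, Fintype.card_fin, Fintype.card_fin]
        have h1 := Nat.div_mul_le_self (n - 1) (r - 1)
        rw [← hN] at h1
        omega
      · rw [isLCycle_iff]
        intro m f hm hf
        rw [wind_cyc hr3 m f hm hf]
        exact hrL

end Pool.Agent.H3.LC
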