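import Pool.Agent.H3.LC.CycA
import Pool.Agent.H3.LC.CycB

/-!
# Cycles and cyclic sequences
-/

namespace Pool.Agent.H3.LC

open SimpleGraph

variable {V : Type*} {G : SimpleGraph V} {L : Finset ℕ}

theorem isLCycle_iff : IsLCycleGraph L G ↔
    ∀ (m : ℕ) (f : ZMod m → V), 3 ≤ m → IsCyc G f → m ∈ L := by
  constructor
  · intro h m f hm hf
    obtain ⟨u, p, hp, hl, -⟩ := exists_walk hm f hf
    rw [← hl]
    exact h u p hp
  · intro h u p hp
    obtain ⟨f, hf, -⟩ := exists_cyc p hp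
    exact h _ f hp.three_le_length hf

theorem mem_cycles_iff {E : Set (Sym2 V)} : E ∈ cycles G ↔
    ∃ (m : ℕ) (f : ZMod m → V), 3 ≤ m ∧ IsCyc G f ∧ cedges f = E := by
  constructor
  · rintro ⟨u, p, hp, rfl⟩
    obtain ⟨f, hf, he⟩ := exists_cyc p hp
    exact ⟨_, f, hp.three_le_length, hf, he⟩
  · rintro ⟨m, f, hm, hf, rfl⟩
    obtain ⟨u, p, hp, -, he⟩ := exists_walk hm f hf
    exact ⟨u, p, hp, he.symm⟩

end Pool.Agent.H3.LC
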