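import Pool.Agent.H3.LC.Base
import Pool.Agent.H3.LC.ValZ

/-!
# Counting the good pairs (module GoodA, about 130 lines)

Let `n = Fintype.card V` and `wt T` the number of `v ∉ Set.range e` with `typ G e v = T`, divided by
`n`. `sum_wt_le`: the sets are disjoint subsets of `V`.

`card_good_le`: for `(x, v) ∈ goodPairs G e q` write `x = e ∘ f` with `f : ZMod q → Fin s` injective;
`v i` is in `N i = {u ∉ Set.range e | typ G e u ∈ thick G e ∧ f i ∈ typ G e u ∧ f (i+1) ∈ typ G e u}`
(`f a ∈ typ G e u ↔ G.Adj u (e (f a))`). So `#good ≤ ∑ f, ∏ i, #(N i)` (inject the pair into the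
sigma type of `f` and functions `i ↦ v i ∈ N i`; `Set.ncard_pi`-like or `Fintype.card_piFinset`), and
`#(N i) = ∑ T ∈ thick with f i ∈ T ∧ f (i+1) ∈ T, #{u ∉ range e | typ u = T} =
n * pw (thick G e) wt (f i) (f (i + 1))`. The product has `q` factors: `n ^ q` comes out, and
`val_eq` (with `NeZero q`) gives the claim. For `n = 0` both sides are `0` (`V` is empty, `q ≥ 1`).
-/

namespace Pool.Agent.H3.LC

open SimpleGraph

/-- The proportion of the vertices which are no hubs and have type `T`. -/
noncomputable def wt {V : Type*} (G : SimpleGraph V) {s : ℕ} (e : Fin s → V)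
    (T : Finset (Fin s)) : ℝ :=
  ({v | v ∉ Set.range e ∧ typ G e v = T}.ncard : ℝ) / (Nat.card V : ℝ)

theorem wt_nonneg {V : Type*} (G : SimpleGraph V) {s : ℕ} (e : Fin s → V) (T : Finset (Fin s)) :
    0 ≤ wt G e T := by
  unfold wt; positivity

theorem sum_wt_le {V : Type*} [Finite V] (G : SimpleGraph V) {s : ℕ} (e : Fin s → V)
    (𝒯 : Finset (Finset (Fin s))) : ∑ T ∈ 𝒯, wt G e T ≤ 1 := by
  classical
  have := Fintype.ofFinite V
  have h1 : ∑ T ∈ 𝒯, (Finset.univ.filter fun v => v ∉ Set.range e ∧ typ G e v = T).card ≤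
      Fintype.card V := by
    rw [← Finset.card_biUnion]
    · exact Finset.card_le_univ _
    · intro T _ T' _ hTT
      rw [Function.onFun, Finset.disjoint_left]
      intro v hv hv'
      rw [Finset.mem_filter] at hv hv'
      exact hTT (hv.2.2.symm.trans hv'.2.2)
  have h2 : ∑ T ∈ 𝒯, wt G e T =
      ((∑ T ∈ 𝒯, (Finset.univ.filter fun v => v ∉ Set.range e ∧ typ G e v = T).card : ℕ) : ℝ) /
        (Nat.card V : ℝ) := by
    rw [Nat.cast_sum, Finset.sum_div]
    refine Finset.sum_congr rfl fun T _ => ?_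
    unfold wt
    rw [Set.ncard_eq_toFinset_card', Set.toFinset_ofPred]
  rw [h2, Nat.card_eq_fintype_card]
  exact div_le_one_of_le₀ (by exact_mod_cast h1) (by positivity)

/-- The possible `v i` for given hubs. -/
private noncomputable def goodN {V : Type*} [Fintype V] (G : SimpleGraph V) {s : ℕ}
    (e : Fin s → V) (x y : Fin s) : Finset V := by
  classical
  exact Finset.univ.filter fun u =>
    (u ∉ Set.range e ∧ typ G e u ∈ thick G e) ∧ (x ∈ typ G e u ∧ y ∈ typ G e u)

private theorem card_goodN {V : Type*} [Fintype V] (G : SimpleGraph V) {s : ℕ}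
    (e : Fin s → V) (x y : Fin s) :
    ((goodN G e x y).card : ℝ) = (Nat.card V : ℝ) * pw (thick G e) (wt G e) x y := by
  classical
  have h1 : (goodN G e x y).card = ∑ T ∈ thick G e with x ∈ T ∧ y ∈ T,
      (Finset.univ.filter fun v => v ∉ Set.range e ∧ typ G e v = T).card := by
    rw [Finset.card_eq_sum_card_fiberwise (f := fun u => typ G e u)
      (t := (thick G e).filter fun T => x ∈ T ∧ y ∈ T)]
    · refine Finset.sum_congr rfl fun T hT => ?_
      congr 1
      ext v
      rw [Finset.mem_filter] at hT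
      simp only [goodN, Finset.mem_filter, Finset.mem_univ, true_and]
      constructor
      · rintro ⟨⟨⟨h1, _⟩, _⟩, h3⟩
        exact ⟨h1, h3⟩
      · rintro ⟨h1, h3⟩
        rw [h3]
        exact ⟨⟨⟨h1, hT.1⟩, hT.2⟩, rfl⟩
    · intro v hv
      simp only [goodN, Finset.coe_filter, Finset.mem_univ, true_and, Set.mem_ofPred_eq] at hv
      simp only [Finset.coe_filter, Set.mem_ofPred_eq]
      exact ⟨hv.1.2, hv.2⟩
  rw [h1, Nat.cast_sum, pw, Finset.mul_sum]
  refine Finset.sum_congr rfl fun T _ => ?_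
  unfold wt
  rw [Set.ncard_eq_toFinset_card', Set.toFinset_ofPred]
  rcases Nat.eq_zero_or_pos (Nat.card V) with h0 | h0
  · have hV : Fintype.card V = 0 := by rw [← Nat.card_eq_fintype_card, h0]
    have h2 : (Finset.univ.filter fun v => v ∉ Set.range e ∧ typ G e v = T).card = 0 :=
      Nat.le_zero.mp ((Finset.card_le_univ _).trans hV.le)
    rw [h2, h0]
    simp
  · have h0' : (Nat.card V : ℝ) ≠ 0 := by
      exact_mod_cast h0.ne'
    rw [mul_div_cancel₀ _ h0']

theorem card_good_le {V : Type*} [Finite V] (G : SimpleGraph V) {q : ℕ} (hq : 1 ≤ q) {s : ℕ}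
    {e : Fin s → V} (he : Function.Injective e) :
    ((goodPairs G e q).ncard : ℝ) ≤
      (Nat.card V : ℝ) ^ q * (2 * q * val q (thick G e) (wt G e)) := by
  classical
  have := Fintype.ofFinite V
  have : NeZero q := ⟨by omega⟩
  have hsub : goodPairs G e q ⊆
      ((((Finset.univ : Finset {f : ZMod q → Fin s // Function.Injective f}).sigma
        fun f => Fintype.piFinset fun i => goodN G e (f.1 i) (f.1 (i + 1))).image
        fun z => ((fun i => e (z.1.1 i), z.2) : (ZMod q → V) × (ZMod q → V)) :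
          Finset ((ZMod q → V) × (ZMod q → V))) : Set ((ZMod q → V) × (ZMod q → V))) := by
    rintro ⟨x, v⟩ ⟨⟨hx, hv, hxv, hadj⟩, hxe, hve⟩
    choose f hf using hxe
    dsimp only at hf hx hv hxv hadj hve
    have hfi : Function.Injective f := by
      intro a b hab
      apply hx
      rw [← hf a, ← hf b, hab]
    rw [Finset.mem_coe, Finset.mem_image]
    refine ⟨⟨⟨f, hfi⟩, v⟩, ?_, ?_⟩
    · rw [Finset.mem_sigma]
      refine ⟨Finset.mem_univ _, ?_⟩
      rw [Fintype.mem_piFinset]
      intro i
      simp only [goodN, typ, Finset.mem_filter, Finset.mem_univ, true_and]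
      refine ⟨hve i, ?_, ?_⟩
      · rw [hf i]
        exact (hadj i).1
      · rw [hf (i + 1)]
        exact (hadj i).2
    · refine Prod.ext ?_ rfl
      funext i
      exact hf i
  have h1 : (goodPairs G e q).ncard ≤
      ∑ f : {f : ZMod q → Fin s // Function.Injective f},
        ∏ i, (goodN G e (f.1 i) (f.1 (i + 1))).card := by
    refine (Set.ncard_le_ncard hsub (Finset.finite_toSet _)).trans ?_
    rw [Set.ncard_coe_finset]
    refine Finset.card_image_le.trans ?_
    rw [Finset.card_sigma]
    refine Finset.sum_le_sum fun f _ => ?_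
    rw [Fintype.card_piFinset]
  have h2 : ((∑ f : {f : ZMod q → Fin s // Function.Injective f},
        ∏ i, (goodN G e (f.1 i) (f.1 (i + 1))).card : ℕ) : ℝ) =
      (Nat.card V : ℝ) ^ q * ∑ f : {f : ZMod q → Fin s // Function.Injective f},
        ∏ i, pw (thick G e) (wt G e) (f.1 i) (f.1 (i + 1)) := by
    rw [Nat.cast_sum, Finset.mul_sum]
    refine Finset.sum_congr rfl fun f _ => ?_
    rw [Nat.cast_prod]
    simp only [card_goodN]
    rw [Finset.prod_mul_distrib, Finset.prod_const, Finset.card_univ, ZMod.card]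
  have h3 : ((goodPairs G e q).ncard : ℝ) ≤
      ((∑ f : {f : ZMod q → Fin s // Function.Injective f},
        ∏ i, (goodN G e (f.1 i) (f.1 (i + 1))).card : ℕ) : ℝ) := by
    exact_mod_cast h1
  refine h3.trans ?_
  rw [h2, val_eq]
  have hq' : (q : ℝ) ≠ 0 := by
    exact_mod_cast (by omega : q ≠ 0)
  apply le_of_eq
  field_simp

end Pool.Agent.H3.LC
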