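import Pool.Agent.H3.LC.Chain
import Pool.Agent.H3.LC.ValZ

/-!
# Upper bound for the value in general (module ValBd, about 120 lines)

Proof: by `val_eq` we have to show `∑ f, ∏ i, pw 𝒯 w (f i) (f (i + 1)) ≤ j!` (then
`j! / (2 j) = (j - 1)! / 2`, `Nat.mul_factorial_pred`). Write
`pw 𝒯 w x y = ∑ T ∈ 𝒯, if x ∈ T ∧ y ∈ T then w T else 0` and expand the product
(`Finset.prod_univ_sum`): it is the sum over `τ ∈ Fintype.piFinset (fun _ : ZMod j => 𝒯)` of
`∏ i, (if f i ∈ τ i ∧ f (i + 1) ∈ τ i then w (τ i) else 0)`, which is `∏ i, w (τ i)` if `(f, τ)` is a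
chain and `0` otherwise. Swap the sums. For fixed `τ` the number of injective `f` such that `(f, τ)`
is a chain is at most `j!`: if there is one, `f₀`, then by `chain_subset` every `τ i` is contained in
the range of `f₀`, so every other such `f` has its values in the range `U` of `f₀`, which has `j`
elements, and the number of injections `ZMod j → U` is `j!` (`Fintype.card_embedding_eq`,
`Nat.descFactorial_self`). Finally `∑ τ, ∏ i, w (τ i) = (∑ T ∈ 𝒯, w T) ^ j ≤ 1`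
(`Finset.sum_pow'`/`Finset.prod_univ_sum` with constant factors, `Finset.prod_const`).
-/

namespace Pool.Agent.H3.LC

open Finset in
private theorem card_chain_le {L : Finset ℕ} {j : ℕ} [NeZero j] (hj : 2 ≤ j)
    (hL : 2 * (j + 1) ∉ L) {s : ℕ}
    {𝒯 : Finset (Finset (Fin s))} (hA : Admissible L 𝒯) (τ : ZMod j → Finset (Fin s))
    (hτ : ∀ i, τ i ∈ 𝒯) :
    (univ.filter fun f : {f : ZMod j → Fin s // Function.Injective f} =>
      ∀ i, f.1 i ∈ τ i ∧ f.1 (i + 1) ∈ τ i).card ≤ j.factorial := by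
  classical
  by_cases hne : ∃ f₀ : {f : ZMod j → Fin s // Function.Injective f},
      ∀ i, f₀.1 i ∈ τ i ∧ f₀.1 (i + 1) ∈ τ i
  · obtain ⟨f₀, h₀⟩ := hne
    have hsub : ∀ i x, x ∈ τ i → ∃ k, f₀.1 k = x := fun i x hx =>
      chain_subset hA hj hL f₀.2 (fun i => ⟨hτ i, (h₀ i).1, (h₀ i).2⟩) i hx
    have key : ∀ f : {f : {f : ZMod j → Fin s // Function.Injective f} //
        ∀ i, f.1 i ∈ τ i ∧ f.1 (i + 1) ∈ τ i}, ∀ i, ∃ k, f₀.1 k = f.1.1 i :=
      fun f i => hsub i _ (f.2 i).1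
    choose g hg using key
    have hinj : ∀ f, Function.Injective (g f) := by
      intro f a b hab
      apply f.1.2
      rw [← hg f a, ← hg f b, hab]
    let Φ : {f : {f : ZMod j → Fin s // Function.Injective f} //
        ∀ i, f.1 i ∈ τ i ∧ f.1 (i + 1) ∈ τ i} → (ZMod j ↪ ZMod j) := fun f => ⟨g f, hinj f⟩
    have hΦ : Function.Injective Φ := by
      intro f₁ f₂ h
      apply Subtype.ext
      apply Subtype.ext
      funext i
      have h2 : g f₁ i = g f₂ i := congrArg (fun e : ZMod j ↪ ZMod j => e i) h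
      rw [← hg f₁ i, ← hg f₂ i, h2]
    have hc := Fintype.card_le_of_injective Φ hΦ
    rw [Fintype.card_embedding_eq, ZMod.card, Nat.descFactorial_self] at hc
    rw [← Fintype.card_subtype]
    exact hc
  · push Not at hne
    rw [Finset.filter_eq_empty_iff.2]
    · simp
    · intro f _ hf
      obtain ⟨i, hi⟩ := hne f
      exact hi (hf i).1 (hf i).2

open Finset in
private theorem sum_le {L : Finset ℕ} {j : ℕ} [NeZero j] (hj : 2 ≤ j)
    (hL : 2 * (j + 1) ∉ L) {s : ℕ}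
    {𝒯 : Finset (Finset (Fin s))} {w : Finset (Fin s) → ℝ} (hA : Admissible L 𝒯)
    (h0 : ∀ T, 0 ≤ w T) (h1 : ∑ T ∈ 𝒯, w T ≤ 1) :
    ∑ f : {f : ZMod j → Fin s // Function.Injective f},
      ∏ i, pw 𝒯 w (f.1 i) (f.1 (i + 1)) ≤ (j.factorial : ℝ) := by
  classical
  have e1 : ∀ f : {f : ZMod j → Fin s // Function.Injective f},
      ∏ i, pw 𝒯 w (f.1 i) (f.1 (i + 1)) =
        ∑ τ ∈ Fintype.piFinset (fun _ : ZMod j => 𝒯),
          if ∀ i, f.1 i ∈ τ i ∧ f.1 (i + 1) ∈ τ i then ∏ i, w (τ i) else 0 := by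
    intro f
    have : ∀ i, pw 𝒯 w (f.1 i) (f.1 (i + 1)) =
        ∑ T ∈ 𝒯, if f.1 i ∈ T ∧ f.1 (i + 1) ∈ T then w T else 0 := by
      intro i
      unfold pw
      rw [Finset.sum_filter]
    simp_rw [this]
    rw [Finset.prod_univ_sum]
    refine Finset.sum_congr rfl fun τ _ => ?_
    by_cases h : ∀ i, f.1 i ∈ τ i ∧ f.1 (i + 1) ∈ τ i
    · rw [if_pos h]
      exact Finset.prod_congr rfl fun i _ => if_pos (h i)
    · rw [if_neg h]
      push Not at h
      obtain ⟨i, hi⟩ := h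
      apply Finset.prod_eq_zero (Finset.mem_univ i)
      rw [if_neg]
      rintro ⟨h3, h4⟩
      exact hi h3 h4
  rw [Finset.sum_congr rfl fun f _ => e1 f, Finset.sum_comm]
  have e2 : ∀ τ ∈ Fintype.piFinset (fun _ : ZMod j => 𝒯),
      (∑ f : {f : ZMod j → Fin s // Function.Injective f},
        if ∀ i, f.1 i ∈ τ i ∧ f.1 (i + 1) ∈ τ i then ∏ i, w (τ i) else 0) ≤
        (j.factorial : ℝ) * ∏ i, w (τ i) := by
    intro τ hτ
    rw [← Finset.sum_filter, Finset.sum_const, nsmul_eq_mul]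
    apply mul_le_mul_of_nonneg_right
    · exact_mod_cast card_chain_le hj hL hA τ (fun i => Fintype.mem_piFinset.1 hτ i)
    · exact Finset.prod_nonneg fun i _ => h0 _
  refine (Finset.sum_le_sum e2).trans ?_
  rw [← Finset.mul_sum, ← Finset.prod_univ_sum (fun _ : ZMod j => 𝒯) (fun _ T => w T)]
  rw [Finset.prod_const]
  have h2 : (∑ T ∈ 𝒯, w T) ^ (Finset.univ : Finset (ZMod j)).card ≤ 1 :=
    pow_le_one₀ (Finset.sum_nonneg fun T _ => h0 T) h1
  calc (j.factorial : ℝ) * (∑ T ∈ 𝒯, w T) ^ (Finset.univ : Finset (ZMod j)).card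
      ≤ (j.factorial : ℝ) * 1 := mul_le_mul_of_nonneg_left h2 (Nat.cast_nonneg _)
    _ = _ := mul_one _

theorem val_le {L : Finset ℕ} {j : ℕ} (hj : 2 ≤ j) (hL : 2 * (j + 1) ∉ L) {s : ℕ}
    {𝒯 : Finset (Finset (Fin s))} {w : Finset (Fin s) → ℝ} (hA : Admissible L 𝒯)
    (h0 : ∀ T, 0 ≤ w T) (h1 : ∑ T ∈ 𝒯, w T ≤ 1) :
    val j 𝒯 w ≤ ((j - 1).factorial : ℝ) / 2 := by
  haveI : NeZero j := ⟨by omega⟩
  rw [val_eq]
  have h := sum_le hj hL hA h0 h1
  have hj0 : (0 : ℝ) < j := by exact_mod_cast (by omega : 0 < j)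
  have hf : (j.factorial : ℝ) = j * (j - 1).factorial := by
    exact_mod_cast (Nat.mul_factorial_pred (by omega : j ≠ 0)).symm
  rw [div_le_div_iff₀ (by positivity) (by norm_num)]
  rw [hf] at h
  nlinarith

end Pool.Agent.H3.LC
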