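import Pool.Agent.H3.LC.GoodA
import Pool.Agent.H3.LC.FibGe
import Pool.Agent.H3.LC.ValBd

/-!
# The number of good cycles
-/

namespace Pool.Agent.H3.LC

open SimpleGraph

theorem bddAbove_vals {L : Finset ℕ} {j : ℕ} (hj : 2 ≤ j) (hL : 2 * (j + 1) ∉ L) :
    BddAbove {r | ∃ (s : ℕ) (𝒯 : Finset (Finset (Fin s))) (w : Finset (Fin s) → ℝ),
      Admissible L 𝒯 ∧ (∀ T, 0 ≤ w T) ∧ ∑ T ∈ 𝒯, w T ≤ 1 ∧ r = val j 𝒯 w} := by
  refine ⟨((j - 1).factorial : ℝ) / 2, ?_⟩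
  rintro r ⟨s, 𝒯, w, hA, h0, h1, rfl⟩
  exact val_le hj hL hA h0 h1

theorem val_le_gam {L : Finset ℕ} {j : ℕ} (hj : 2 ≤ j) (hL : 2 * (j + 1) ∉ L) {s : ℕ}
    {𝒯 : Finset (Finset (Fin s))} {w : Finset (Fin s) → ℝ} (hA : Admissible L 𝒯)
    (h0 : ∀ T, 0 ≤ w T) (h1 : ∑ T ∈ 𝒯, w T ≤ 1) : val j 𝒯 w ≤ gam L j :=
  le_csSup (bddAbove_vals hj hL) ⟨s, 𝒯, w, hA, h0, h1, rfl⟩

theorem good_image_le {V : Type*} [Finite V] {G : SimpleGraph V} {L : Finset ℕ} {q : ℕ}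
    (hq : 2 ≤ q) (hL : 2 * (q + 1) ∉ L) {s : ℕ} {e : Fin s → V} (he : Function.Injective e)
    (hA : Admissible L (thick G e)) :
    (((fun p : (ZMod q → V) × (ZMod q → V) => pedges p.1 p.2) '' goodPairs G e q).ncard : ℝ) ≤
      gam L q * (Nat.card V : ℝ) ^ q := by
  have h1 := two_mul_image_le hq (goodPairs G e q) (fun p hp => ⟨hp.1.1, hp.1.2.1⟩)
    (fun p hp => by
      obtain ⟨⟨h1, h2, h3, h4⟩, h5, h6⟩ := hp
      refine ⟨⟨fun a b h => ?_, fun a b h => ?_, fun i k => h3 _ _, fun i => h4 _⟩,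
        fun i => h5 _, fun i => h6 _⟩
      · simpa using h1 h
      · simpa using h2 h)
    (fun p hp => by
      obtain ⟨⟨h1, h2, h3, h4⟩, h5, h6⟩ := hp
      refine ⟨⟨fun a b h => ?_, fun a b h => ?_, fun i k => h3 _ _, fun i => ⟨?_, ?_⟩⟩,
        fun i => h5 _, fun i => h6 _⟩
      · simpa using h1 h
      · simpa using h2 h
      · have := (h4 (-i - 1)).2
        simpa using this
      · have := (h4 (-i - 1)).1
        have h7 : -(i + 1) = -i - 1 := by ring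
        simpa [h7] using this)
  have h2 := card_good_le G (by omega : 1 ≤ q) he
  have h3 : val q (thick G e) (wt G e) ≤ gam L q :=
    val_le_gam hq hL hA (wt_nonneg G e) (sum_wt_le G e _)
  have h1' : (2 * q * (((fun p : (ZMod q → V) × (ZMod q → V) => pedges p.1 p.2) ''
      goodPairs G e q).ncard) : ℝ) ≤ (goodPairs G e q).ncard := by exact_mod_cast h1
  have hq0 : (0 : ℝ) < 2 * q := by
    have : (0 : ℝ) < q := by exact_mod_cast (by omega : 0 < q)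
    linarith
  have hn : (0 : ℝ) ≤ (Nat.card V : ℝ) ^ q := by positivity
  have h4 : (Nat.card V : ℝ) ^ q * (2 * q * val q (thick G e) (wt G e)) ≤
      (Nat.card V : ℝ) ^ q * (2 * q * gam L q) := by gcongr
  have h5 := (h1'.trans h2).trans h4
  have h6 : (2 * q : ℝ) * (((fun p : (ZMod q → V) × (ZMod q → V) => pedges p.1 p.2) ''
      goodPairs G e q).ncard : ℝ) ≤ 2 * q * (gam L q * (Nat.card V : ℝ) ^ q) := by
    calc _ ≤ _ := h5
      _ = _ := by ring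
  exact le_of_mul_le_mul_left h6 hq0

end Pool.Agent.H3.LC
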