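import Pool.Agent.H3.LC.Base

/-!
# Long cycles from large degrees (module Long, about 120 lines)

Proof: among all paths `p : G.Walk u v` (`p.IsPath`) with support contained in `W` choose one of
maximal length (they exist, `Walk.nil` at a point of `W`; lengths are `< card V` by
`IsPath.length_lt`; use `Nat.findGreatest` or `Nat.find` on the bounded set of lengths, or
`Set.Finite.exists_maximal`). All neighbours of `v` in `W` lie on the support of `p` (otherwise
`p.concat` is longer). There are more than `k` of them, so with `N = {i < p.length | p.getVert i ~ v}`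
(every neighbour is `p.getVert i` for exactly one `i < p.length`), `N` has more than `k` elements, so
its minimum `i` satisfies `i + k + 1 ≤ p.length`. The walk `p.drop i` from `p.getVert i` to `v` is a
path of length `p.length - i ≥ k + 1 ≥ 2`; with the edge from `v` back to `p.getVert i` it is a cycle
(`cons_isCycle_iff`: the edge is not in a path of length `≥ 2` between its ends) of length
`≥ k + 2 > k`.
-/

namespace Pool.Agent.H3.LC

open SimpleGraph Finset

private theorem path_edge {V : Type*} {G : SimpleGraph V} {x v : V} (q : G.Walk x v)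
    (hq : q.IsPath) (hl : 2 ≤ q.length) : s(v, x) ∉ q.edges := by
  cases q with
  | nil => simp at hl
  | cons h q' =>
    rw [Walk.cons_isPath_iff] at hq
    rw [Walk.edges_cons, List.mem_cons]
    rintro (he | he)
    · rw [Sym2.eq_iff] at he
      rcases he with ⟨h1, h2⟩ | ⟨h1, h2⟩
      · subst h1
        exact G.loopless.irrefl _ (h2 ▸ h)
      · subst h1
        have h0 : q'.Nil := Walk.isPath_iff_nil.1 hq.1
        rw [Walk.length_cons, Walk.length_eq_zero_iff.2 h0] at hl
        omega
    · exact hq.2 (Walk.snd_mem_support_of_mem_edges _ he)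

theorem long_cycle {V : Type*} [Fintype V] {G : SimpleGraph V} {k : ℕ} (hk : 1 ≤ k) (W : Finset V)
    (hW : W.Nonempty) (h : ∀ v ∈ W, k < {u | u ∈ W ∧ G.Adj v u}.ncard) :
    ∃ (u : V) (p : G.Walk u u), p.IsCycle ∧ k < p.length := by
  classical
  let P : ℕ → Prop := fun n => ∃ (u v : V) (p : G.Walk u v), p.IsPath ∧
    (∀ w ∈ p.support, w ∈ W) ∧ p.length = n
  have hP0 : P 0 := by
    obtain ⟨w, hw⟩ := hW
    exact ⟨w, w, Walk.nil, Walk.IsPath.nil, by simpa using hw, rfl⟩
  have hPb : ∀ n, P n → n ≤ Fintype.card V := by
    rintro n ⟨u, v, p, hp, -, hl⟩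
    have := hp.length_lt
    omega
  have hspec : P (Nat.findGreatest P (Fintype.card V)) :=
    Nat.findGreatest_spec (Nat.zero_le _) hP0
  have hmax : ∀ n, P n → n ≤ Nat.findGreatest P (Fintype.card V) := fun n hn =>
    Nat.le_findGreatest (hPb n hn) hn
  obtain ⟨u, v, p, hp, hsup, hlen⟩ := hspec
  have hnb : ∀ x ∈ W, G.Adj v x → x ∈ p.support := by
    intro x hxW hx
    by_contra hcon
    have hpath : (p.concat hx).IsPath := hp.concat hcon hx
    have h1 : P (p.length + 1) := by
      refine ⟨u, x, p.concat hx, hpath, ?_, Walk.length_concat _ _⟩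
      intro w hw
      rw [Walk.support_concat, List.mem_append, List.mem_singleton] at hw
      rcases hw with hw | hw
      · exact hsup w hw
      · rw [hw]; exact hxW
    have := hmax _ h1
    omega
  have hv : v ∈ W := hsup v p.end_mem_support
  let N : Finset ℕ := (Finset.range p.length).filter fun i => G.Adj v (p.getVert i)
  have hsub : {u | u ∈ W ∧ G.Adj v u} ⊆ p.getVert '' (N : Set ℕ) := by
    rintro x ⟨hxW, hx⟩
    have hxs := hnb x hxW hx
    rw [Walk.mem_support_iff_exists_getVert] at hxs
    obtain ⟨i, hi, hil⟩ := hxs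
    refine ⟨i, ?_, hi⟩
    have hne : i ≠ p.length := by
      rintro rfl
      rw [Walk.getVert_length] at hi
      exact G.loopless.irrefl _ (hi ▸ hx)
    simp only [N, Finset.coe_filter, Finset.mem_range, Set.mem_ofPred_eq]
    exact ⟨by omega, by rw [hi]; exact hx⟩
  have hcard : k < N.card := by
    calc k < {u | u ∈ W ∧ G.Adj v u}.ncard := h v hv
      _ ≤ (p.getVert '' (N : Set ℕ)).ncard := Set.ncard_le_ncard hsub (Set.toFinite _)
      _ ≤ (N : Set ℕ).ncard := Set.ncard_image_le (Set.toFinite _)
      _ = N.card := Set.ncard_coe_finset N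
  have hNne : N.Nonempty := Finset.card_pos.1 (by omega)
  set i := N.min' hNne with hi
  have hiN : i ∈ N := N.min'_mem hNne
  have hNsub : N ⊆ Finset.Ico i p.length := by
    intro j hj
    rw [Finset.mem_Ico]
    exact ⟨N.min'_le j hj, Finset.mem_range.1 (Finset.mem_filter.1 hj).1⟩
  have hle : N.card ≤ p.length - i := by
    simpa using Finset.card_le_card hNsub
  have hadj : G.Adj v (p.getVert i) := (Finset.mem_filter.1 hiN).2
  have hql : (p.drop i).length = p.length - i := by
    rw [Walk.drop_length]
  have hqp : (p.drop i).IsPath := hp.drop i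
  refine ⟨v, Walk.cons hadj (p.drop i), ?_, ?_⟩
  · rw [Walk.cons_isCycle_iff]
    exact ⟨hqp, path_edge _ hqp (by omega)⟩
  · rw [Walk.length_cons]
    omega

end Pool.Agent.H3.LC
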