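import Mathlib

/-!
# Path weights (module MeasA, about 120 lines)

`pathW μ f` for `f : ℕ → S` read on `0, ..., r + 1`. To avoid dependent types the sum is over
`f : Fin (r + 2) → S`. With `u i f = ∑ v, if v ∈ {f 0, ..., f (i - 1)} then 0 else μ (f i) v`.

Proof of `path_sum_le`: induction on `r`, `Fin.snocEquiv`, `div_self_le_one`.
-/

/-!
# Path weights (module MeasA, about 120 lines)

`pathW μ f` for `f : ℕ → S` read on `0, ..., r + 1`. To avoid dependent types the sum is over
`f : Fin (r + 2) → S`. With `u i f = ∑ v, if v ∈ {f 0, ..., f (i - 1)} then 0 else μ (f i) v`.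

Proof of `path_sum_le`: induction on `r`. `r = 0`: the sum over `Fin 2 → S` of `μ (f 0) (f 1)` is the
double sum. Step: `Fin (r + 3) → S` is `(Fin (r + 2) → S) × S` (`Fin.snocEquiv`, `Fin.snoc`); for the
extension of `f` by `y` the weight is the weight of `f` times
`(if y ∈ {f 0, ..., f r} then 0 else μ (f (r+1)) y) / u (r+1)`, where `u (r + 1)` depends only on `f`;
the sum over `y` of this factor is `u / u ≤ 1` (`div_self_le_one`). The weights are nonnegative.
(You may restate the induction with any convenient private definition of the weight, e.g. a recursive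
one on lists.)
-/

namespace Pool.Agent.H3.LC

open Finset

/-- The weight from `f i` to the points which are not among `f 0, ..., f (i - 1)`. -/
noncomputable def uw {S : Type*} [Fintype S] (μ : S → S → ℝ) {n : ℕ} (f : Fin n → S)
    (i : Fin n) : ℝ := by
  classical exact ∑ v : S, if ∃ k : Fin n, k < i ∧ f k = v then 0 else μ (f i) v

private theorem uw_snoc {S : Type*} [Fintype S] (μ : S → S → ℝ) {n : ℕ} (g : Fin n → S) (y : S)
    (i : Fin n) : uw μ (Fin.snoc g y : Fin (n + 1) → S) i.castSucc = uw μ g i := by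
  classical
  unfold uw
  refine Finset.sum_congr rfl fun v _ => ?_
  have h : (∃ k : Fin (n + 1), k < i.castSucc ∧ (Fin.snoc g y : Fin (n + 1) → S) k = v) ↔
      ∃ k : Fin n, k < i ∧ g k = v := by
    constructor
    · rintro ⟨k, hk, hv⟩
      have hkn : (k : ℕ) < n := lt_trans (by simpa [Fin.lt_def] using hk) i.2
      refine ⟨⟨k, hkn⟩, by simpa [Fin.lt_def] using hk, ?_⟩
      have : k = Fin.castSucc ⟨(k : ℕ), hkn⟩ := by ext; simp
      rw [this, Fin.snoc_castSucc] at hv
      exact hv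
    · rintro ⟨k, hk, hv⟩
      exact ⟨k.castSucc, by simpa using hk, by rw [Fin.snoc_castSucc]; exact hv⟩
  by_cases hc : ∃ k : Fin n, k < i ∧ g k = v
  · rw [if_pos hc, if_pos (h.2 hc)]
  · rw [if_neg hc, if_neg (fun hh => hc (h.1 hh)), Fin.snoc_castSucc]

private theorem uw_nonneg {S : Type*} [Fintype S] (μ : S → S → ℝ) (h0 : ∀ x y, 0 ≤ μ x y) {n : ℕ}
    (f : Fin n → S) (i : Fin n) : 0 ≤ uw μ f i := by
  classical
  unfold uw
  refine Finset.sum_nonneg fun v _ => ?_
  split_ifs
  · exact le_rfl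
  · exact h0 _ _

open Classical in
private noncomputable def pw {S : Type*} [Fintype S] (μ : S → S → ℝ) (r : ℕ)
    (f : Fin (r + 2) → S) : ℝ :=
  (if f 0 = f 1 then 0 else μ (f 0) (f 1)) *
    ∏ i : Fin r, ((if ∃ k : Fin (r + 2), k < i.succ.castSucc ∧ f k = f i.succ.succ then 0
      else μ (f i.succ.castSucc) (f i.succ.succ)) / uw μ f i.succ.castSucc)

private theorem pw_nonneg {S : Type*} [Fintype S] (μ : S → S → ℝ) (h0 : ∀ x y, 0 ≤ μ x y) (r : ℕ)
    (f : Fin (r + 2) → S) : 0 ≤ pw μ r f := by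
  unfold pw
  refine mul_nonneg ?_ (Finset.prod_nonneg fun i _ => div_nonneg ?_ (uw_nonneg μ h0 _ _))
  · split_ifs
    · exact le_rfl
    · exact h0 _ _
  · split_ifs
    · exact le_rfl
    · exact h0 _ _

open Classical in
private theorem pw_snoc {S : Type*} [Fintype S] (μ : S → S → ℝ) (r : ℕ)
    (g : Fin (r + 2) → S) (y : S) :
    pw μ (r + 1) (Fin.snoc g y : Fin (r + 3) → S) = pw μ r g *
      ((if ∃ k : Fin (r + 2), k < Fin.last (r + 1) ∧ g k = y then 0
        else μ (g (Fin.last (r + 1))) y) / uw μ g (Fin.last (r + 1))) := by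
  have hs : ∀ j : Fin (r + 2), (Fin.snoc g y : Fin (r + 3) → S) j.castSucc = g j := fun j => by
    rw [Fin.snoc_castSucc]
  have hl : (Fin.snoc g y : Fin (r + 3) → S) (Fin.last (r + 2)) = y := by
    rw [Fin.snoc_last]
  have h00 : (Fin.snoc g y : Fin (r + 3) → S) 0 = g 0 := hs 0
  have h11 : (Fin.snoc g y : Fin (r + 3) → S) 1 = g 1 := hs 1
  have hex : ∀ (j : Fin (r + 2)) (v : S),
      (∃ k : Fin (r + 3), k < j.castSucc ∧ (Fin.snoc g y : Fin (r + 3) → S) k = v) ↔
        ∃ k : Fin (r + 2), k < j ∧ g k = v := by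
    intro j v
    constructor
    · rintro ⟨k, hk, hv⟩
      have hkn : (k : ℕ) < r + 2 := lt_trans (by simpa [Fin.lt_def] using hk) j.2
      refine ⟨⟨k, hkn⟩, by simpa [Fin.lt_def] using hk, ?_⟩
      have : k = Fin.castSucc ⟨(k : ℕ), hkn⟩ := by ext; simp
      rw [this, hs] at hv
      exact hv
    · rintro ⟨k, hk, hv⟩
      exact ⟨k.castSucc, by simpa using hk, by rw [hs]; exact hv⟩
  unfold pw
  rw [Fin.prod_univ_castSucc, h00, h11, mul_assoc]
  congr 1
  congr 1
  · refine Finset.prod_congr rfl fun i _ => ?_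
    have e1 : (i.castSucc.succ.castSucc : Fin (r + 3)) = (i.succ.castSucc : Fin (r + 2)).castSucc := by
      ext; simp
    have e2 : (i.castSucc.succ.succ : Fin (r + 3)) = (i.succ.succ : Fin (r + 2)).castSucc := by
      ext; simp
    rw [e1, e2, uw_snoc, hs, hs]
    by_cases hc : ∃ k : Fin (r + 2), k < i.succ.castSucc ∧ g k = g i.succ.succ
    · rw [if_pos hc, if_pos ((hex _ _).2 hc)]
    · rw [if_neg hc, if_neg (fun hh => hc ((hex _ _).1 hh))]
  · have e1 : ((Fin.last r).succ.castSucc : Fin (r + 3)) = (Fin.last (r + 1)).castSucc := by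
      ext; simp
    have e2 : ((Fin.last r).succ.succ : Fin (r + 3)) = Fin.last (r + 2) := by
      ext; simp
    rw [e1, e2, uw_snoc, hs, hl]
    by_cases hc : ∃ k : Fin (r + 2), k < Fin.last (r + 1) ∧ g k = y
    · rw [if_pos hc, if_pos ((hex _ _).2 hc)]
    · rw [if_neg hc, if_neg (fun hh => hc ((hex _ _).1 hh))]

open Classical in
private theorem pw_step {S : Type*} [Fintype S] (μ : S → S → ℝ)
    (h0 : ∀ x y, 0 ≤ μ x y) (r : ℕ) (g : Fin (r + 2) → S) :
    ∑ y : S, pw μ (r + 1) (Fin.snoc g y : Fin (r + 3) → S) ≤ pw μ r g := by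
  simp only [pw_snoc]
  rw [← Finset.mul_sum, ← Finset.sum_div]
  have hu : (∑ y : S, (if ∃ k : Fin (r + 2), k < Fin.last (r + 1) ∧ g k = y then (0 : ℝ)
      else μ (g (Fin.last (r + 1))) y)) = uw μ g (Fin.last (r + 1)) := by
    unfold uw
    refine Finset.sum_congr rfl fun v _ => ?_
    congr
  refine le_trans (le_of_eq ?_) (mul_le_of_le_one_right (pw_nonneg μ h0 r g)
    (div_self_le_one (uw μ g (Fin.last (r + 1)))))
  rw [← hu]

private theorem pw_sum_le {S : Type*} [Fintype S] [DecidableEq S] (μ : S → S → ℝ)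
    (h0 : ∀ x y, 0 ≤ μ x y) (r : ℕ) :
    ∑ f : Fin (r + 2) → S, pw μ r f ≤ ∑ x, ∑ y, if x = y then 0 else μ x y := by
  classical
  induction r with
  | zero =>
    apply le_of_eq
    rw [← Fintype.sum_prod_type' (f := fun x y => if x = y then (0 : ℝ) else μ x y)]
    refine Fintype.sum_equiv (finTwoArrowEquiv S) _ _ fun f => ?_
    unfold pw
    simp [finTwoArrowEquiv]
  | succ r ih =>
    refine le_trans ?_ ih
    have hE : ∑ f : Fin (r + 3) → S, pw μ (r + 1) f =
        ∑ p : S × (Fin (r + 2) → S), pw μ (r + 1) (Fin.snoc p.2 p.1 : Fin (r + 3) → S) := by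
      symm
      exact Fintype.sum_equiv (Fin.snocEquiv (fun _ : Fin (r + 3) => S)) _ _ fun p => rfl
    rw [hE, Fintype.sum_prod_type_right]
    refine Finset.sum_le_sum fun g _ => ?_
    exact pw_step μ h0 r g

theorem path_sum_le {S : Type*} [Fintype S] [DecidableEq S] (μ : S → S → ℝ) (h0 : ∀ x y, 0 ≤ μ x y) (r : ℕ) :
    ∑ f : {f : Fin (r + 2) → S // Function.Injective f},
      μ (f.1 0) (f.1 1) * ∏ i : Fin r, (μ (f.1 i.succ.castSucc) (f.1 i.succ.succ) /
        uw μ f.1 i.succ.castSucc) ≤ ∑ x, ∑ y, if x = y then 0 else μ x y := by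
  classical
  refine le_trans ?_ (pw_sum_le μ h0 r)
  have h1 : ∑ f : {f : Fin (r + 2) → S // Function.Injective f},
      μ (f.1 0) (f.1 1) * ∏ i : Fin r, (μ (f.1 i.succ.castSucc) (f.1 i.succ.succ) /
        uw μ f.1 i.succ.castSucc) =
      ∑ f : {f : Fin (r + 2) → S // Function.Injective f}, pw μ r f.1 := by
    refine Finset.sum_congr rfl fun f _ => ?_
    obtain ⟨f, hf⟩ := f
    unfold pw
    rw [if_neg]
    · congr 1
      refine Finset.prod_congr rfl fun i _ => ?_
      rw [if_neg]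
      rintro ⟨k, hk, hv⟩
      have := hf hv
      subst this
      simp [Fin.lt_def] at hk
    · intro h
      have := hf h
      simp [Fin.ext_iff] at this
  rw [h1]
  have h2 : ∑ f : {f : Fin (r + 2) → S // Function.Injective f}, pw μ r f.1 =
      ∑ f ∈ Finset.univ.filter (fun f : Fin (r + 2) → S => Function.Injective f), pw μ r f := by
    symm
    apply Finset.sum_subtype
    intro x
    simp
  rw [h2]
  exact Finset.sum_le_sum_of_subset_of_nonneg (Finset.filter_subset _ _)
    fun f _ _ => pw_nonneg μ h0 r f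

end Pool.Agent.H3.LC
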