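import Pool.Agent.H3.LC.MeasA

/-!
# The sum identity for rotations (module MeasB, about 150 lines)

Let `k ≥ 3`, `f : ZMod k → S` injective, `μ ≥ 0` symmetric with `μ x x = 0`, and for `l : ZMod k` let
`g l : Fin k → S`, `g l i = f (l + i)` (cast of `i`). Claim:
`∑ l, (μ (f (l - 1)) (f l) + ∑ i with 1 ≤ i ≤ k - 2, uw μ (g l) i) ≤ (k - 1) * M`, where `M` is half of
`∑ x, ∑ y, μ x y`.

Proof: let `F` be the set of values of `f`, `d x = ∑ y, μ x y`, `D = ∑ x ∈ F, d x`,
`I = (1/2) ∑ x ∈ F, ∑ y ∈ F, μ x y`, `A = D - I`.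
(1) For each `l`, `∑ i : Fin k, uw μ (g l) i = A`: indeed `uw μ (g l) i = d (g l i) - ∑ k' < i,
μ (g l i) (g l k')` (injectivity of `g l`), and the sum over the pairs `k' < i` of
`μ (g l i) (g l k')` is `I` (symmetry, `μ x x = 0`).
(2) `uw μ (g l) 0 = d (f l)`, and `uw μ (g l) (k - 1) = d (f (l - 1)) - ∑ y ∈ F, μ (f (l - 1)) y`
(the earlier points are all of `F` except `f (l + k - 1) = f (l - 1)` itself, where `μ` vanishes).
Summing over `l`: `∑ l, ∑ i with 1 ≤ i ≤ k - 2, uw = k A - D - (D - 2 I) = (k - 2) A`.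
(3) `∑ l, μ (f (l - 1)) (f l) ≤ I`: `2 I` is the sum over ordered pairs `(a, b)` of positions of
`μ (f a) (f b) ≥ 0`, and the pairs `(l - 1, l)` and `(l, l - 1)` are `2 k` different ones because
`k ≥ 3`. (4) `I ≤ A` because `2 I ≤ D`, and `A ≤ M`: `2 A = 2 D - 2 I = ∑ x ∈ F, ∑ y, μ x y +
∑ x ∈ F, ∑ y ∉ F, μ x y ≤ ∑ x, ∑ y, μ x y` (symmetry). Total `(k - 2) A + I ≤ (k - 1) A ≤ (k - 1) M`.
-/

namespace Pool.Agent.H3.LC

open Finset

private theorem uw_eq {S : Type*} [Fintype S] [DecidableEq S] (μ : S → S → ℝ) {n : ℕ}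
    (g : Fin n → S) (hg : Function.Injective g) (i : Fin n) :
    uw μ g i = (∑ v, μ (g i) v) - ∑ k' : Fin n, if k' < i then μ (g i) (g k') else 0 := by
  classical
  have h1 : ∀ v : S, (if ∃ k : Fin n, k < i ∧ g k = v then (0 : ℝ) else μ (g i) v) =
      μ (g i) v - if v ∈ (univ.filter (fun k : Fin n => k < i)).map ⟨g, hg⟩
        then μ (g i) v else 0 := by
    intro v
    have hiff : (v ∈ (univ.filter (fun k : Fin n => k < i)).map ⟨g, hg⟩) ↔
        ∃ k : Fin n, k < i ∧ g k = v := by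
      simp
    by_cases h : ∃ k : Fin n, k < i ∧ g k = v
    · rw [if_pos h, if_pos (hiff.2 h), sub_self]
    · rw [if_neg h, if_neg (fun h' => h (hiff.1 h')), sub_zero]
  have h2 : uw μ g i = ∑ v : S, (if ∃ k : Fin n, k < i ∧ g k = v then (0 : ℝ)
      else μ (g i) v) := by
    unfold uw
    refine Finset.sum_congr rfl (fun v _ => ?_)
    congr
  rw [h2, Finset.sum_congr rfl (fun v _ => h1 v), Finset.sum_sub_distrib]
  congr 1
  rw [Finset.sum_ite_mem, Finset.univ_inter, Finset.sum_map, Finset.sum_filter]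
  rfl

private theorem half_sum {n : ℕ} (h : Fin n → Fin n → ℝ) (hs : ∀ i j, h i j = h j i)
    (hd : ∀ i, h i i = 0) :
    ∑ i, ∑ j, (if j < i then h i j else 0) = (∑ i, ∑ j, h i j) / 2 := by
  have h1 : ∑ i, ∑ j, h i j = ∑ i, ∑ j, (if j < i then h i j else 0) +
      ∑ i, ∑ j, (if i < j then h i j else 0) := by
    rw [← Finset.sum_add_distrib]
    refine Finset.sum_congr rfl (fun i _ => ?_)
    rw [← Finset.sum_add_distrib]
    refine Finset.sum_congr rfl (fun j _ => ?_)
    rcases lt_trichotomy i j with hij | hij | hij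
    · rw [if_neg (lt_asymm hij), if_pos hij, zero_add]
    · subst hij; simp [hd]
    · rw [if_pos hij, if_neg (lt_asymm hij), add_zero]
  have h2 : ∑ i, ∑ j, (if i < j then h i j else 0) =
      ∑ i, ∑ j, (if j < i then h i j else 0) := by
    rw [Finset.sum_comm]
    refine Finset.sum_congr rfl (fun i _ => Finset.sum_congr rfl (fun j _ => ?_))
    rw [hs]
  rw [h1, h2]; ring

private theorem rot_bij {k : ℕ} [NeZero k] (l : ZMod k) :
    Function.Bijective (fun a : Fin k => l + (a.val : ZMod k)) := by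
  refine (Fintype.bijective_iff_injective_and_card _).2 ⟨?_, by simp [ZMod.card]⟩
  intro a b hab
  have h := add_left_cancel (show l + (a.val : ZMod k) = l + (b.val : ZMod k) from hab)
  have h2 := (ZMod.natCast_eq_natCast_iff' a.val b.val k).mp h
  rw [Nat.mod_eq_of_lt a.2, Nat.mod_eq_of_lt b.2] at h2
  exact Fin.ext h2

private theorem rot_sum {k : ℕ} [NeZero k] (l : ZMod k) (φ : ZMod k → ℝ) :
    ∑ a : Fin k, φ (l + (a.val : ZMod k)) = ∑ x, φ x :=
  Fintype.sum_bijective (fun a : Fin k => l + (a.val : ZMod k)) (rot_bij l) _ _ (fun _ => rfl)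

theorem rot_sum_le {S : Type*} [Fintype S] [DecidableEq S] {k : ℕ} [NeZero k] (hk : 3 ≤ k) (μ : S → S → ℝ)
    (h0 : ∀ x y, 0 ≤ μ x y) (hs : ∀ x y, μ x y = μ y x) (hd : ∀ x, μ x x = 0)
    (f : ZMod k → S) (hf : Function.Injective f) :
    ∑ l : ZMod k, (μ (f (l - 1)) (f l) +
      ∑ i : Fin k with 1 ≤ i.val ∧ i.val + 2 ≤ k,
        uw μ (fun a : Fin k => f (l + (a.val : ZMod k))) i) ≤
      ((k : ℝ) - 1) * ((∑ x, ∑ y, μ x y) / 2) := by
  classical
  set D : ℝ := ∑ x : ZMod k, ∑ v, μ (f x) v with hD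
  set W : ℝ := ∑ x : ZMod k, ∑ y : ZMod k, μ (f x) (f y) with hW
  have hginj : ∀ l : ZMod k, Function.Injective (fun a : Fin k => f (l + (a.val : ZMod k))) :=
    fun l => hf.comp (rot_bij l).1
  have hkpos : 0 < k := by omega
  -- the sum over all positions
  have hU : ∀ l : ZMod k, ∑ i : Fin k, uw μ (fun a : Fin k => f (l + (a.val : ZMod k))) i =
      D - W / 2 := by
    intro l
    rw [Finset.sum_congr rfl (fun i _ => uw_eq μ _ (hginj l) i), Finset.sum_sub_distrib]
    congr 1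
    · exact rot_sum l (fun x => ∑ v, μ (f x) v)
    · have hh := half_sum (fun i j : Fin k => μ (f (l + (i.val : ZMod k))) (f (l + (j.val : ZMod k))))
        (fun i j => hs _ _) (fun i => hd _)
      rw [hh]
      congr 1
      rw [hW, ← rot_sum l (fun x => ∑ y : ZMod k, μ (f x) (f y))]
      refine Finset.sum_congr rfl (fun i _ => ?_)
      exact rot_sum l (fun y => μ (f (l + (i.val : ZMod k))) (f y))
  -- first position
  have hfst : ∀ l : ZMod k, uw μ (fun a : Fin k => f (l + (a.val : ZMod k))) ⟨0, hkpos⟩ =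
      ∑ v, μ (f l) v := by
    intro l
    rw [uw_eq μ _ (hginj l)]
    have : ∑ k' : Fin k, (if k' < (⟨0, hkpos⟩ : Fin k) then
        μ (f (l + (((⟨0, hkpos⟩ : Fin k).val : ℕ) : ZMod k))) (f (l + (k'.val : ZMod k)))
        else 0) = 0 := by
      refine Finset.sum_eq_zero (fun k' _ => ?_)
      rw [if_neg]
      intro h
      have := Fin.lt_def.1 h
      simp at this
    rw [this]
    simp
  -- last position
  have hlst : ∀ l : ZMod k, uw μ (fun a : Fin k => f (l + (a.val : ZMod k)))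
      ⟨k - 1, by omega⟩ = (∑ v, μ (f (l - 1)) v) - ∑ y : ZMod k, μ (f (l - 1)) (f y) := by
    intro l
    rw [uw_eq μ _ (hginj l)]
    have hc : l + ((k - 1 : ℕ) : ZMod k) = l - 1 := by
      have h1 : ((k - 1 : ℕ) : ZMod k) = -1 := by
        have h2 : ((k - 1 : ℕ) : ZMod k) + 1 = 0 := by
          have : ((k - 1 + 1 : ℕ) : ZMod k) = 0 := by
            rw [Nat.sub_add_cancel hkpos]; exact ZMod.natCast_self k
          push_cast at this
          exact this
        exact eq_neg_of_add_eq_zero_left h2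
      rw [h1]; ring
    have hsum : ∑ k' : Fin k, (if k' < (⟨k - 1, by omega⟩ : Fin k) then
        μ (f (l + (((⟨k - 1, by omega⟩ : Fin k).val : ℕ) : ZMod k))) (f (l + (k'.val : ZMod k)))
        else 0) = ∑ y : ZMod k, μ (f (l - 1)) (f y) := by
      rw [← rot_sum l (fun y => μ (f (l - 1)) (f y))]
      refine Finset.sum_congr rfl (fun k' _ => ?_)
      by_cases h : k' < (⟨k - 1, by omega⟩ : Fin k)
      · rw [if_pos h]
        simp only [hc]
      · rw [if_neg h]
        have hv : k'.val = k - 1 := by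
          have h1 := k'.2
          have h2 : ¬ (k'.val < k - 1) := fun h' => h (Fin.lt_def.2 h')
          omega
        rw [hv, hc, hd]
    rw [hsum]
    simp only [hc]
  -- the middle positions
  have hmid : ∀ l : ZMod k, ∑ i : Fin k with 1 ≤ i.val ∧ i.val + 2 ≤ k,
        uw μ (fun a : Fin k => f (l + (a.val : ZMod k))) i =
      (D - W / 2) - (∑ v, μ (f l) v) -
        ((∑ v, μ (f (l - 1)) v) - ∑ y : ZMod k, μ (f (l - 1)) (f y)) := by
    intro l
    rw [← hU l, ← hfst l, ← hlst l]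
    have hset : (univ.filter (fun i : Fin k => ¬ (1 ≤ i.val ∧ i.val + 2 ≤ k))) =
        {(⟨0, hkpos⟩ : Fin k), ⟨k - 1, by omega⟩} := by
      ext i
      simp only [mem_filter, mem_univ, true_and, mem_insert, mem_singleton, Fin.ext_iff]
      have := i.2
      omega
    have hne : (⟨0, hkpos⟩ : Fin k) ≠ ⟨k - 1, by omega⟩ := by
      intro h
      have := congrArg Fin.val h
      simp at this
      omega
    have hsplit := Finset.sum_filter_add_sum_filter_not (univ : Finset (Fin k))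
      (fun i : Fin k => 1 ≤ i.val ∧ i.val + 2 ≤ k)
      (fun i => uw μ (fun a : Fin k => f (l + (a.val : ZMod k))) i)
    rw [hset, Finset.sum_pair hne] at hsplit
    linarith
  -- neighbours
  have hnb : 2 * ∑ l : ZMod k, μ (f (l - 1)) (f l) ≤ W := by
    have h1 : ∀ l : ZMod k, μ (f l) (f (l - 1)) + μ (f l) (f (l + 1)) ≤
        ∑ y : ZMod k, μ (f l) (f y) := by
      intro l
      have hne : l - 1 ≠ l + 1 := by
        intro h
        have h2 : ((2 : ℕ) : ZMod k) = 0 := by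
          have : (l + 1) - (l - 1) = 0 := by rw [h]; ring
          have h3 : (l + 1) - (l - 1) = ((2 : ℕ) : ZMod k) := by push_cast; ring
          rw [← h3]; exact this
        rw [ZMod.natCast_eq_zero_iff] at h2
        exact absurd (Nat.le_of_dvd (by norm_num) h2) (by omega)
      have hp := Finset.sum_pair (f := fun y => μ (f l) (f y)) hne
      rw [← hp]
      exact Finset.sum_le_sum_of_subset_of_nonneg (Finset.subset_univ _)
        (fun y _ _ => h0 _ _)
    have h2 : ∑ l : ZMod k, (μ (f l) (f (l - 1)) + μ (f l) (f (l + 1))) ≤ W :=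
      Finset.sum_le_sum (fun l _ => h1 l)
    rw [Finset.sum_add_distrib] at h2
    have h3 : ∑ l : ZMod k, μ (f l) (f (l - 1)) = ∑ l : ZMod k, μ (f (l - 1)) (f l) :=
      Finset.sum_congr rfl (fun l _ => hs _ _)
    have h4 : ∑ l : ZMod k, μ (f l) (f (l + 1)) = ∑ l : ZMod k, μ (f (l - 1)) (f l) := by
      have := Fintype.sum_equiv (Equiv.addRight (1 : ZMod k))
        (fun l : ZMod k => μ (f l) (f (l + 1))) (fun l : ZMod k => μ (f (l - 1)) (f l))
        (fun l => by simp)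
      exact this
    rw [h3, h4] at h2
    linarith
  -- D ≥ W
  have hDW : W ≤ D := by
    refine Finset.sum_le_sum (fun x _ => ?_)
    have : ∑ y : ZMod k, μ (f x) (f y) = ∑ v ∈ (univ : Finset (ZMod k)).map ⟨f, hf⟩, μ (f x) v := by
      rw [Finset.sum_map]; rfl
    rw [this]
    exact Finset.sum_le_sum_of_subset_of_nonneg (Finset.subset_univ _) (fun y _ _ => h0 _ _)
  -- 2 D - W ≤ total
  have htot : 2 * D - W ≤ ∑ x, ∑ y, μ x y := by
    set F : Finset S := (univ : Finset (ZMod k)).map ⟨f, hf⟩ with hF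
    have hDF : D = ∑ x ∈ F, ∑ y, μ x y := by
      rw [hF, Finset.sum_map]; rfl
    have hWF : W = ∑ x ∈ F, ∑ y ∈ F, μ x y := by
      rw [hF, Finset.sum_map]
      refine Finset.sum_congr rfl (fun x _ => ?_)
      rw [Finset.sum_map]; rfl
    have e1 : ∑ x, ∑ y, μ x y = ∑ x ∈ F, ∑ y, μ x y + ∑ x ∈ Fᶜ, ∑ y, μ x y :=
      (Finset.sum_add_sum_compl F _).symm
    have e2 : ∑ x ∈ Fᶜ, ∑ y ∈ F, μ x y ≤ ∑ x ∈ Fᶜ, ∑ y, μ x y :=
      Finset.sum_le_sum (fun x _ => Finset.sum_le_sum_of_subset_of_nonneg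
        (Finset.subset_univ _) (fun y _ _ => h0 _ _))
    have e3 : ∑ x ∈ Fᶜ, ∑ y ∈ F, μ x y = ∑ y ∈ F, ∑ x ∈ Fᶜ, μ y x := by
      rw [Finset.sum_comm]
      exact Finset.sum_congr rfl (fun y _ => Finset.sum_congr rfl (fun x _ => hs _ _))
    have e4 : ∑ y ∈ F, ∑ x, μ y x = ∑ y ∈ F, ∑ x ∈ F, μ y x + ∑ y ∈ F, ∑ x ∈ Fᶜ, μ y x := by
      rw [← Finset.sum_add_distrib]
      exact Finset.sum_congr rfl (fun y _ => (Finset.sum_add_sum_compl F _).symm)
    linarith
  -- conclusion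
  have hkc : (Fintype.card (ZMod k) : ℝ) = k := by rw [ZMod.card]
  have hshift : ∀ φ : ZMod k → ℝ, ∑ l : ZMod k, φ (l - 1) = ∑ l : ZMod k, φ l := by
    intro φ
    exact Fintype.sum_equiv (Equiv.subRight (1 : ZMod k)) (fun l => φ (l - 1)) φ
      (fun l => by simp)
  have hT : ∑ l : ZMod k, ∑ i : Fin k with 1 ≤ i.val ∧ i.val + 2 ≤ k,
        uw μ (fun a : Fin k => f (l + (a.val : ZMod k))) i = ((k : ℝ) - 2) * (D - W / 2) := by
    rw [Finset.sum_congr rfl (fun l _ => hmid l)]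
    simp only [Finset.sum_sub_distrib, Finset.sum_const, Finset.card_univ, nsmul_eq_mul, hkc]
    rw [hshift (fun x => ∑ v, μ (f x) v), hshift (fun x => ∑ y : ZMod k, μ (f x) (f y))]
    rw [← hD, ← hW]; ring
  rw [Finset.sum_add_distrib, hT]
  have hk' : (3 : ℝ) ≤ k := by exact_mod_cast hk
  nlinarith [mul_le_mul_of_nonneg_left (show D - W / 2 ≤ (∑ x, ∑ y, μ x y) / 2 by linarith)
    (show (0 : ℝ) ≤ (k : ℝ) - 1 by linarith)]

end Pool.Agent.H3.LC
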