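import Pool.Agent.H3.LC.MeasB

/-!
# The weighted number of closed chains (module MeasC, about 170 lines)

We may assume `μ x x = 0` (replace `μ` by `if x = y then 0 else μ x y`; only values at different
points occur). For injective `g : Fin k → S` let
`P g = μ (g 0) (g 1) * ∏ (1 ≤ i ≤ k - 2), μ (g i) (g (i+1)) / uw μ g i`; with `k = r + 2`,
`path_sum_le` gives `∑ g, P g ≤ 2`. For injective `f : ZMod k → S` and `l : ZMod k` let
`g l i = f (l + i)`. For every `l` the map `f ↦ g l` is a bijection onto the injective maps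
`Fin k → S`, so `∑ f, ∑ l, P (g l) ≤ 2 k`. It remains to show
`∑ l, P (g l) ≥ k ^ k * ∏ i, μ (f i) (f (i + 1))` for every injective `f`.
If some factor `μ (f i) (f (i + 1))` is `0` this is clear (`P ≥ 0`). Otherwise let
`T = ∏ i, μ (f i) (f (i + 1)) > 0`, `t l = μ (f (l - 1)) (f l) > 0`, `u l i = uw μ (g l) i > 0` for
`1 ≤ i ≤ k - 2` (it is at least `μ (f (l+i)) (f (l+i+1)) > 0`, the point `f (l + i + 1)` is not among
the earlier ones). Then `P (g l) = T / (t l * ∏ i, u l i)`, because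
`∏ (0 ≤ i ≤ k - 2) μ (f (l + i)) (f (l + i + 1)) = T / μ (f (l - 1)) (f l)`.
Elementary inequality: for positive `z r`, `1 / ∏ z r ≥ 1 - ∑ (z r - 1)` (since
`∏ z r ≤ exp (∑ (z r - 1))` by `Real.add_one_le_exp` and `exp (-a) ≥ 1 - a`). Apply it to the
`k - 1` numbers `k t l`, `k u l i`: `1 / (t l ∏ u l i) ≥ k ^ (k - 1) * (k - k (t l + ∑ i, u l i))`.
Sum over `l`: `≥ k ^ (k - 1) * (k * k - k * (k - 1)) = k ^ k` by `rot_sum_le` (`M ≤ 1`).
-/

namespace Pool.Agent.H3.LC

open Finset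

private theorem uw_nn {S : Type*} [Fintype S] (μ : S → S → ℝ) (h0 : ∀ x y, 0 ≤ μ x y) {n : ℕ}
    (f : Fin n → S) (i : Fin n) : 0 ≤ uw μ f i := by
  classical
  unfold uw
  refine Finset.sum_nonneg fun v _ => ?_
  split_ifs
  · exact le_rfl
  · exact h0 _ _

private theorem uw_ge {S : Type*} [Fintype S] (μ : S → S → ℝ) (h0 : ∀ x y, 0 ≤ μ x y) {n : ℕ}
    (f : Fin n → S) (hf : Function.Injective f) (i j : Fin n) (hij : i ≤ j) :
    μ (f i) (f j) ≤ uw μ f i := by
  classical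
  unfold uw
  have h : ¬ ∃ k : Fin n, k < i ∧ f k = f j := by
    rintro ⟨k, hk, hv⟩
    have := hf hv
    subst this
    exact absurd hk (not_lt.2 hij)
  have h1 := Finset.single_le_sum
    (f := fun v => if ∃ k : Fin n, k < i ∧ f k = v then (0 : ℝ) else μ (f i) v)
    (fun v _ => by
        split_ifs
        · exact le_rfl
        · exact h0 _ _) (Finset.mem_univ (f j))
  rw [if_neg h] at h1
  exact h1

private theorem inv_prod_ge {r : ℕ} (k t : ℝ) (hk : 0 < k) (ht : 0 < t) (u : Fin r → ℝ)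
    (hu : ∀ i, 0 < u i) :
    k ^ (r + 1) * ((r : ℝ) + 2 - k * (t + ∑ i, u i)) ≤ 1 / (t * ∏ i, u i) := by
  have hp : 0 < ∏ i, u i := Finset.prod_pos fun i _ => hu i
  have hz : ∀ z : ℝ, z ≤ Real.exp (z - 1) := fun z => by
    have := Real.add_one_le_exp (z - 1); linarith
  have h1 : k * t * ∏ i, (k * u i) ≤ Real.exp ((k * t - 1) + ∑ i, (k * u i - 1)) := by
    rw [Real.exp_add, Real.exp_sum]
    refine mul_le_mul (hz _) ?_ ?_ (Real.exp_pos _).le
    · exact Finset.prod_le_prod (fun i _ => (mul_pos hk (hu i)).le) fun i _ => hz _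
    · exact Finset.prod_nonneg fun i _ => (mul_pos hk (hu i)).le
  have h2 : k * t * ∏ i, (k * u i) = k ^ (r + 1) * (t * ∏ i, u i) := by
    rw [Finset.prod_mul_distrib, Finset.prod_const, Finset.card_univ, Fintype.card_fin]
    ring
  have h3 : (k * t - 1) + ∑ i, (k * u i - 1) = k * (t + ∑ i, u i) - ((r : ℝ) + 1) := by
    rw [Finset.sum_sub_distrib, ← Finset.mul_sum, Finset.sum_const, Finset.card_univ,
      Fintype.card_fin, nsmul_eq_mul]
    ring
  rw [h2, h3] at h1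
  set a := k * (t + ∑ i, u i) - ((r : ℝ) + 1) with ha
  have h4 : 1 - a ≤ Real.exp (-a) := by
    have := Real.add_one_le_exp (-a); linarith
  have hq : 0 < t * ∏ i, u i := mul_pos ht hp
  have hkk : 0 < k ^ (r + 1) := pow_pos hk _
  have h5 : Real.exp (-a) ≤ 1 / (k ^ (r + 1) * (t * ∏ i, u i)) := by
    rw [Real.exp_neg, ← one_div]
    exact one_div_le_one_div_of_le (mul_pos hkk hq) h1
  have h6 : (r : ℝ) + 2 - k * (t + ∑ i, u i) ≤ 1 / (k ^ (r + 1) * (t * ∏ i, u i)) := by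
    have : (r : ℝ) + 2 - k * (t + ∑ i, u i) = 1 - a := by rw [ha]; ring
    rw [this]; exact h4.trans h5
  calc k ^ (r + 1) * ((r : ℝ) + 2 - k * (t + ∑ i, u i))
      ≤ k ^ (r + 1) * (1 / (k ^ (r + 1) * (t * ∏ i, u i))) :=
        mul_le_mul_of_nonneg_left h6 hkk.le
    _ = 1 / (t * ∏ i, u i) := by field_simp

private def eL (k : ℕ) [NeZero k] (l : ZMod k) : Fin k ≃ ZMod k where
  toFun i := l + (i.val : ZMod k)
  invFun x := ⟨(x - l).val, ZMod.val_lt _⟩
  left_inv i := by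
    ext
    simp [ZMod.val_natCast_of_lt i.2]
  right_inv x := by
    simp

private theorem eL_apply (k : ℕ) [NeZero k] (l : ZMod k) (i : Fin k) :
    eL k l i = l + (i.val : ZMod k) := rfl

/-- The weight of an injective path. -/
private noncomputable def PW {S : Type*} [Fintype S] (μ : S → S → ℝ) (r : ℕ)
    (f : Fin (r + 2) → S) : ℝ :=
  μ (f 0) (f 1) * ∏ i : Fin r, (μ (f i.succ.castSucc) (f i.succ.succ) /
        uw μ f i.succ.castSucc)

private theorem PW_nn {S : Type*} [Fintype S] (μ : S → S → ℝ) (h0 : ∀ x y, 0 ≤ μ x y) (r : ℕ)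
    (f : Fin (r + 2) → S) : 0 ≤ PW μ r f :=
  mul_nonneg (h0 _ _) (Finset.prod_nonneg fun _ _ => div_nonneg (h0 _ _) (uw_nn μ h0 _ _))

private theorem filt_sum (r : ℕ) (F : Fin (r + 2) → ℝ) :
    ∑ i : Fin (r + 2) with 1 ≤ i.val ∧ i.val + 2 ≤ r + 2, F i =
      ∑ i : Fin r, F i.succ.castSucc := by
  rw [Finset.sum_filter, Fin.sum_univ_castSucc, Fin.sum_univ_succ]
  have e1 : (if 1 ≤ (Fin.castSucc (0 : Fin (r + 1))).val ∧
      (Fin.castSucc (0 : Fin (r + 1))).val + 2 ≤ r + 2 then F (Fin.castSucc 0) else 0) = 0 := by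
    rw [if_neg]; simp
  have e2 : (if 1 ≤ (Fin.last (r + 1)).val ∧
      (Fin.last (r + 1)).val + 2 ≤ r + 2 then F (Fin.last (r + 1)) else 0) = 0 := by
    rw [if_neg]; simp
  rw [e1, e2, zero_add, add_zero]
  refine Finset.sum_congr rfl fun i _ => ?_
  rw [if_pos]
  have := i.2
  simp only [Fin.val_castSucc, Fin.val_succ]
  omega

private theorem PW_eq {S : Type*} [Fintype S] (μ : S → S → ℝ) (h0 : ∀ x y, 0 ≤ μ x y) (r : ℕ)
    [NeZero (r + 2)]
    (f : ZMod (r + 2) → S) (hf : Function.Injective f)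
    (hpos : ∀ i, 0 < μ (f i) (f (i + 1))) (l : ZMod (r + 2)) :
    PW μ r (fun a : Fin (r + 2) => f (l + (a.val : ZMod (r + 2)))) =
      (∏ i, μ (f i) (f (i + 1))) * (1 / (μ (f (l - 1)) (f l) *
        ∏ i : Fin r, uw μ (fun a : Fin (r + 2) => f (l + (a.val : ZMod (r + 2))))
          i.succ.castSucc)) := by
  set g : Fin (r + 2) → S := fun a => f (l + (a.val : ZMod (r + 2))) with hg
  have hgi : Function.Injective g := fun a b hab => (eL (r + 2) l).injective (hf hab)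
  have hlast : l + ((r + 1 : ℕ) : ZMod (r + 2)) = l - 1 := by
    have : ((r + 2 : ℕ) : ZMod (r + 2)) = 0 := ZMod.natCast_self _
    have h2 : ((r + 1 : ℕ) : ZMod (r + 2)) + 1 = 0 := by
      rw [← this]; push_cast; ring
    rw [eq_sub_iff_add_eq, add_assoc, h2, add_zero]
  have hT : ∏ i, μ (f i) (f (i + 1)) =
      (μ (g 0) (g 1) * ∏ i : Fin r, μ (g i.succ.castSucc) (g i.succ.succ)) *
        μ (f (l - 1)) (f l) := by
    rw [← (eL (r + 2) l).prod_comp, Fin.prod_univ_castSucc, Fin.prod_univ_succ]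
    have e0 : μ (f (eL (r + 2) l (Fin.castSucc 0))) (f (eL (r + 2) l (Fin.castSucc 0) + 1)) =
        μ (g 0) (g 1) := by
      rw [eL_apply, hg]
      congr 2
      simp
    have e1 : μ (f (eL (r + 2) l (Fin.last (r + 1)))) (f (eL (r + 2) l (Fin.last (r + 1)) + 1)) =
        μ (f (l - 1)) (f l) := by
      rw [eL_apply, Fin.val_last, hlast]
      simp
    rw [e0, e1]
    congr 2
    refine Finset.prod_congr rfl fun i _ => ?_
    rw [eL_apply, hg]
    simp only [Fin.val_castSucc, Fin.val_succ]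
    congr 2
    push_cast
    ring
  have ht : 0 < μ (f (l - 1)) (f l) := by
    have := hpos (l - 1)
    rwa [sub_add_cancel] at this
  have hstep : ∀ i : Fin r, 0 < μ (g i.succ.castSucc) (g i.succ.succ) := fun i => by
    have h := hpos (l + ((i.val + 1 : ℕ) : ZMod (r + 2)))
    have e1 : g i.succ.castSucc = f (l + ((i.val + 1 : ℕ) : ZMod (r + 2))) := by
      rw [hg]; simp
    have e2 : g i.succ.succ = f (l + ((i.val + 1 : ℕ) : ZMod (r + 2)) + 1) := by
      rw [hg]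
      simp only [Fin.val_succ]
      congr 1
      push_cast
      ring
    rw [e1, e2]; exact h
  have hu : ∀ i : Fin r, 0 < uw μ g i.succ.castSucc := fun i =>
    lt_of_lt_of_le (hstep i) (uw_ge μ h0 g hgi _ _ (by
      rw [Fin.le_def]; simp))
  have hU : (∏ i : Fin r, uw μ g i.succ.castSucc) ≠ 0 :=
    (Finset.prod_pos fun i _ => hu i).ne'
  rw [hT]
  unfold PW
  rw [Finset.prod_div_distrib]
  field_simp

private theorem key {S : Type*} [Fintype S] [DecidableEq S] (μ : S → S → ℝ)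
    (h0 : ∀ x y, 0 ≤ μ x y) (hs : ∀ x y, μ x y = μ y x) (hd : ∀ x, μ x x = 0)
    (hM : ∑ x, ∑ y, μ x y ≤ 2) (r : ℕ) (hr : 1 ≤ r) [NeZero (r + 2)]
    (f : ZMod (r + 2) → S) (hf : Function.Injective f) :
    ((r + 2 : ℕ) : ℝ) ^ (r + 2) * ∏ i, μ (f i) (f (i + 1)) ≤
      ∑ l : ZMod (r + 2), PW μ r (fun a : Fin (r + 2) => f (l + (a.val : ZMod (r + 2)))) := by
  by_cases hz : ∃ i, μ (f i) (f (i + 1)) = 0
  · obtain ⟨i, hi⟩ := hz
    rw [Finset.prod_eq_zero (Finset.mem_univ i) hi, mul_zero]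
    exact Finset.sum_nonneg fun l _ => PW_nn μ h0 r _
  have hpos : ∀ i, 0 < μ (f i) (f (i + 1)) := fun i =>
    lt_of_le_of_ne (h0 _ _) fun h => hz ⟨i, h.symm⟩
  have hT : 0 < ∏ i, μ (f i) (f (i + 1)) := Finset.prod_pos fun i _ => hpos i
  have hrot := rot_sum_le (k := r + 2) (by omega) μ h0 hs hd f hf
  simp only [filt_sum] at hrot
  have hk0 : (0 : ℝ) < ((r + 2 : ℕ) : ℝ) := by positivity
  have hl : ∀ l : ZMod (r + 2),
      (∏ i, μ (f i) (f (i + 1))) * (((r + 2 : ℕ) : ℝ) ^ (r + 1) * ((r : ℝ) + 2 -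
        ((r + 2 : ℕ) : ℝ) * (μ (f (l - 1)) (f l) + ∑ i : Fin r,
          uw μ (fun a : Fin (r + 2) => f (l + (a.val : ZMod (r + 2)))) i.succ.castSucc))) ≤
      PW μ r (fun a : Fin (r + 2) => f (l + (a.val : ZMod (r + 2)))) := by
    intro l
    rw [PW_eq μ h0 r f hf hpos l]
    refine mul_le_mul_of_nonneg_left (inv_prod_ge _ _ hk0 ?_ _ ?_) hT.le
    · have := hpos (l - 1)
      rwa [sub_add_cancel] at this
    · intro i
      have h := hpos (l + ((i.val + 1 : ℕ) : ZMod (r + 2)))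
      refine lt_of_lt_of_le ?_ (uw_ge μ h0 _ (fun a b hab => (eL (r + 2) l).injective (hf hab))
        i.succ.castSucc i.succ.succ (by rw [Fin.le_def]; simp))
      have e1 : f (l + ((i.succ.castSucc : Fin (r + 2)).val : ZMod (r + 2))) =
          f (l + ((i.val + 1 : ℕ) : ZMod (r + 2))) := by simp
      have e2 : f (l + ((i.succ.succ : Fin (r + 2)).val : ZMod (r + 2))) =
          f (l + ((i.val + 1 : ℕ) : ZMod (r + 2)) + 1) := by
        simp only [Fin.val_succ]
        congr 1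
        push_cast
        ring
      rw [eL_apply, eL_apply, e1, e2]; exact h
  refine le_trans ?_ (Finset.sum_le_sum fun l _ => hl l)
  rw [← Finset.mul_sum, ← Finset.mul_sum, Finset.sum_sub_distrib, ← Finset.mul_sum,
    Finset.sum_const, Finset.card_univ, ZMod.card, nsmul_eq_mul]
  set W := ∑ l : ZMod (r + 2), (μ (f (l - 1)) (f l) + ∑ i : Fin r,
          uw μ (fun a : Fin (r + 2) => f (l + (a.val : ZMod (r + 2)))) i.succ.castSucc) with hW
  have hW1 : W ≤ ((r + 2 : ℕ) : ℝ) - 1 := by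
    have h1 : (((r + 2 : ℕ) : ℝ) - 1) * ((∑ x, ∑ y, μ x y) / 2) ≤ (((r + 2 : ℕ) : ℝ) - 1) * 1 := by
      refine mul_le_mul_of_nonneg_left (by linarith) ?_
      push_cast
      have : (0 : ℝ) ≤ r := Nat.cast_nonneg r
      linarith
    linarith [hrot]
  have e3 : ((r : ℝ) + 2) = ((r + 2 : ℕ) : ℝ) := by push_cast; ring
  rw [e3]
  set K := ((r + 2 : ℕ) : ℝ) with hK
  have h5 : K ≤ K * K - K * W := by nlinarith
  calc K ^ (r + 2) * ∏ i, μ (f i) (f (i + 1))
      = (∏ i, μ (f i) (f (i + 1))) * (K ^ (r + 1) * K) := by ring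
    _ ≤ (∏ i, μ (f i) (f (i + 1))) * (K ^ (r + 1) * (K * K - K * W)) := by
        refine mul_le_mul_of_nonneg_left (mul_le_mul_of_nonneg_left h5 (by positivity)) hT.le

private theorem meas_le0 {S : Type*} [Fintype S] [DecidableEq S] (μ : S → S → ℝ)
    (h0 : ∀ x y, 0 ≤ μ x y) (hs : ∀ x y, μ x y = μ y x) (hd : ∀ x, μ x x = 0)
    (hM : ∑ x, ∑ y, μ x y ≤ 2) (r : ℕ) (hr : 1 ≤ r) [NeZero (r + 2)] :
    ∑ f : {f : ZMod (r + 2) → S // Function.Injective f}, ∏ i, μ (f.1 i) (f.1 (i + 1)) ≤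
      2 * ((r + 2 : ℕ) : ℝ) / ((r + 2 : ℕ) : ℝ) ^ (r + 2) := by
  have hk0 : (0 : ℝ) < ((r + 2 : ℕ) : ℝ) := by positivity
  rw [le_div_iff₀ (pow_pos hk0 _), mul_comm, Finset.mul_sum]
  refine le_trans (Finset.sum_le_sum fun f _ => key μ h0 hs hd hM r hr f.1 f.2) ?_
  rw [Finset.sum_comm]
  have hpath : ∑ g : {g : Fin (r + 2) → S // Function.Injective g}, PW μ r g.1 ≤ 2 := by
    refine le_trans (path_sum_le μ h0 r) (le_trans (le_of_eq ?_) hM)
    refine Finset.sum_congr rfl fun x _ => Finset.sum_congr rfl fun y _ => ?_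
    split_ifs with h
    · rw [h, hd]
    · rfl
  have hl : ∀ l : ZMod (r + 2), ∑ f : {f : ZMod (r + 2) → S // Function.Injective f},
      PW μ r (fun a : Fin (r + 2) => f.1 (l + (a.val : ZMod (r + 2)))) ≤ 2 := by
    intro l
    refine le_trans (le_of_eq ?_) hpath
    refine Fintype.sum_equiv
      { toFun := fun f => ⟨f.1 ∘ eL (r + 2) l, f.2.comp (eL (r + 2) l).injective⟩
        invFun := fun g => ⟨g.1 ∘ (eL (r + 2) l).symm, g.2.comp (eL (r + 2) l).symm.injective⟩
        left_inv := fun f => by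
          apply Subtype.ext
          funext x
          simp
        right_inv := fun g => by
          apply Subtype.ext
          funext x
          simp } _ _ fun f => rfl
  refine le_trans (Finset.sum_le_sum fun l _ => hl l) ?_
  rw [Finset.sum_const, Finset.card_univ, ZMod.card, nsmul_eq_mul, mul_comm]

theorem meas_le {S : Type*} [Fintype S] [DecidableEq S] {k : ℕ} [NeZero k] (hk : 3 ≤ k)
    (μ : S → S → ℝ) (h0 : ∀ x y, 0 ≤ μ x y) (hs : ∀ x y, μ x y = μ y x)
    (hM : ∑ x, ∑ y, (if x = y then 0 else μ x y) ≤ 2) :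
    ∑ f : {f : ZMod k → S // Function.Injective f}, ∏ i, μ (f.1 i) (f.1 (i + 1)) ≤
      2 * k / (k : ℝ) ^ k := by
  obtain ⟨r, rfl⟩ : ∃ r, k = r + 2 := ⟨k - 2, by omega⟩
  have h := meas_le0 (fun x y => if x = y then 0 else μ x y)
    (fun x y => by
      split_ifs
      · exact le_rfl
      · exact h0 _ _)
    (fun x y => by
      by_cases hxy : x = y
      · rw [if_pos hxy, if_pos hxy.symm]
      · rw [if_neg hxy, if_neg (Ne.symm hxy), hs])
    (fun x => by simp) hM r (by omega)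
  refine le_trans (le_of_eq ?_) h
  refine Finset.sum_congr rfl fun f _ => Finset.prod_congr rfl fun i _ => ?_
  rw [if_neg]
  intro hh
  have h1 := f.2 hh
  have h2 : (1 : ZMod (r + 2)) = 0 := by
    have := congrArg (fun x => x - i) h1
    simpa using this.symm
  have : Fact (1 < r + 2) := ⟨by omega⟩
  exact one_ne_zero h2

end Pool.Agent.H3.LC
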