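import Mathlib

/-!
# Two cycles with a common edge and an even cycle (module OddT, about 200 lines)

Claim: if `p, q` are different cycles (as edge sets) with a common edge and `p` has odd length then
the graph has a cycle of even length.

Proof: first, `q` has an edge outside `p` (if all edges of `q` are edges of `p` then the edge sets are
equal: a cycle has no proper sub-cycle; e.g. both vertex degrees are 2 on a cycle: starting at a common
edge, the next edge of `q` at a vertex is an edge of `p` at this vertex and different from the last
one, so it is the next edge of `p`; walk around). Rotating and possibly reversing `q` we may assume that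
its last edge is an edge of `p` and its first edge `s(x, q.snd)` is not, where `x` is the base point
(there is a vertex of `q` where an edge of `p` is followed by an edge outside `p`). So `x ∈ p.support`.
Let `t ≥ 1` be the least index with `q.getVert t ∈ p.support`; `t ≤ q.length - 1` because the
penultimate vertex of `q` is on `p`. So `y = q.getVert t ≠ x`, and `r = q.take t` is a path from `x` to
`y` whose inner vertices are not on `p`. Rotate `p` to start at `x` and split it at `y`
(`Walk.takeUntil`, `Walk.dropUntil`): `p = p1 ++ p2`, `p1 : x → y`, `p2 : y → x` paths
(`IsCycle.isPath_takeUntil` and its analogue), lengths `a + b` odd. `r ++ p2` and `r ++ p1.reverse` are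
cycles (`IsPath.isCycle_append` or `isCycle_def`; the supports meet only in `x, y`; they are not of
length 2: `a = t = 1` would mean that `s(x, y)` is an edge of `p` and the first edge of `q`), of
lengths `t + b` and `t + a`; the sum of these is `2 t + a + b`, odd, so one of them is even.
-/

namespace Pool.Agent.H3.LC

open SimpleGraph

/-- a path between two vertices of an odd cycle which is otherwise disjoint from the cycle -/
private theorem oddt_ear {V : Type*} {G : SimpleGraph V} {a : V} (C : G.Walk a a) (hC : C.IsCycle)
    (hodd : Odd C.length) {y : V} (hy : y ∈ C.support) (hya : y ≠ a) (r : G.Walk a y)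
    (hr : r.IsPath) (hin : ∀ w ∈ r.support, w ∈ C.support → w = a ∨ w = y)
    (h1 : r.length = 1 → s(a, y) ∉ C.edges) :
    ∃ (w : V) (c : G.Walk w w), c.IsCycle ∧ Even c.length := by
  classical
  have hspec := C.take_spec hy
  have hp1 : (C.takeUntil y hy).IsPath := hC.isPath_takeUntil hy
  have hp2 : (C.dropUntil y hy).IsPath := by
    apply Walk.IsCycle.isPath_of_append_right (p := C.takeUntil y hy)
    · exact Walk.not_nil_of_ne hya.symm
    · rw [hspec]
      exact hC
  have hlen : (C.takeUntil y hy).length + (C.dropUntil y hy).length = C.length := by
    rw [← Walk.length_append, hspec]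
  have hr0 : 0 < r.length := by
    rw [← Walk.not_nil_iff_lt_length]
    exact Walk.not_nil_of_ne hya.symm
  -- a path from `y` to `a` inside `C` gives a cycle
  have key : ∀ s : G.Walk y a, s.IsPath → (∀ w ∈ s.support, w ∈ C.support) →
      (∀ e ∈ s.edges, e ∈ C.edges) → (r.append s).IsCycle := by
    intro s hs hsup hse
    apply Walk.IsPath.isCycle_append hr hs
    · rw [List.disjoint_left]
      intro w hw1 hw2
      have hw3 : w ∈ C.support := hsup w (List.mem_of_mem_tail hw2)
      have hn1 : a ∉ r.support.tail := by
        have := hr.support_nodup
        rw [← Walk.cons_tail_support, List.nodup_cons] at this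
        exact this.1
      have hn2 : y ∉ s.support.tail := by
        have := hs.support_nodup
        rw [← Walk.cons_tail_support, List.nodup_cons] at this
        exact this.1
      rcases hin w (List.mem_of_mem_tail hw1) hw3 with h | h
      · exact hn1 (h ▸ hw1)
      · exact hn2 (h ▸ hw2)
    · have hs0 : 0 < s.length := by
        rw [← Walk.not_nil_iff_lt_length]
        exact Walk.not_nil_of_ne hya
      by_contra hcon
      have hr1 : r.length = 1 := by omega
      have hs1 : s.length = 1 := by omega
      apply h1 hr1
      apply hse
      cases s with
      | nil => simp at hs1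
      | cons h t =>
        cases t with
        | nil => simp [Sym2.eq_swap]
        | cons h' t' => simp at hs1
  have c1 := key (C.dropUntil y hy) hp2 (fun w hw => Walk.support_dropUntil_subset_support _ _ hw)
    (fun e he => Walk.edges_dropUntil_subset_edges _ _ he)
  have c2 := key (C.takeUntil y hy).reverse hp1.reverse
    (fun w hw => by
      rw [Walk.support_reverse, List.mem_reverse] at hw
      exact Walk.support_takeUntil_subset_support _ _ hw)
    (fun e he => by
      rw [Walk.edges_reverse, List.mem_reverse] at he
      exact Walk.edges_takeUntil_subset_edges _ _ he)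
  rcases Nat.even_or_odd (r.append (C.dropUntil y hy)).length with h | h
  · exact ⟨a, _, c1, h⟩
  · refine ⟨a, _, c2, ?_⟩
    rw [Walk.length_append] at h ⊢
    rw [Walk.length_reverse]
    rw [← hlen] at hodd
    rcases h with ⟨m, hm⟩
    rcases hodd with ⟨n, hn⟩
    refine ⟨n + r.length - m, ?_⟩
    omega

private theorem oddt_core {V : Type*} {G : SimpleGraph V} {a b : V} (P : G.Walk a b) :
    ∀ (Q : G.Walk a b) (R : G.Walk b a), ¬ R.Nil → (R.append P).IsCycle → (R.append Q).IsCycle →
      P ≠ Q → Odd (R.append P).length → ∃ (w : V) (c : G.Walk w w), c.IsCycle ∧ Even c.length := by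
  classical
  induction P with
  | nil =>
    intro Q R hR _ hQ hne _
    have h1 := Walk.IsCycle.isPath_of_append_right hR hQ
    rw [Walk.isPath_iff_eq_nil] at h1
    exact absurd h1.symm hne
  | @cons a c b h P' ih =>
    intro Q R hR hP hQ hne hodd
    have hPp := Walk.IsCycle.isPath_of_append_right hR hP
    have hQp := Walk.IsCycle.isPath_of_append_right hR hQ
    cases Q with
    | nil =>
      rw [Walk.isPath_iff_eq_nil] at hPp
      simp at hPp
    | @cons _ c' _ h' Q' =>
      by_cases hc : c = c'
      · subst hc
        apply ih Q' (R.concat h)
        · intro hn
          rw [← Walk.length_eq_zero_iff] at hn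
          simp at hn
        · rw [Walk.concat_append]
          exact hP
        · rw [Walk.concat_append]
          exact hQ
        · rintro rfl
          exact hne rfl
        · rw [Walk.concat_append]
          exact hodd
      · -- the two walks differ at once
        set Q : G.Walk a b := Walk.cons h' Q' with hQdef
        have hRp : R.IsPath := Walk.IsCycle.isPath_of_append_left (q := Walk.cons h P')
          (by simp) hP
        have hab : a ≠ b := by
          rintro rfl
          rw [Walk.isPath_iff_eq_nil] at hPp
          simp at hPp
        have hC : ((Walk.cons h P').append R).IsCycle := by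
          apply Walk.IsPath.isCycle_append hPp hRp
          · have h1 := hP.support_nodup
            rw [Walk.tail_support_append, List.nodup_append'] at h1
            exact h1.2.2.symm
          · have h1 := hP.three_le_length
            rw [Walk.length_append] at h1
            omega
        have hCodd : Odd ((Walk.cons h P').append R).length := by
          rw [Walk.length_append, add_comm, ← Walk.length_append]
          exact hodd
        have hbC : b ∈ ((Walk.cons h P').append R).support := by
          rw [Walk.mem_support_append_iff]
          exact Or.inl (Walk.end_mem_support _)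
        have hex : ∃ t, 1 ≤ t ∧ Q.getVert t ∈ ((Walk.cons h P').append R).support :=
          ⟨Q.length, by simp [hQdef], by rw [Walk.getVert_length]; exact hbC⟩
        obtain ⟨ht1, ht2⟩ := Nat.find_spec hex
        have htmin := fun m (hm : m < Nat.find hex) => Nat.find_min hex hm
        have htle : Nat.find hex ≤ Q.length :=
          Nat.find_min' hex ⟨by simp [hQdef], by rw [Walk.getVert_length]; exact hbC⟩
        generalize Nat.find hex = t at ht1 ht2 htmin htle
        have hya : Q.getVert t ≠ a := by
          intro hcon
          have h1 := hQp.getVert_injOn (x₁ := t) (x₂ := 0) htle (Nat.zero_le _)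
            (by rw [hcon, Walk.getVert_zero])
          omega
        refine oddt_ear _ hC hCodd ht2 hya (Q.take t) (hQp.take t) ?_ ?_
        · intro w hw hwC
          rw [Walk.mem_support_iff_exists_getVert] at hw
          obtain ⟨i, hi1, hi2⟩ := hw
          rw [Walk.take_length] at hi2
          rw [Walk.take_getVert] at hi1
          have hi3 : i ≤ t := le_trans hi2 (min_le_left _ _)
          rw [min_eq_right hi3] at hi1
          rcases Nat.eq_zero_or_pos i with h0 | h0
          · left
            rw [← hi1, h0, Walk.getVert_zero]
          · rcases Nat.lt_or_ge i t with h2 | h2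
            · exact absurd ⟨h0, hi1 ▸ hwC⟩ (htmin i h2)
            · right
              rw [← hi1, le_antisymm hi3 h2]
        · intro hl hmem
          rw [Walk.take_length, min_eq_left htle] at hl
          subst hl
          have hq1 : Q.getVert 1 = c' := by simp [hQdef]
          rw [hq1, Walk.edges_append, List.mem_append] at hmem
          rcases hmem with hmem | hmem
          · rw [Walk.edges_cons, List.mem_cons] at hmem
            rcases hmem with hmem | hmem
            · rw [Sym2.eq_iff] at hmem
              rcases hmem with h2 | h2
              · exact hc h2.2.symm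
              · exact h.ne h2.1
            · have h3 := P'.fst_mem_support_of_mem_edges hmem
              exact ((Walk.cons_isPath_iff _ _).1 hPp).2 h3
          · have h3 := hQ.isTrail.edges_nodup
            rw [Walk.edges_append, List.nodup_append'] at h3
            exact h3.2.2 hmem (by simp [hQdef])

/-- a cycle through the edge `s(a, b)` can be written as a cycle starting with this edge -/
private theorem oddt_first {V : Type*} {G : SimpleGraph V} {u : V} {p : G.Walk u u}
    (hp : p.IsCycle) {a b : V} (he : s(a, b) ∈ p.edges) :
    ∃ (h : G.Adj a b) (P : G.Walk b a), (Walk.cons h P).IsCycle ∧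
      (∀ e, e ∈ (Walk.cons h P).edges ↔ e ∈ p.edges) ∧ (Walk.cons h P).length = p.length := by
  classical
  have ha : a ∈ p.support := p.fst_mem_support_of_mem_edges he
  have hc : (p.rotate a ha).IsCycle := hp.rotate ha
  have hedge : ∀ e, e ∈ (p.rotate a ha).edges ↔ e ∈ p.edges := fun e =>
    (p.rotate_edges a ha).perm.mem_iff
  have hlen : (p.rotate a ha).length = p.length := by
    rw [← Walk.length_edges, ← Walk.length_edges]
    exact (p.rotate_edges a ha).perm.length_eq
  have he2 : s(a, b) ∈ (p.rotate a ha).edges := (hedge _).2 he
  generalize p.rotate a ha = c at hc hedge hlen he2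
  -- the first edge of `c` or of its reverse
  have first : ∀ c : G.Walk a a, c.IsCycle → (∀ e, e ∈ c.edges ↔ e ∈ p.edges) →
      c.length = p.length → c.snd = b → ∃ (h : G.Adj a b) (P : G.Walk b a),
      (Walk.cons h P).IsCycle ∧ (∀ e, e ∈ (Walk.cons h P).edges ↔ e ∈ p.edges) ∧
      (Walk.cons h P).length = p.length := by
    intro c hc hce hcl hcb
    cases c with
    | nil => exact absurd rfl hc.ne_nil
    | cons h T =>
      have h1 : (Walk.cons h T).snd = _ := rfl
      simp only [Walk.snd_cons] at hcb
      subst hcb
      exact ⟨h, T, hc, hce, hcl⟩
  by_cases hb : c.snd = b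
  · exact first c hc hedge hlen hb
  · apply first c.reverse hc.reverse
    · intro e
      rw [Walk.edges_reverse, List.mem_reverse]
      exact hedge e
    · rw [Walk.length_reverse]
      exact hlen
    · rw [Walk.snd_reverse]
      cases c with
      | nil => exact absurd rfl hc.ne_nil
      | cons h T =>
        rw [Walk.cons_isCycle_iff] at hc
        rw [Walk.edges_cons, List.mem_cons] at he2
        simp only [Walk.snd_cons] at hb
        rcases he2 with h2 | h2
        · rw [Sym2.eq_iff] at h2
          rcases h2 with h2 | h2
          · exact absurd h2.2.symm hb
          · exact absurd h2.1 h.ne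
        · have h3 := hc.1.eq_penultimate_of_mem_edges (w := b) h2
          rw [Walk.penultimate_cons_of_not_nil, h3]
          intro hnil
          rw [← Walk.length_eq_zero_iff] at hnil
          cases T with
          | nil => simp at h2
          | cons _ _ => simp at hnil

theorem even_cycle_of_two {V : Type*} {G : SimpleGraph V} {u v : V} {p : G.Walk u u}
    {q : G.Walk v v} (hp : p.IsCycle) (hq : q.IsCycle) {e : Sym2 V} (he : e ∈ p.edges)
    (he' : e ∈ q.edges) (hne : {e | e ∈ p.edges} ≠ {e | e ∈ q.edges}) (hodd : Odd p.length) :
    ∃ (w : V) (r : G.Walk w w), r.IsCycle ∧ Even r.length := by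
  induction e with
  | _ a b =>
  obtain ⟨h, P, h1, h2, h3⟩ := oddt_first hp he
  obtain ⟨h', Q, h1', h2', h3'⟩ := oddt_first hq he'
  refine oddt_core P Q (Walk.cons h Walk.nil) (by simp) ?_ ?_ ?_ ?_
  · simpa using h1
  · simpa using h1'
  · rintro rfl
    apply hne
    ext e
    show e ∈ p.edges ↔ e ∈ q.edges
    rw [← h2, ← h2']
  · have h4 : ((Walk.cons h Walk.nil).append P).length = p.length := by
      rw [← h3]
      simp [add_comm]
    rw [h4]
    exact hodd

end Pool.Agent.H3.LC
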