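import Pool.Agent.H3.LC.Long

/-!
# Degenerate ordering (module Rank, about 80 lines)

Proof: by `long_cycle` every nonempty `W : Finset V` contains `v` with at most `k` neighbours in `W`.
By induction on `#W` there is `ρ_W : V → ℕ` injective on `W` with `1 ≤ ρ_W` on `W` (or any
normalisation) such that every `v ∈ W` has at most `k` neighbours `u ∈ W` with `ρ_W v < ρ_W u`: pick
such a `v ∈ W`, take `ρ` for `W.erase v`, shift it by one (`ρ + 1` on `W.erase v`) and give `v` the
value `0`. Take `W = univ`. `Set.encard ≤ k` from `Set.ncard ≤ k` because the sets are finite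
(`Set.Finite.cast_ncard_eq`).
-/

namespace Pool.Agent.H3.LC

open SimpleGraph Finset

theorem exists_rank {V : Type*} [Fintype V] {G : SimpleGraph V} {k : ℕ} (hk : 1 ≤ k)
    (h : ∀ (u : V) (p : G.Walk u u), p.IsCycle → p.length ≤ k) :
    ∃ ρ : V → ℕ, OutLe G ρ k := by
  classical
  have key : ∀ W : Finset V, ∃ ρ : V → ℕ, Set.InjOn ρ W ∧
      ∀ v ∈ W, {u | u ∈ W ∧ G.Adj v u ∧ ρ v < ρ u}.ncard ≤ k := by
    intro W
    induction W using Finset.strongInduction with
    | H W ih =>
      by_cases hW : W.Nonempty
      · have hex : ∃ v ∈ W, {u | u ∈ W ∧ G.Adj v u}.ncard ≤ k := by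
          by_contra hcon
          push Not at hcon
          obtain ⟨u, p, hp, hl⟩ := long_cycle hk W hW hcon
          exact absurd (h u p hp) (by omega)
        obtain ⟨v, hv, hvk⟩ := hex
        obtain ⟨ρ, hi, hd⟩ := ih (W.erase v) (Finset.erase_ssubset hv)
        refine ⟨fun u => if u = v then 0 else ρ u + 1, ?_, ?_⟩
        · intro a ha b hb hab
          by_cases h1 : a = v <;> by_cases h2 : b = v
          · rw [h1, h2]
          · simp [h1, h2] at hab
          · simp [h1, h2] at hab
          · simp only [h1, h2, if_false] at hab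
            refine hi ?_ ?_ (by omega)
            · exact Finset.mem_coe.2 (Finset.mem_erase.2 ⟨h1, Finset.mem_coe.1 ha⟩)
            · exact Finset.mem_coe.2 (Finset.mem_erase.2 ⟨h2, Finset.mem_coe.1 hb⟩)
        · intro a ha
          by_cases h1 : a = v
          · subst h1
            refine le_trans (Set.ncard_le_ncard ?_ (Set.toFinite _)) hvk
            rintro u ⟨hu, hau, -⟩
            exact ⟨hu, hau⟩
          · refine le_trans (Set.ncard_le_ncard ?_ (Set.toFinite _))
              (hd a (Finset.mem_erase.2 ⟨h1, ha⟩))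
            rintro u ⟨hu, hau, hlt⟩
            have h2 : u ≠ v := by
              rintro rfl
              simp at hlt
            simp only [h1, h2, if_false] at hlt
            exact ⟨Finset.mem_erase.2 ⟨h2, hu⟩, hau, by omega⟩
      · rw [Finset.not_nonempty_iff_eq_empty] at hW
        subst hW
        exact ⟨fun _ => 0, by simp, by simp⟩
  obtain ⟨ρ, hi, hd⟩ := key Finset.univ
  refine ⟨ρ, ?_, fun v => ?_⟩
  · intro a b hab
    exact hi (by simp) (by simp) hab
  · have := hd v (Finset.mem_univ v)
    rw [← Set.Finite.cast_ncard_eq (Set.toFinite _)]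
    refine Nat.cast_le.2 (le_trans (le_of_eq ?_) this)
    congr 1
    ext u
    simp

end Pool.Agent.H3.LC
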