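import Pool.Agent.H3.LC.Base

/-!
# Few vertices of rare type (module Rare, about 50 lines)

Proof: the hubs are at most `s` vertices (`Set.ncard_image_le`, `Set.range`), and the vertices
`v ∉ Set.range e` with `typ G e v ∉ thick G e` are the union over the `T ∉ thick G e` (at most
`2 ^ s` of them) of the sets `{v | v ∉ Set.range e ∧ typ G e v = T}`, which have less than `s`
elements by the definition of `thick`.
-/

namespace Pool.Agent.H3.LC

open SimpleGraph

theorem card_rare {V : Type*} [Finite V] (G : SimpleGraph V) {s : ℕ} (e : Fin s → V) :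
    {v | v ∈ Set.range e ∨ typ G e v ∉ thick G e}.ncard ≤ s + 2 ^ s * s := by
  classical
  have := Fintype.ofFinite V
  have hthick : ∀ T, T ∉ thick G e → {v | v ∉ Set.range e ∧ typ G e v = T}.ncard ≤ s := by
    intro T hT
    by_contra hlt
    push Not at hlt
    apply hT
    unfold thick
    rw [Finset.mem_filter]
    exact ⟨Finset.mem_univ _, hlt.le⟩
  let B : Finset V := (Finset.univ.image e) ∪ ((Finset.univ.filter fun T => T ∉ thick G e).biUnion
    fun T => Finset.univ.filter fun v => v ∉ Set.range e ∧ typ G e v = T)
  have hsub : {v | v ∈ Set.range e ∨ typ G e v ∉ thick G e} ⊆ (B : Set V) := by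
    intro v hv
    rw [Finset.mem_coe, Finset.mem_union]
    by_cases hr : v ∈ Set.range e
    · left
      obtain ⟨i, rfl⟩ := hr
      exact Finset.mem_image_of_mem _ (Finset.mem_univ _)
    · right
      have hv' : typ G e v ∉ thick G e := hv.resolve_left hr
      rw [Finset.mem_biUnion]
      exact ⟨typ G e v, Finset.mem_filter.2 ⟨Finset.mem_univ _, hv'⟩,
        Finset.mem_filter.2 ⟨Finset.mem_univ _, hr, rfl⟩⟩
  have h1 : {v | v ∈ Set.range e ∨ typ G e v ∉ thick G e}.ncard ≤ B.card := by
    rw [← Set.ncard_coe_finset B]
    exact Set.ncard_le_ncard hsub (Finset.finite_toSet B)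
  refine h1.trans ((Finset.card_union_le _ _).trans (Nat.add_le_add ?_ ?_))
  · refine Finset.card_image_le.trans ?_
    rw [Finset.card_univ, Fintype.card_fin]
  · refine Finset.card_biUnion_le.trans ?_
    refine (Finset.sum_le_card_nsmul _ _ s ?_).trans ?_
    · intro T hT
      have hT' : T ∉ thick G e := (Finset.mem_filter.1 hT).2
      have h2 := hthick T hT'
      rw [← Set.ncard_coe_finset]
      refine le_trans (le_of_eq (congrArg Set.ncard ?_)) h2
      ext v
      simp
    · rw [smul_eq_mul]
      refine Nat.mul_le_mul_right _ ?_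
      refine (Finset.card_filter_le _ _).trans ?_
      rw [Finset.card_univ, Fintype.card_finset, Fintype.card_fin]

end Pool.Agent.H3.LC
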