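import Pool.Agent.H3.LC.Base

/-!
# Cyclic sequences with few sources (module Src, about 170 lines)

Proof: if `V` is empty the set is empty. Otherwise fix `v0 : V`. For every `v` enumerate the
out-neighbours: by `Set.encard ≤ d` there is `out : V → Fin d → V`-like labelling; it is convenient
to choose `lab : V → V → ℕ` with `lab v u < d` for every out-neighbour `u` of `v` (`G.Adj v u`,
`ρ v < ρ u`) and `lab v` injective on the out-neighbours of `v`
(`Set.Finite.toFinset`, `Finset.equivFin`). Code of `f`: the pattern `ZMod m → Fin 3`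
(`0` if `i` is a source, otherwise `1` if `ρ (f (i - 1)) < ρ (f i)`, otherwise `2`; in the last case
`ρ (f (i + 1)) < ρ (f i)` because `i` is not a source and `ρ` is injective, `f (i+1) ≠ f i`), the
labels `ZMod m → Fin (d + 1)` (label of `f i` as an out-neighbour of `f (i - 1)` in case `1`, of
`f (i + 1)` in case `2`, `0` in case `0`), and the values at the sources, as a function
`Fin t → V`: for every set `P : Finset (ZMod m)` with at most `t` elements fix an injection
`P → Fin t`; the value at `k` is `f i` if `k` is the image of `i ∈ P = srcs ρ f` and `v0` otherwise.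
The code determines `f`: if `f, g` have the same code then `f i = g i` for all `i` by strong induction
on `ρ (f i)`: sources directly; in case `1`, `ρ (f (i-1)) < ρ (f i)`, so `f (i-1) = g (i-1)`, and
`f i, g i` are out-neighbours of this vertex with the same label; case `2` in the same way.
Hence the number of `f` is at most `3 ^ m * (d + 1) ^ m * (card V) ^ t`
(`Set.ncard_le_ncard_of_injOn` into `univ`, `Nat.card`).
-/

namespace Pool.Agent.H3.LC

open SimpleGraph Finset

private lemma src_lab {V : Type*} [Fintype V] {d : ℕ} (A : Set V) (h : A.encard ≤ d) :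
    ∃ l : V → Fin (d + 1), Set.InjOn l A := by
  classical
  have hfin : A.Finite := Set.toFinite A
  have hc : A.ncard ≤ d := by
    rw [← hfin.cast_ncard_eq] at h
    exact_mod_cast h
  have hc2 : Fintype.card A ≤ Fintype.card (Fin d) := by
    rw [Fintype.card_fin]
    rw [Set.ncard_eq_toFinset_card'] at hc
    rwa [Set.toFinset_card] at hc
  obtain ⟨e⟩ := Function.Embedding.nonempty_of_card_le hc2
  refine ⟨fun u => if hu : u ∈ A then (e ⟨u, hu⟩).castSucc else 0, ?_⟩
  intro u hu w hw huw
  simp only [dif_pos hu, dif_pos hw] at huw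
  have h1 := e.injective (Fin.castSucc_injective _ huw)
  exact congrArg Subtype.val h1

private lemma src_idx {α : Type*} [DecidableEq α] (P : Finset α) :
    ∃ g : α → ℕ, Set.InjOn g P ∧ ∀ i ∈ P, g i < P.card := by
  refine ⟨fun i => if h : i ∈ P then (P.equivFin ⟨i, h⟩).val else 0, ?_, ?_⟩
  · intro i hi j hj hij
    rw [Finset.mem_coe] at hi hj
    simp only [dif_pos hi, dif_pos hj] at hij
    have h1 := P.equivFin.injective (Fin.ext hij)
    exact congrArg Subtype.val h1
  · intro i hi
    simp only [dif_pos hi]
    exact (P.equivFin ⟨i, hi⟩).isLt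

theorem card_few_src {m t d : ℕ} [NeZero m] (hm : 3 ≤ m) {V : Type*} [Fintype V]
    {G : SimpleGraph V} {ρ : V → ℕ} (h : OutLe G ρ d) :
    {f : ZMod m → V | IsCyc G f ∧ (srcs ρ f).card ≤ t}.ncard ≤
      (3 * (d + 1)) ^ m * (Fintype.card V) ^ t := by
  classical
  obtain ⟨hρ, hout⟩ := h
  rcases isEmpty_or_nonempty V with hV | hV
  · have h0 : {f : ZMod m → V | IsCyc G f ∧ (srcs ρ f).card ≤ t} = ∅ := by
      ext f
      simp only [Set.mem_setOf_eq, Set.mem_empty_iff_false, iff_false]
      intro _
      exact hV.false (f 0)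
    rw [h0, Set.ncard_empty]
    exact Nat.zero_le _
  obtain ⟨v0⟩ := hV
  choose lab hlab using fun v => src_lab _ (hout v)
  choose idx hidx1 hidx2 using fun P : Finset (ZMod m) => src_idx P
  let pat : (ZMod m → V) → ZMod m → Fin 3 := fun f i =>
    if i ∈ srcs ρ f then 0 else if ρ (f (i - 1)) < ρ (f i) then 1 else 2
  let lb : (ZMod m → V) → ZMod m → Fin (d + 1) := fun f i =>
    if ρ (f (i - 1)) < ρ (f i) then lab (f (i - 1)) (f i) else lab (f (i + 1)) (f i)
  let cd : (ZMod m → V) → Fin t → V := fun f k =>
    if hk : ∃ j ∈ srcs ρ f, idx (srcs ρ f) j = k.val then f hk.choose else v0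
  let Φ : (ZMod m → V) → (ZMod m → Fin 3 × Fin (d + 1)) × (Fin t → V) := fun f =>
    (fun i => (pat f i, lb f i), cd f)
  have hinj : Set.InjOn Φ {f : ZMod m → V | IsCyc G f ∧ (srcs ρ f).card ≤ t} := by
    intro f hf g hg hfg
    obtain ⟨⟨hf1, hf2⟩, hf3⟩ := hf
    obtain ⟨⟨hg1, hg2⟩, hg3⟩ := hg
    have hcomp := Prod.ext_iff.1 hfg
    have hp : ∀ i, pat f i = pat g i := fun i => congrArg Prod.fst (congrFun hcomp.1 i)
    have hl : ∀ i, lb f i = lb g i := fun i => congrArg Prod.snd (congrFun hcomp.1 i)
    have hc : cd f = cd g := hcomp.2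
    have hpat0 : ∀ (q : ZMod m → V) i, pat q i = 0 ↔ i ∈ srcs ρ q := by
      intro q i
      by_cases h1 : i ∈ srcs ρ q
      · simp [pat, h1]
      · by_cases h2 : ρ (q (i - 1)) < ρ (q i)
        · simp [pat, h1, h2]
        · simp [pat, h1, h2]
    have hpat1 : ∀ (q : ZMod m → V) i, pat q i = 1 → ρ (q (i - 1)) < ρ (q i) := by
      intro q i h0
      by_contra h2
      by_cases h1 : i ∈ srcs ρ q
      · simp [pat, h1] at h0
      · simp [pat, h1, h2] at h0
    have hpat2 : ∀ (q : ZMod m → V) i, pat q i = 2 → ¬ ρ (q (i - 1)) < ρ (q i) := by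
      intro q i h0 h2
      by_cases h1 : i ∈ srcs ρ q
      · simp [pat, h1] at h0
      · simp [pat, h1, h2] at h0
    have hs : srcs ρ f = srcs ρ g := by
      ext i
      rw [← hpat0 f i, ← hpat0 g i, hp i]
    have hne : ∀ (q : ZMod m → V), (∀ i, G.Adj (q i) (q (i + 1))) → ∀ i, ρ (q i) ≠ ρ (q (i + 1)) :=
      fun q hq i he => (hq i).ne (hρ he)
    have hne' : ∀ (q : ZMod m → V), (∀ i, G.Adj (q i) (q (i + 1))) → ∀ i,
        ρ (q (i - 1)) ≠ ρ (q i) := by
      intro q hq i
      have h1 := hne q hq (i - 1)
      rwa [sub_add_cancel] at h1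
    have hdown : ∀ (q : ZMod m → V), (∀ i, G.Adj (q i) (q (i + 1))) → ∀ i, i ∉ srcs ρ q →
        ¬ ρ (q (i - 1)) < ρ (q i) → ρ (q (i + 1)) < ρ (q i) := by
      intro q hq i h1 h2
      have h3 := hne q hq i
      have h4 := hne' q hq i
      simp only [srcs, mem_filter, mem_univ, true_and, not_and] at h1
      have h5 := h1 (by omega)
      omega
    have key : ∀ N i, ρ (f i) = N → f i = g i := by
      intro N
      induction N using Nat.strong_induction_on with
      | _ N ih =>
        intro i hi
        by_cases h1 : i ∈ srcs ρ f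
        · have hlt : idx (srcs ρ f) i < t := (hidx2 _ i h1).trans_le hf3
          have hex : ∃ j ∈ srcs ρ f, idx (srcs ρ f) j = (⟨_, hlt⟩ : Fin t).val := ⟨i, h1, rfl⟩
          have e1 : ∀ q : ZMod m → V, srcs ρ q = srcs ρ f → cd q ⟨_, hlt⟩ = q i := by
            intro q hq
            have hex' : ∃ j ∈ srcs ρ q, idx (srcs ρ q) j = (⟨_, hlt⟩ : Fin t).val := by
              rw [hq]
              exact hex
            have e2 : cd q ⟨_, hlt⟩ = q hex'.choose := dif_pos hex'
            rw [e2]
            obtain ⟨e3, e4⟩ := hex'.choose_spec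
            have e5 : hex'.choose = i := by
              apply hidx1 (srcs ρ q)
              · exact e3
              · rw [hq]
                exact h1
              · rw [e4, hq]
            rw [e5]
          have e6 := congrFun hc ⟨_, hlt⟩
          rw [e1 f rfl, e1 g hs.symm] at e6
          exact e6
        · have h1' : i ∉ srcs ρ g := by
            rw [← hs]
            exact h1
          by_cases h2 : ρ (f (i - 1)) < ρ (f i)
          · have hpf : pat f i = 1 := by simp [pat, h1, h2]
            have h2' : ρ (g (i - 1)) < ρ (g i) := hpat1 g i (by rw [← hp i]; exact hpf)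
            have h3 : f (i - 1) = g (i - 1) := ih _ (by rw [← hi]; exact h2) (i - 1) rfl
            have h4 := hl i
            simp only [lb, if_pos h2, if_pos h2'] at h4
            rw [← h3] at h4 h2'
            have a1 : G.Adj (f (i - 1)) (f i) := by
              have := hf2 (i - 1)
              rwa [sub_add_cancel] at this
            have a2 : G.Adj (f (i - 1)) (g i) := by
              have := hg2 (i - 1)
              rw [sub_add_cancel, ← h3] at this
              exact this
            exact hlab (f (i - 1)) ⟨a1, h2⟩ ⟨a2, h2'⟩ h4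
          · have hpf : pat f i = 2 := by simp [pat, h1, h2]
            have h2' : ¬ ρ (g (i - 1)) < ρ (g i) := hpat2 g i (by rw [← hp i]; exact hpf)
            have d1 := hdown f hf2 i h1 h2
            have d2 := hdown g hg2 i h1' h2'
            have h3 : f (i + 1) = g (i + 1) := ih _ (by rw [← hi]; exact d1) (i + 1) rfl
            have h4 := hl i
            simp only [lb, if_neg h2, if_neg h2'] at h4
            rw [← h3] at h4 d2
            have a2 : G.Adj (f (i + 1)) (g i) := by
              have := (hg2 i).symm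
              rwa [← h3] at this
            exact hlab (f (i + 1)) ⟨(hf2 i).symm, d1⟩ ⟨a2, d2⟩ h4
    funext i
    exact key _ i rfl
  have h1 := Set.ncard_le_ncard_of_injOn Φ (t := Set.univ) (fun _ _ => Set.mem_univ _) hinj
    (Set.toFinite _)
  refine h1.trans (le_of_eq ?_)
  rw [Set.ncard_univ, Nat.card_eq_fintype_card, Fintype.card_prod, Fintype.card_fun,
    Fintype.card_fun, Fintype.card_prod, Fintype.card_fin, Fintype.card_fin, Fintype.card_fin,
    ZMod.card]

end Pool.Agent.H3.LC
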