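import Pool.Agent.H3.LC.Glue

/-!
# The maximum c(L, n) (module Transfer, about 110 lines)

`cycles G` is a set of subsets of the finite type `Sym2 (Fin n)`, so all numbers in the set defining
`cMax` are bounded by `Nat.card (Set (Sym2 (Fin n)))`; the set is nonempty (`⊥` has no cycles:
an `IsCyc ⊥ f` gives `⊥.Adj`; use `isLCycle_iff`). So the supremum is attained (`Nat.sSup_mem`) and is
an upper bound (`le_csSup`), and `cMax_le` is `csSup_le'` or `Nat.sSup_mem`.

`ncard_le_cMax`: choose an embedding `φ : V ↪ Fin n` (`Function.Embedding.nonempty_of_card_le`), and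
`G' = G.map φ`. If `IsCyc G' f` then every `f i` is in the range of `φ` (it has a neighbour in `G'`,
`SimpleGraph.map_adj`), so `f = φ ∘ g` and `IsCyc G g`; hence `G'` is an `L`-cycle graph
(`isLCycle_iff`). The map `E ↦ Sym2.map φ '' E` is injective and maps `cycles G` into `cycles G'`
(`mem_cycles_iff`, `cedges (φ ∘ f)` is the image of `cedges f`).
-/

namespace Pool.Agent.H3.LC

open SimpleGraph

private theorem isLCycle_bot (L : Finset ℕ) (n : ℕ) :
    IsLCycleGraph L (⊥ : SimpleGraph (Fin n)) := by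
  rw [isLCycle_iff]
  intro m f _ hf
  exact absurd (hf.2 0) (by simp)

private theorem cMax_nonempty (L : Finset ℕ) (n : ℕ) :
    {N | ∃ G : SimpleGraph (Fin n), IsLCycleGraph L G ∧ (cycles G).ncard = N}.Nonempty :=
  ⟨_, ⊥, isLCycle_bot L n, rfl⟩

private theorem cMax_bdd (L : Finset ℕ) (n : ℕ) :
    BddAbove {N | ∃ G : SimpleGraph (Fin n), IsLCycleGraph L G ∧ (cycles G).ncard = N} := by
  refine ⟨Nat.card (Set (Sym2 (Fin n))), ?_⟩
  rintro N ⟨G, -, rfl⟩
  exact Set.ncard_le_card _

theorem exists_cMax (L : Finset ℕ) (n : ℕ) :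
    ∃ G : SimpleGraph (Fin n), IsLCycleGraph L G ∧ (cycles G).ncard = cMax L n :=
  Nat.sSup_mem (cMax_nonempty L n) (cMax_bdd L n)

theorem cMax_le {L : Finset ℕ} {n B : ℕ}
    (h : ∀ G : SimpleGraph (Fin n), IsLCycleGraph L G → (cycles G).ncard ≤ B) : cMax L n ≤ B := by
  obtain ⟨G, hG, hn⟩ := exists_cMax L n
  rw [← hn]
  exact h G hG

theorem ncard_le_cMax {V : Type*} [Fintype V] {n : ℕ} (h : Fintype.card V ≤ n) {G : SimpleGraph V}
    {L : Finset ℕ} (hG : IsLCycleGraph L G) : (cycles G).ncard ≤ cMax L n := by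
  classical
  obtain ⟨φ⟩ : Nonempty (V ↪ Fin n) :=
    Function.Embedding.nonempty_of_card_le (by simpa using h)
  have hG' : IsLCycleGraph L (G.map φ) := by
    rw [isLCycle_iff] at hG ⊢
    intro m f hm hf
    have hr : ∀ i, ∃ v, φ v = f i := by
      intro i
      obtain ⟨u, v, _, hu, _⟩ := (SimpleGraph.map_adj φ G _ _).1 (hf.2 i)
      exact ⟨u, hu⟩
    choose g hg using hr
    refine hG m g hm ⟨?_, ?_⟩
    · intro i k hik
      apply hf.1
      rw [← hg i, ← hg k, hik]
    · intro i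
      have := hf.2 i
      rw [← hg i, ← hg (i + 1), SimpleGraph.map_adj_apply] at this
      exact this
  have h1 : (cycles G).ncard ≤ (cycles (G.map φ)).ncard := by
    refine Set.ncard_le_ncard_of_injOn (fun E => Sym2.map φ '' E) ?_ ?_ (Set.toFinite _)
    · intro E hE
      obtain ⟨m, f, hm, hf, rfl⟩ := mem_cycles_iff.1 hE
      rw [mem_cycles_iff]
      refine ⟨m, φ ∘ f, hm, ⟨φ.injective.comp hf.1, fun i => ?_⟩, ?_⟩
      · exact (SimpleGraph.map_adj_apply).2 (hf.2 i)
      · ext e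
        simp only [cedges, Set.mem_image]
        constructor
        · rintro ⟨i, rfl⟩
          exact ⟨s(f i, f (i + 1)), ⟨i, rfl⟩, by simp⟩
        · rintro ⟨_, ⟨i, rfl⟩, rfl⟩
          exact ⟨i, by simp⟩
    · intro E _ F _ hEF
      exact (Set.image_injective.2 (Sym2.map.injective φ.injective)) hEF
  exact h1.trans (le_csSup (cMax_bdd L n) ⟨_, hG', rfl⟩)

end Pool.Agent.H3.LC
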