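import Pool.Agent.H3.LC.GoodB
import Pool.Agent.H3.LC.Glue
import Pool.Agent.H3.LC.Rank
import Pool.Agent.H3.LC.Src
import Pool.Agent.H3.LC.AltB
import Pool.Agent.H3.LC.BadX
import Pool.Agent.H3.LC.BadV
import Pool.Agent.H3.LC.DegSum
import Pool.Agent.H3.LC.Adm
import Pool.Agent.H3.LC.Rare

/-!
# The upper bound
-/

namespace Pool.Agent.H3.LC

open SimpleGraph

/-- All cycles are of one of the four kinds. -/
theorem cycles_subset {V : Type*} [Finite V] {G : SimpleGraph V} {L : Finset ℕ} {j : ℕ}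
    (hG : ∀ (m : ℕ) (f : ZMod m → V), 3 ≤ m → IsCyc G f → m ∈ L)
    (hmax : ∀ x ∈ L, x ≤ 2 * j) {ρ : V → ℕ} (hρ : Function.Injective ρ) {s : ℕ} (e : Fin s → V) :
    cycles G ⊆
      (⋃ m ∈ Finset.Icc 3 (2 * j), {E | ∃ f : ZMod m → V, (∀ _ : NeZero m, IsCyc G f ∧
        (srcs ρ f).card ≤ j - 1) ∧ cedges f = E}) ∪
      ((fun p : (ZMod j → V) × (ZMod j → V) => pedges p.1 p.2) ''
        {p | APair G ρ p.1 p.2 ∧ ∃ i, p.1 i ∈ (Set.range e)ᶜ}) ∪
      ((fun p : (ZMod j → V) × (ZMod j → V) => pedges p.1 p.2) ''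
        {p | APair G ρ p.1 p.2 ∧ ∃ i, p.2 i ∈ {v | v ∈ Set.range e ∨ typ G e v ∉ thick G e}}) ∪
      ((fun p : (ZMod j → V) × (ZMod j → V) => pedges p.1 p.2) '' goodPairs G e j) := by
  intro E hE
  obtain ⟨m, f, hm, hf, rfl⟩ := mem_cycles_iff.1 hE
  have hmL := hG m f hm hf
  have hm2 := hmax m hmL
  have : NeZero m := ⟨by omega⟩
  obtain ⟨h1, h2⟩ := few_or_apair hm hρ hf
  by_cases hs : (srcs ρ f).card ≤ j - 1
  · left; left; left
    refine Set.mem_iUnion₂.2 ⟨m, Finset.mem_Icc.2 ⟨hm, hm2⟩, f, fun _ => ⟨hf, ?_⟩, rfl⟩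
    convert hs
  · have h3 : m = 2 * j := by omega
    obtain ⟨q, x, v, hq, hA, hE⟩ := h2 (by omega)
    obtain rfl : q = j := by omega
    by_cases hx : ∀ i, x i ∈ Set.range e
    · by_cases hv : ∀ i, v i ∉ Set.range e ∧ typ G e (v i) ∈ thick G e
      · right
        exact ⟨(x, v), ⟨hA.1, hx, hv⟩, hE⟩
      · left; right
        push Not at hv
        obtain ⟨i, hi⟩ := hv
        refine ⟨(x, v), ⟨hA, i, ?_⟩, hE⟩
        by_cases h : v i ∈ Set.range e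
        · exact Or.inl h
        · exact Or.inr (hi h)
    · left; left; right
      push Not at hx
      obtain ⟨i, hi⟩ := hx
      exact ⟨(x, v), ⟨hA, i, hi⟩, hE⟩

theorem ncard_few {V : Type*} [Fintype V] {G : SimpleGraph V} {ρ : V → ℕ} {d : ℕ}
    (h : OutLe G ρ d) {m t : ℕ} (hm : 3 ≤ m) :
    {E | ∃ f : ZMod m → V, (∀ _ : NeZero m, IsCyc G f ∧ (srcs ρ f).card ≤ t) ∧
      cedges f = E}.ncard ≤ (3 * (d + 1)) ^ m * (Fintype.card V) ^ t := by
  have : NeZero m := ⟨by omega⟩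
  refine le_trans ?_ (card_few_src (t := t) hm h)
  have h1 : {E | ∃ f : ZMod m → V, (∀ _ : NeZero m, IsCyc G f ∧ (srcs ρ f).card ≤ t) ∧
      cedges f = E} ⊆ cedges '' {f : ZMod m → V | IsCyc G f ∧ (srcs ρ f).card ≤ t} := by
    rintro E ⟨f, hf, rfl⟩
    exact ⟨f, hf this, rfl⟩
  exact (Set.ncard_le_ncard h1 (Set.toFinite _)).trans (Set.ncard_image_le (Set.toFinite _))

theorem upper {L : Finset ℕ} {j : ℕ} (hj : 2 ≤ j) (hmax : ∀ x ∈ L, x ≤ 2 * j) {ε : ℝ}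
    (hε : 0 < ε) : ∃ C : ℝ, ∀ n : ℕ, 1 ≤ n → ∀ G : SimpleGraph (Fin n), IsLCycleGraph L G →
      ((cycles G).ncard : ℝ) ≤ (gam L j + ε) * (n : ℝ) ^ j + C * (n : ℝ) ^ (j - 1) := by
  set d : ℕ := 2 * j with hd
  set A : ℝ := (j : ℝ) * (d : ℝ) ^ j with hA
  have hj0 : (0 : ℝ) < j := by exact_mod_cast (by omega : 0 < j)
  have hd0 : (0 : ℝ) < d := by exact_mod_cast (by omega : 0 < d)
  have hA0 : 0 < A := by positivity
  set δ : ℝ := ε / A with hδ
  have hδ0 : 0 < δ := by positivity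
  set K : ℕ := ⌊2 * (d : ℝ) / δ⌋₊ with hK
  refine ⟨((2 * j : ℕ) : ℝ) * (3 * ((d : ℝ) + 1)) ^ (2 * j) + A * ((K : ℝ) + 2 ^ K * K), ?_⟩
  intro n hn G hG
  have hn0 : (0 : ℝ) < n := by exact_mod_cast hn
  have hG' := isLCycle_iff.1 hG
  obtain ⟨ρ, hρ⟩ := exists_rank (G := G) (k := d) (by omega) (fun u p hp => hmax _ (hG u p hp))
  set t : ℕ := ⌊δ * n⌋₊ + 1 with ht
  set H : Set (Fin n) := {v | t ≤ {u | G.Adj v u}.ncard} with hH
  obtain ⟨s, e, he, hr⟩ : ∃ (s : ℕ) (e : Fin s → Fin n), Function.Injective e ∧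
      Set.range e = H := by
    refine ⟨Nat.card H, fun i => ((Finite.equivFin H).symm i : Fin n), ?_, ?_⟩
    · intro a b h
      exact (Finite.equivFin H).symm.injective (Subtype.ext h)
    · ext v
      constructor
      · rintro ⟨i, rfl⟩
        exact ((Finite.equivFin H).symm i).2
      · intro hv
        refine ⟨(Finite.equivFin H) ⟨v, hv⟩, ?_⟩
        have h := (Finite.equivFin H).symm_apply_apply ⟨v, hv⟩
        exact congrArg Subtype.val h
  have hs : s = H.ncard := by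
    rw [← hr, ← Set.image_univ, Set.ncard_image_of_injective _ he, Set.ncard_univ,
      Nat.card_eq_fintype_card, Fintype.card_fin]
  have hbig := card_big_deg hρ t
  rw [Fintype.card_fin] at hbig
  have hsK : s ≤ K := by
    apply Nat.le_floor
    rw [le_div_iff₀ hδ0]
    have h1 : (s : ℝ) * t ≤ 2 * (d * n) := by
      rw [hs]
      exact_mod_cast hbig
    have h2 : δ * n ≤ t := by
      rw [ht]
      push_cast
      exact (Nat.lt_floor_add_one _).le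
    have h3 : (s : ℝ) * (δ * n) ≤ 2 * (d * n) := by
      refine le_trans ?_ h1
      gcongr
    have h4 : (s : ℝ) * δ * n ≤ 2 * d * n := by linarith
    exact le_of_mul_le_mul_right h4 hn0
  have hL : 2 * (j + 1) ∉ L := fun h => by
    have := hmax _ h
    omega
  have hadm := admissible_thick hG' he
  have hgood := good_image_le (V := Fin n) (G := G) hj hL he hadm
  rw [Nat.card_eq_fintype_card, Fintype.card_fin] at hgood
  have hx := card_bad_x hj hρ (Set.range e)ᶜ (⌊δ * n⌋₊) (fun u hu => by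
    rw [Set.mem_compl_iff, hr, hH] at hu
    simp only [Set.mem_ofPred_eq, not_le] at hu
    omega)
  rw [Fintype.card_fin] at hx
  have hv := card_bad_v hj hρ {v | v ∈ Set.range e ∨ typ G e v ∉ thick G e}
  rw [Fintype.card_fin] at hv
  have hrare := card_rare G e
  have hsub := cycles_subset hG' hmax hρ.1 e
  have h1 := Set.ncard_le_ncard hsub (Set.toFinite _)
  have h2 := h1.trans (Set.ncard_union_le _ _)
  have h3 := Set.ncard_union_le
    ((⋃ m ∈ Finset.Icc 3 (2 * j), {E | ∃ f : ZMod m → Fin n, (∀ _ : NeZero m, IsCyc G f ∧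
        (srcs ρ f).card ≤ j - 1) ∧ cedges f = E}) ∪
      ((fun p : (ZMod j → Fin n) × (ZMod j → Fin n) => pedges p.1 p.2) ''
        {p | APair G ρ p.1 p.2 ∧ ∃ i, p.1 i ∈ (Set.range e)ᶜ}))
    ((fun p : (ZMod j → Fin n) × (ZMod j → Fin n) => pedges p.1 p.2) ''
        {p | APair G ρ p.1 p.2 ∧ ∃ i, p.2 i ∈ {v | v ∈ Set.range e ∨ typ G e v ∉ thick G e}})
  have h4 := Set.ncard_union_le
    (⋃ m ∈ Finset.Icc 3 (2 * j), {E | ∃ f : ZMod m → Fin n, (∀ _ : NeZero m, IsCyc G f ∧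
        (srcs ρ f).card ≤ j - 1) ∧ cedges f = E})
    ((fun p : (ZMod j → Fin n) × (ZMod j → Fin n) => pedges p.1 p.2) ''
        {p | APair G ρ p.1 p.2 ∧ ∃ i, p.1 i ∈ (Set.range e)ᶜ})
  have : NeZero j := ⟨by omega⟩
  have h5 : ((fun p : (ZMod j → Fin n) × (ZMod j → Fin n) => pedges p.1 p.2) ''
        {p | APair G ρ p.1 p.2 ∧ ∃ i, p.1 i ∈ (Set.range e)ᶜ}).ncard ≤ _ :=
    (Set.ncard_image_le (Set.toFinite _)).trans hx
  have h6 : ((fun p : (ZMod j → Fin n) × (ZMod j → Fin n) => pedges p.1 p.2) ''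
        {p | APair G ρ p.1 p.2 ∧ ∃ i, p.2 i ∈
          {v | v ∈ Set.range e ∨ typ G e v ∉ thick G e}}).ncard ≤ _ :=
    (Set.ncard_image_le (Set.toFinite _)).trans hv
  have h7 : (⋃ m ∈ Finset.Icc 3 (2 * j), {E | ∃ f : ZMod m → Fin n, (∀ _ : NeZero m, IsCyc G f ∧
        (srcs ρ f).card ≤ j - 1) ∧ cedges f = E}).ncard ≤
      2 * j * ((3 * (d + 1)) ^ (2 * j) * n ^ (j - 1)) := by
    refine (Finset.set_ncard_biUnion_le _ _).trans ?_
    calc _ ≤ ∑ m ∈ Finset.Icc 3 (2 * j), (3 * (d + 1)) ^ (2 * j) * n ^ (j - 1) := by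
          refine Finset.sum_le_sum fun m hm => ?_
          rw [Finset.mem_Icc] at hm
          refine (ncard_few hρ hm.1).trans ?_
          rw [Fintype.card_fin]
          exact Nat.mul_le_mul_right _ (Nat.pow_le_pow_right (by omega) hm.2)
      _ ≤ _ := by
          rw [Finset.sum_const, smul_eq_mul, Nat.card_Icc]
          exact Nat.mul_le_mul_right _ (by omega)
  have h8 : ((cycles G).ncard : ℝ) ≤
      2 * j * ((3 * (d + 1)) ^ (2 * j) * (n : ℝ) ^ (j - 1)) +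
      j * (d ^ j * (n : ℝ) ^ (j - 1) * (⌊δ * n⌋₊ : ℝ)) +
      j * (d ^ j * (n : ℝ) ^ (j - 1) *
        ({v | v ∈ Set.range e ∨ typ G e v ∉ thick G e}.ncard : ℝ)) +
      gam L j * (n : ℝ) ^ j := by
    have h9 : (cycles G).ncard ≤ 2 * j * ((3 * (d + 1)) ^ (2 * j) * n ^ (j - 1)) +
      j * (d ^ j * n ^ (j - 1) * ⌊δ * n⌋₊) +
      j * (d ^ j * n ^ (j - 1) * {v | v ∈ Set.range e ∨ typ G e v ∉ thick G e}.ncard) +
      ((fun p : (ZMod j → Fin n) × (ZMod j → Fin n) => pedges p.1 p.2) ''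
        goodPairs G e j).ncard := by
      omega
    have h10 : ((cycles G).ncard : ℝ) ≤ 2 * j * ((3 * (d + 1)) ^ (2 * j) * n ^ (j - 1)) +
      j * (d ^ j * n ^ (j - 1) * (⌊δ * n⌋₊ : ℝ)) +
      j * (d ^ j * n ^ (j - 1) *
        ({v | v ∈ Set.range e ∨ typ G e v ∉ thick G e}.ncard : ℝ)) +
      (((fun p : (ZMod j → Fin n) × (ZMod j → Fin n) => pedges p.1 p.2) ''
        goodPairs G e j).ncard : ℝ) := by
      exact_mod_cast h9
    linarith
  have h11 : (⌊δ * n⌋₊ : ℝ) ≤ δ * n := Nat.floor_le (by positivity)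
  have h12 : ({v | v ∈ Set.range e ∨ typ G e v ∉ thick G e}.ncard : ℝ) ≤ K + 2 ^ K * K := by
    have h13 : {v | v ∈ Set.range e ∨ typ G e v ∉ thick G e}.ncard ≤ K + 2 ^ K * K := by
      refine hrare.trans ?_
      gcongr
      norm_num
    exact_mod_cast h13
  have h14 : j * (d ^ j * (n : ℝ) ^ (j - 1) * (⌊δ * n⌋₊ : ℝ)) ≤ ε * (n : ℝ) ^ j := by
    calc j * (d ^ j * (n : ℝ) ^ (j - 1) * (⌊δ * n⌋₊ : ℝ))
        ≤ j * (d ^ j * (n : ℝ) ^ (j - 1) * (δ * n)) := by gcongr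
      _ = A * δ * ((n : ℝ) ^ (j - 1) * n) := by rw [hA]; ring
      _ = ε * (n : ℝ) ^ j := by
          rw [← pow_succ, show j - 1 + 1 = j by omega, hδ, mul_div_cancel₀ _ hA0.ne']
  have h15 : j * (d ^ j * (n : ℝ) ^ (j - 1) *
        ({v | v ∈ Set.range e ∨ typ G e v ∉ thick G e}.ncard : ℝ)) ≤
      A * ((K : ℝ) + 2 ^ K * K) * (n : ℝ) ^ (j - 1) := by
    calc _ ≤ j * (d ^ j * (n : ℝ) ^ (j - 1) * ((K : ℝ) + 2 ^ K * K)) := by gcongr
      _ = _ := by rw [hA]; ring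
  calc _ ≤ _ := h8
    _ ≤ 2 * j * ((3 * (d + 1)) ^ (2 * j) * (n : ℝ) ^ (j - 1)) + ε * (n : ℝ) ^ j +
        A * ((K : ℝ) + 2 ^ K * K) * (n : ℝ) ^ (j - 1) + gam L j * (n : ℝ) ^ j := by
        linarith
    _ = _ := by
        push_cast
        ring

end Pool.Agent.H3.LC
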